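import Pool.Agent.T2H65.CP.A1
import Pool.Agent.R410.PW.Weil

/-!
# Project CP, package B1: the Weil bound for the curves, uniform in all finite fields

`Pool.Agent.R410.PW.weil` (R410/PW/Weil.lean, on main; also published names `WC`): for a finite field `F` with an algebraic closure
`k`, `f ∈ F[x][y]` monic in `y`, `A f + B f' = C D`, `0 ≠ D ∈ F[x]` of degree `≤ δ`, the degrees of the coefficients of `f`
`≤ d`, and `f` irreducible over `k`: `|#{f = 0} - q| ≤ WC (deg_y f) d δ √q`.
Here `f = y^a - x^b + g`, `d = b`; `f` is irreducible over every field by `cab_irr` (`Low.map`, `lead_map`).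
Case 1: `a ≠ 0` in `F`. The derivative `f'` (in `y`) has degree `a - 1` and the leading coefficient `a` (the coefficient of
`y^(a-1)` in `f'` is `a`); `f` is irreducible in `F(x)[y]` by Gauss and `f' ≠ 0`, so the resultant `D` of `f` and `f'` is not zero and
Mathlib gives `A, B` (`Polynomial.exists_mul_add_mul_eq_C_resultant`, `Polynomial.resultant_ne_zero`); `D` is a
determinant of size `2 a - 1` (Sylvester matrix), all entries are coefficients of `f` or of `f'`, of degree `≤ b`, so that
`deg D ≤ (2 a - 1) b =: δ` (`Matrix.det_apply`, `natDegree_sum_le_of_forall_le`, `natDegree_prod_le`).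
Case 2: `a = 0` in `F`; then `b ≠ 0` in `F` as `gcd (a, b) = 1`. Exchange `x` and `y` (`Polynomial.Bivariate.swap` in Mathlib):
`- f (y, x) = y^b - x^a - g(y, x)` is a curve of the same kind for `(b, a)` with the same number of points.
The constant is the maximum (or sum) of the two.
-/

set_option autoImplicit false

open Polynomial

namespace Pool.Agent.T2H65.CP

section aux
variable {F : Type} [Field F]

theorem b1_coeff_le {a b : ℕ} {g : F[X][X]} (hg : Low a b g) (i : ℕ) :
    ((lead F a b + g).coeff i).natDegree ≤ b := by
  have h1 : (g.coeff i).natDegree ≤ b := by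
    rw [natDegree_le_iff_coeff_eq_zero]
    intro j hj
    by_contra h
    have h2 := hg j i h
    have h3 : a * b ≤ a * j := Nat.mul_le_mul_left _ hj.le
    omega
  rw [coeff_add]
  refine (natDegree_add_le _ _).trans (max_le ?_ h1)
  unfold lead
  rw [coeff_sub, coeff_X_pow, coeff_C]
  refine (natDegree_sub_le _ _).trans (max_le ?_ ?_)
  · split_ifs <;> simp
  · split_ifs <;> simp

theorem b1_det_le {n d : ℕ} (M : Matrix (Fin n) (Fin n) F[X]) (hM : ∀ i j, (M i j).natDegree ≤ d) :
    M.det.natDegree ≤ n * d := by
  rw [Matrix.det_apply']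
  refine natDegree_sum_le_of_forall_le _ _ fun σ _ => ?_
  refine natDegree_mul_le.trans ?_
  rw [natDegree_intCast, zero_add]
  refine (natDegree_prod_le _ _).trans ?_
  refine (Finset.sum_le_card_nsmul _ _ d fun i _ => hM _ _).trans ?_
  simp

theorem b1_case {a b : ℕ} (ha : 1 ≤ a) (hb : 1 ≤ b) (hab : a.Coprime b) [Finite F]
    (haF : (a : F) ≠ 0) {g : F[X][X]} (hg : Low a b g) :
    |({z : F × F | evalEval z.1 z.2 (lead F a b + g) = 0}.ncard : ℝ) - Nat.card F| ≤
      R410.PW.WC a b ((a + (a - 1)) * b) * √(Nat.card F : ℝ) := by
  classical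
  obtain ⟨hm, hn⟩ := cab_monic (b := b) ha hg
  set f := lead F a b + g with hf
  have hirr : Irreducible f := cab_irr ha hb hab hg
  -- the derivative
  have hd : (derivative f).natDegree ≤ a - 1 := by
    have := natDegree_derivative_le f
    rwa [hn] at this
  have hcoef : (derivative f).coeff (a - 1) = (a : F[X]) := by
    rw [coeff_derivative]
    have h1 : a - 1 + 1 = a := by omega
    have h2 : f.coeff a = 1 := by
      have := hm.coeff_natDegree
      rwa [hn] at this
    rw [h1, h2, one_mul]
    have h3 : ((a - 1 : ℕ) : F[X]) + 1 = ((a - 1 + 1 : ℕ) : F[X]) := by push_cast; ring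
    rw [h3, h1]
  have haX : (a : F[X]) ≠ 0 := by
    intro h
    apply haF
    have := congrArg (eval 0) h
    simpa using this
  set D := resultant f (derivative f) a (a - 1) with hD
  obtain ⟨p, q, -, -, hpq⟩ := exists_mul_add_mul_eq_C_resultant f (derivative f) (m := a) (n := a - 1)
    hn.le hd (Or.inl (by omega))
  have hD0 : D ≠ 0 := by
    let K := RatFunc F
    set F0 : K[X] := f.map (algebraMap F[X] K) with hF0
    have hF0m : F0.Monic := hm.map _
    have hF0i : Irreducible F0 := (hm.irreducible_iff_irreducible_map_fraction_map (K := K)).1 hirr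
    have hder : derivative F0 = (derivative f).map (algebraMap F[X] K) := by
      rw [hF0, derivative_map]
    have hinj : Function.Injective (algebraMap F[X] K) := IsFractionRing.injective F[X] K
    have hne : derivative F0 ≠ 0 := by
      rw [hder]
      intro h
      have h1 := congrArg (fun r => r.coeff (a - 1)) h
      simp only [coeff_map, coeff_zero] at h1
      rw [hcoef] at h1
      exact haX (hinj (by rw [h1, map_zero]))
    have hcop : IsCoprime F0 (derivative F0) := (separable_iff_derivative_ne_zero hF0i).2 hne
    have hres := resultant_ne_zero F0 (derivative F0) hcop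
    have hn0 : F0.natDegree = a := by rw [hF0, hm.natDegree_map, hn]
    have hd0 : (derivative F0).natDegree = a - 1 := by
      apply natDegree_eq_of_le_of_coeff_ne_zero
      · rw [hder]
        exact natDegree_map_le.trans hd
      · rw [hder, coeff_map, hcoef]
        intro h
        exact haX (hinj (by rw [h, map_zero]))
    rw [hn0, hd0, hder, hF0, resultant_map_map] at hres
    intro h
    rw [hD] at h
    rw [h, map_zero] at hres
    exact hres rfl
  have hDdeg : D.natDegree ≤ (a + (a - 1)) * b := by
    rw [hD]
    unfold resultant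
    apply b1_det_le
    intro i j
    have hc1 : ∀ i, (f.coeff i).natDegree ≤ b := fun i => b1_coeff_le hg i
    have hc2 : ∀ i, ((derivative f).coeff i).natDegree ≤ b := by
      intro i
      rw [coeff_derivative]
      refine natDegree_mul_le.trans ?_
      have : ((i : F[X]) + 1).natDegree = 0 := by
        have h : ((i : F[X]) + 1) = ((i + 1 : ℕ) : F[X]) := by push_cast; ring
        rw [h, natDegree_natCast]
      rw [this, add_zero]
      exact hc1 _
    unfold sylvester
    rw [Matrix.of_apply]
    induction j using Fin.addCases with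
    | left j =>
      rw [Fin.addCases_left]
      split_ifs
      · exact hc2 _
      · simp
    | right j =>
      rw [Fin.addCases_right]
      split_ifs
      · exact hc1 _
      · simp
  have hw := R410.PW.weil (AlgebraicClosure F) (f := f) (A := p) (B := q) (D := D) hm (by omega)
    (by rw [mul_comm p, mul_comm q]; exact hpq) hD0 hDdeg (d := b) (fun i => b1_coeff_le hg i) (by
      have : f.map (mapRingHom (algebraMap F (AlgebraicClosure F))) =
          lead (AlgebraicClosure F) a b + g.map (mapRingHom (algebraMap F (AlgebraicClosure F))) := by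
        rw [hf, Polynomial.map_add, lead_map]
      rw [this]
      exact cab_irr ha hb hab (hg.map _))
  rw [hn] at hw
  exact hw

theorem b1_swap_coeff (p : F[X][X]) (i j : ℕ) :
    ((Bivariate.swap (R := F) p).coeff j).coeff i = (p.coeff i).coeff j := by
  induction p using Polynomial.induction_on' with
  | add p q hp hq => rw [map_add, coeff_add, coeff_add, coeff_add, coeff_add, hp, hq]
  | monomial n r =>
    induction r using Polynomial.induction_on' with
    | add p q hp hq =>
      rw [map_add, map_add, coeff_add, coeff_add, coeff_add, coeff_add, hp, hq]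
    | monomial m r =>
      rw [Bivariate.swap_monomial_monomial, coeff_monomial, coeff_monomial]
      split_ifs <;> simp_all [coeff_monomial]

theorem b1_swap_eval (p : F[X][X]) (x y : F) :
    evalEval x y (Bivariate.swap (R := F) p) = evalEval y x p := by
  induction p using Polynomial.induction_on' with
  | add p q hp hq => rw [map_add, evalEval_add, evalEval_add, hp, hq]
  | monomial n r =>
    induction r using Polynomial.induction_on' with
    | add p q hp hq => rw [map_add, map_add, evalEval_add, evalEval_add, hp, hq]
    | monomial m r =>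
      rw [Bivariate.swap_monomial_monomial]
      unfold evalEval
      rw [eval_monomial, eval_monomial, eval_mul, eval_mul, eval_monomial, eval_monomial, eval_pow,
        eval_pow, eval_C, eval_C]
      ring

end aux

theorem cab_weil {a b : ℕ} (ha : 1 ≤ a) (hb : 1 ≤ b) (hab : a.Coprime b) : ∃ C : ℝ, 0 ≤ C ∧
    ∀ (F : Type) [Field F] [Finite F] (g : F[X][X]), Low a b g →
      |(Nat.card {z : F × F // evalEval z.1 z.2 (lead F a b + g) = 0} : ℝ) - Nat.card F| ≤
        C * √(Nat.card F : ℝ) := by
  refine ⟨(R410.PW.WC a b ((a + (a - 1)) * b) : ℝ) + (R410.PW.WC b a ((b + (b - 1)) * a) : ℝ),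
    by positivity, ?_⟩
  intro F _ _ g hg
  by_cases haF : (a : F) = 0
  · have hbF : (b : F) ≠ 0 := by
      intro hbF
      have h1 : IsCoprime (a : ℤ) (b : ℤ) := Nat.isCoprime_iff_coprime.2 hab
      obtain ⟨u, v, h⟩ := h1
      have h2 := congrArg (fun n : ℤ => (n : F)) h
      push_cast at h2
      rw [haF, hbF, mul_zero, mul_zero, add_zero] at h2
      exact zero_ne_one h2
    have hg' : Low b a (-(Bivariate.swap (R := F) g)) := by
      intro i j hij
      rw [coeff_neg, coeff_neg, neg_ne_zero, b1_swap_coeff] at hij
      have := hg j i hij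
      rw [mul_comm b a]
      omega
    have h := b1_case hb ha hab.symm hbF hg'
    have hset : {z : F × F | evalEval z.1 z.2 (lead F b a + -(Bivariate.swap (R := F) g)) = 0} =
        Prod.swap '' {z : F × F | evalEval z.1 z.2 (lead F a b + g) = 0} := by
      have hsw : lead F b a + -(Bivariate.swap (R := F) g) =
          -(Bivariate.swap (R := F) (lead F a b + g)) := by
        unfold lead
        simp only [map_add, map_sub, map_pow, Bivariate.swap_Y, Bivariate.swap_X]
        ring
      ext ⟨x, y⟩
      rw [Set.mem_ofPred_eq, hsw, evalEval_neg, b1_swap_eval, neg_eq_zero, Set.mem_image]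
      constructor
      · intro h
        exact ⟨(y, x), h, rfl⟩
      · rintro ⟨⟨u, v⟩, h1, h2⟩
        rw [Prod.swap_prod_mk, Prod.mk.injEq] at h2
        obtain ⟨rfl, rfl⟩ := h2
        exact h1
    rw [hset, Set.ncard_image_of_injective _ Prod.swap_injective] at h
    refine le_trans (le_of_eq ?_) (h.trans ?_)
    · rw [← Nat.card_coe_set_eq]
      rfl
    · apply mul_le_mul_of_nonneg_right _ (Real.sqrt_nonneg _)
      have : (0 : ℝ) ≤ (R410.PW.WC a b ((a + (a - 1)) * b) : ℝ) := by positivity
      linarith
  · have h := b1_case ha hb hab haF hg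
    refine le_trans (le_of_eq ?_) (h.trans ?_)
    · rw [← Nat.card_coe_set_eq]
      rfl
    · apply mul_le_mul_of_nonneg_right _ (Real.sqrt_nonneg _)
      have : (0 : ℝ) ≤ (R410.PW.WC b a ((b + (b - 1)) * a) : ℝ) := by positivity
      linarith

end Pool.Agent.T2H65.CP
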