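import Pool.Agent.T2H65.CP.A4

/-!
# Project CP, package A5: the primes of `R` outside `Q`

Write `R = CR ..`, `i = io ..`. Let `𝔮 ≠ 0` be a prime of the Dedekind domain `R` with `i Q ∉ 𝔮`, `𝔭 := 𝔮.comap i`.
(1) `𝔭 ≠ 0`: take `0 ≠ r ∈ 𝔮`; by `lift`, `κ Q^n r = i f`, `f ≠ 0` (as `κ`, `i Q ≠ 0`, `R` is a domain) and `f ∈ 𝔭`.
(2) `L[x, y]` is factorial, so `𝔭` contains an irreducible `π`. Claim: `𝔭 = (π)`. Otherwise `𝔭 ∩ L[x] ≠ 0` and
    (by symmetry) `𝔭 ∩ L[y] ≠ 0`, so `L[x, y]/𝔭` is algebraic over `L`; thus `w = - P'/Q'` is algebraic over `L` in the field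
    of fractions of `L[x, y]/𝔭`: `g(w) = 0` for some `0 ≠ g ∈ L[X]`. But `g(w) ≠ 0` is a unit of `K` (`w` is transcendental),
    a contradiction.
(3) `i π ∈ 𝔮`, so `(i π) = 𝔮 J` (`Ideal.dvd_iff_le`). `𝔮` is finitely generated; for each generator `r`:
    `κ Q^n r = i f` with `f ∈ 𝔭 = (π)`, hence `i Q^n r ∈ (i π)`. So `i Q^N 𝔮 ≤ (i π) = 𝔮 J` for some `N`, and `i Q^N ∈ J` by
    cancellation.
-/

set_option autoImplicit false

open Polynomial

namespace Pool.Agent.T2H65.CP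

namespace PkgA5

attribute [local instance] Polynomial.algebra Polynomial.isLocalization in
/-- a prime ideal of `L[x][y]` which does not meet `L[x]` is principal -/
theorem prin {L : Type} [Field L] {𝔭 : Ideal L[X][X]} (hp : 𝔭.IsPrime) (hC : ∀ r : L[X], r ≠ 0 → C r ∉ 𝔭)
    {π : L[X][X]} (hπ : π ∈ 𝔭) (hπp : Prime π) : 𝔭 = Ideal.span {π} := by
  set M : Submonoid L[X][X] := (nonZeroDivisors L[X]).map (C : L[X] →+* L[X][X]) with hM
  have hd : Disjoint (M : Set L[X][X]) (𝔭 : Set L[X][X]) := by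
    rw [Set.disjoint_left]
    rintro _ ⟨r, hr, rfl⟩ h1
    exact hC r (nonZeroDivisors.ne_zero hr) h1
  have hle : Ideal.span {π} ≤ 𝔭 := by
    rw [Ideal.span_le, Set.singleton_subset_iff]
    exact hπ
  have hd' : Disjoint (M : Set L[X][X]) (Ideal.span {π} : Ideal L[X][X]) :=
    Set.disjoint_of_subset_right hle hd
  have hsp : (Ideal.span {π} : Ideal L[X][X]).IsPrime := (Ideal.span_singleton_prime hπp.ne_zero).2 hπp
  have h1 := IsLocalization.isPrime_of_isPrime_disjoint M (FractionRing L[X])[X] 𝔭 hp hd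
  have h2 := IsLocalization.isPrime_of_isPrime_disjoint M (FractionRing L[X])[X] _ hsp hd'
  have h3 := IsLocalization.under_map_of_isPrime_disjoint M (FractionRing L[X])[X] hp hd
  have h4 := IsLocalization.under_map_of_isPrime_disjoint M (FractionRing L[X])[X] hsp hd'
  have h5 : Ideal.map (algebraMap L[X][X] (FractionRing L[X])[X]) (Ideal.span {π}) ≠ ⊥ := by
    intro h
    rw [h] at h4
    have hinj : Function.Injective (algebraMap L[X][X] (FractionRing L[X])[X]) := by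
      have : M ≤ nonZeroDivisors L[X][X] := by
        rintro _ ⟨r, hr, rfl⟩
        exact mem_nonZeroDivisors_of_ne_zero (C_ne_zero.2 (nonZeroDivisors.ne_zero hr))
      exact IsLocalization.injective _ this
    have h6 : π ∈ Ideal.under L[X][X] (⊥ : Ideal (FractionRing L[X])[X]) := by
      rw [h4]
      exact Ideal.mem_span_singleton_self π
    rw [Ideal.mem_under, Ideal.mem_bot] at h6
    exact hπp.ne_zero (hinj (by rw [h6, map_zero]))
  have h6 := h2.isMaximal h5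
  have h7 := h6.eq_of_le h1.ne_top (Ideal.map_mono hle)
  rw [← h3, ← h4, h7]

/-- a prime ideal of `L[x][y]` which meets `L[x]` and `L[y]`: the quotient is algebraic -/
theorem alg {L : Type} [Field L] {Om : Type} [Field Om] [Algebra L Om] (θ : L[X][X] →+* Om)
    (hθ : θ.comp (C.comp C) = algebraMap L Om)
    {r s : L[X]} (hr : r ≠ 0) (hs : s ≠ 0) (h1 : θ (C r) = 0) (h2 : θ (s.map C) = 0) (F : L[X][X]) :
    IsAlgebraic L (θ F) := by
  have hx : IsAlgebraic L (θ (C X)) := by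
    refine ⟨r, hr, ?_⟩
    rw [aeval_def, ← hθ]
    have h3 := hom_eval₂ r C (θ.comp C) X
    rw [eval₂_C_X, RingHom.comp_apply, RingHom.comp_apply, h1] at h3
    exact h3.symm
  have hy : IsAlgebraic L (θ X) := by
    refine ⟨s, hs, ?_⟩
    rw [aeval_def, ← hθ]
    have h3 := hom_eval₂ s (C.comp C) θ X
    have h4 : s.map C = eval₂ (C.comp C) (X : L[X][X]) s := rfl
    rw [← h4, h2] at h3
    exact h3.symm
  have hc : ∀ c : L, IsAlgebraic L (θ (C (C c))) := by
    intro c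
    have h3 : θ (C (C c)) = algebraMap L Om c := by
      rw [← hθ]
      rfl
    rw [h3]
    exact isAlgebraic_algebraMap c
  have hCp : ∀ p : L[X], IsAlgebraic L (θ (C p)) := by
    intro p
    induction p using Polynomial.induction_on' with
    | add p q hp hq =>
      rw [C_add, map_add]
      exact hp.add hq
    | monomial n c =>
      rw [← C_mul_X_pow_eq_monomial, C_mul, map_mul, C_pow, map_pow]
      exact (hc c).mul (hx.pow n)
  induction F using Polynomial.induction_on' with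
  | add p q hp hq =>
    rw [map_add]
    exact hp.add hq
  | monomial n c =>
    rw [← C_mul_X_pow_eq_monomial, map_mul, map_pow]
    exact (hCp c).mul (hy.pow n)

/-- the dichotomy: a nonzero prime ideal is principal or algebraic -/
theorem dich {L : Type} [Field L] {𝔭 : Ideal L[X][X]} (hp : 𝔭.IsPrime) {π : L[X][X]} (hπ : π ∈ 𝔭)
    (hπp : Prime π) : 𝔭 = Ideal.span {π} ∨
      ((∃ r : L[X], r ≠ 0 ∧ C r ∈ 𝔭) ∧ ∃ s : L[X], s ≠ 0 ∧ s.map C ∈ 𝔭) := by
  by_cases h1 : ∀ r : L[X], r ≠ 0 → C r ∉ 𝔭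
  · exact Or.inl (prin hp h1 hπ hπp)
  · push Not at h1
    by_cases h2 : ∀ r : L[X], r ≠ 0 → C r ∉ 𝔭.comap (Bivariate.swap (R := L)).toRingHom
    · left
      have h3 : Prime (Bivariate.swap (R := L) π) := (MulEquiv.prime_iff (Bivariate.swap (R := L))).2 hπp
      have h4 : Bivariate.swap (R := L) π ∈ 𝔭.comap (Bivariate.swap (R := L)).toRingHom := by
        rw [Ideal.mem_comap]
        change Bivariate.swap (Bivariate.swap π) ∈ 𝔭
        rwa [Bivariate.swap_swap_apply]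
      have h5 := prin (Ideal.IsPrime.comap _) h2 h4 h3
      ext f
      have h6 : Bivariate.swap (R := L) f ∈ 𝔭.comap (Bivariate.swap (R := L)).toRingHom ↔
          Bivariate.swap (R := L) f ∈ Ideal.span {Bivariate.swap (R := L) π} := by rw [h5]
      rw [Ideal.mem_comap, Ideal.mem_span_singleton] at h6
      rw [Ideal.mem_span_singleton]
      change Bivariate.swap (Bivariate.swap f) ∈ 𝔭 ↔ _ at h6
      rw [Bivariate.swap_swap_apply] at h6
      rw [h6]
      exact map_dvd_iff (Bivariate.swap (R := L))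
    · right
      push Not at h2
      obtain ⟨s, hs, h3⟩ := h2
      refine ⟨h1, s, hs, ?_⟩
      rw [Ideal.mem_comap] at h3
      change Bivariate.swap (C s) ∈ 𝔭 at h3
      rwa [Bivariate.swap_C] at h3

/-- a prime ideal is the kernel of a map to a field -/
theorem exists_field {A : Type} [CommRing A] {𝔭 : Ideal A} (hp : 𝔭.IsPrime) :
    ∃ (Om : Type) (_ : Field Om) (θ : A →+* Om), ∀ F, θ F = 0 ↔ F ∈ 𝔭 := by
  have : IsDomain (A ⧸ 𝔭) := Ideal.Quotient.isDomain _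
  refine ⟨FractionRing (A ⧸ 𝔭), inferInstance,
    (algebraMap (A ⧸ 𝔭) (FractionRing (A ⧸ 𝔭))).comp (Ideal.Quotient.mk 𝔭), fun F => ?_⟩
  rw [RingHom.comp_apply]
  constructor
  · intro h3
    have h4 : Ideal.Quotient.mk 𝔭 F = 0 :=
      IsFractionRing.injective (A ⧸ 𝔭) (FractionRing (A ⧸ 𝔭)) (by rw [h3, map_zero])
    exact Ideal.Quotient.eq_zero_iff_mem.1 h4
  · intro h3
    have h4 : Ideal.Quotient.mk 𝔭 F = 0 := Ideal.Quotient.eq_zero_iff_mem.2 h3
    rw [h4, map_zero]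

/-- the contraction of `𝔮` is principal -/
theorem contr {L : Type} [Field L] {K : Type} [Field K] [Algebra L K] {a b : ℕ}
    {P₀ Q : L[X][X]} {w : K} (h : Sit a b P₀ Q w)
    {𝔮 : Ideal (CR (cur a b P₀) Q w)} (hp : 𝔮.IsPrime) (hq : io (cur a b P₀) Q w Q ∉ 𝔮)
    {π : L[X][X]} (hπ : io (cur a b P₀) Q w π ∈ 𝔮) (hπp : Prime π) :
    𝔮.comap (io (cur a b P₀) Q w) = Ideal.span {π} := by
  set i := io (cur a b P₀) Q w with hi
  have hpp : (𝔮.comap i).IsPrime := Ideal.IsPrime.comap i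
  rcases dich hpp (π := π) hπ hπp with h1 | ⟨⟨r, hr, h1⟩, s, hs, h2⟩
  · exact h1
  exfalso
  obtain ⟨Om, _, θ, hker⟩ := exists_field hpp
  let _ : Algebra L Om := (θ.comp (C.comp C)).toAlgebra
  have halg := alg θ rfl hr hs ((hker _).2 h1) ((hker _).2 h2)
  have hQ : θ Q ≠ 0 := fun h3 => hq ((hker _).1 h3)
  have hom : IsAlgebraic L (- θ (cur a b P₀) / θ Q) := by
    rw [div_eq_mul_inv]
    exact (halg _).neg.mul (halg _).inv
  obtain ⟨g, hg, hg0⟩ := hom
  have h3 := fib_val θ hQ (P := cur a b P₀) g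
  have h4 : eval₂ (θ.comp (C.comp C)) (- θ (cur a b P₀) / θ Q) g = 0 := hg0
  rw [h4, mul_zero] at h3
  have h5 := (hker _).1 h3
  rw [Ideal.mem_comap, hi, io_fib] at h5
  have hu : IsUnit (AdjoinRoot.of (mem (cur a b P₀) Q w) (C (aeval w g))) := by
    refine IsUnit.map _ ?_
    rw [Polynomial.isUnit_C]
    exact (PkgA4.aeval_ne h hg).isUnit
  rcases hp.mem_or_mem h5 with h6 | h6
  · exact hq (hp.mem_of_pow_mem _ h6)
  · exact hp.ne_top (Ideal.eq_top_of_isUnit_mem _ h6 hu)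

end PkgA5

open PkgA5

theorem prime_cls {L : Type} [Field L] [CharZero L] {K : Type} [Field K] [Algebra L K] {a b : ℕ}
    {P₀ Q : L[X][X]} {w : K} (h : Sit a b P₀ Q w) [IsDedekindDomain (CR (cur a b P₀) Q w)]
    {𝔮 : Ideal (CR (cur a b P₀) Q w)} (hp : 𝔮.IsPrime) (h0 : 𝔮 ≠ ⊥) (hq : io (cur a b P₀) Q w Q ∉ 𝔮) :
    ∃ x : CR (cur a b P₀) Q w, x ≠ 0 ∧ ∃ J : Ideal (CR (cur a b P₀) Q w), Ideal.span {x} = 𝔮 * J ∧
      ∃ N : ℕ, io (cur a b P₀) Q w Q ^ N ∈ J := by
  classical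
  set i := io (cur a b P₀) Q w with hi
  have hQ0 : i Q ≠ 0 := fun h1 => hq (h1 ▸ 𝔮.zero_mem)
  have hunit : ∀ κ : K, κ ≠ 0 → IsUnit (AdjoinRoot.of (mem (cur a b P₀) Q w) (C κ)) := by
    intro κ hκ
    refine IsUnit.map _ ?_
    rw [Polynomial.isUnit_C]
    exact hκ.isUnit
  have hne : 𝔮.comap i ≠ ⊥ := by
    intro h1
    obtain ⟨r, hr, hr0⟩ := Submodule.exists_mem_ne_zero_of_ne_bot h0
    obtain ⟨κ, n, f, hκ, h2⟩ := lift h r
    have h3 : f ∈ 𝔮.comap i := by
      rw [Ideal.mem_comap, hi, ← h2]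
      exact 𝔮.mul_mem_left _ hr
    rw [h1, Ideal.mem_bot] at h3
    rw [h3, map_zero] at h2
    exact mul_ne_zero (mul_ne_zero (hunit κ hκ).ne_zero (pow_ne_zero n hQ0)) hr0 h2
  obtain ⟨π, hπ, hπp⟩ := (Ideal.IsPrime.comap i : (𝔮.comap i).IsPrime).exists_mem_prime_of_ne_bot hne
  have hcon := contr h hp hq hπ hπp
  refine ⟨i π, ?_, ?_⟩
  · intro h1
    exact hπp.ne_zero (io_inj h (by rw [← hi, h1, map_zero]))
  have hdvd : 𝔮 ∣ Ideal.span {i π} := by
    rw [Ideal.dvd_iff_le, Ideal.span_le, Set.singleton_subset_iff]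
    exact hπ
  obtain ⟨J, hJ⟩ := hdvd
  refine ⟨J, hJ, ?_⟩
  -- each element of `𝔮` is in `(i π)` up to a power of `i Q`
  have hel : ∀ r ∈ 𝔮, ∃ n : ℕ, i Q ^ n * r ∈ Ideal.span {i π} := by
    intro r hr
    obtain ⟨κ, n, f, hκ, h2⟩ := lift h r
    refine ⟨n, ?_⟩
    have h3 : f ∈ 𝔮.comap i := by
      rw [Ideal.mem_comap, hi, ← h2]
      exact 𝔮.mul_mem_left _ hr
    rw [hi, hcon, Ideal.mem_span_singleton] at h3
    have h4 : i π ∣ AdjoinRoot.of (mem (cur a b P₀) Q w) (C κ) * (i Q ^ n * r) := by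
      rw [← mul_assoc, hi, h2]
      exact map_dvd _ h3
    rw [Ideal.mem_span_singleton]
    exact ((hunit κ hκ).dvd_mul_left).1 h4
  obtain ⟨s, hs⟩ := (IsNoetherian.noetherian 𝔮 : 𝔮.FG)
  choose! N hN using hel
  refine ⟨s.sup N, ?_⟩
  have h1 : Ideal.span {i Q ^ s.sup N} * 𝔮 ≤ Ideal.span {i π} := by
    rw [Ideal.mul_le]
    intro u hu v hv
    rw [Ideal.mem_span_singleton'] at hu
    obtain ⟨c, rfl⟩ := hu
    rw [mul_assoc]
    refine Ideal.mul_mem_left _ _ ?_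
    rw [← hs] at hv
    refine Submodule.span_induction (p := fun v _ => i Q ^ s.sup N * v ∈ Ideal.span {i π}) ?_ ?_ ?_ ?_ hv
    · intro x hx
      have h2 : N x ≤ s.sup N := Finset.le_sup hx
      have h3 : i Q ^ s.sup N * x = i Q ^ (s.sup N - N x) * (i Q ^ N x * x) := by
        rw [← mul_assoc, ← pow_add, Nat.sub_add_cancel h2]
      rw [h3]
      refine Ideal.mul_mem_left _ _ (hN x ?_)
      rw [← hs]
      exact Submodule.subset_span hx
    · rw [mul_zero]
      exact Ideal.zero_mem _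
    · intro x y _ _ hx hy
      rw [mul_add]
      exact Ideal.add_mem _ hx hy
    · intro c x _ hx
      rw [smul_eq_mul, mul_left_comm]
      exact Ideal.mul_mem_left _ _ hx
  rw [hJ, ← Ideal.dvd_iff_le, mul_comm (Ideal.span _) 𝔮] at h1
  have h2 := (mul_dvd_mul_iff_left (by rwa [Ne, Ideal.zero_eq_bot])).1 h1
  rw [Ideal.dvd_iff_le, Ideal.span_le, Set.singleton_subset_iff] at h2
  exact h2

end Pool.Agent.T2H65.CP
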