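import Pool.Agent.T2H65.CP.A6a

/-!
# Project CP, package A6: relations between ideals above `Q`

Write `R = CR ..`, `i = io ..`; `R` is a Dedekind domain. `(x) I = (y) J` with `i Q^N ∈ I, J`.
(1) By `lift`: `κ Q^n x = i f`, `κ' Q^m y = i g`, `f, g ≠ 0`; `κ, κ'` are units of `R`. So
    `(i (f Q^m)) I = (κ Q^(n+m) x) I = (Q^(n+m)) (x) I = (Q^(n+m)) (y) J = (i (g Q^n)) J`: we may suppose `x = i f`, `y = i g`.
(2) Divide `f` and `g` by their gcd (`L[x, y]` is a `GCDMonoid`/factorial: `UniqueFactorizationMonoid.exists_reduced_factors'`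
    gives `f = c f'`, `g = c g'`, `f', g'` relatively prime) and cancel `(i c) ≠ 0` in the Dedekind domain:
    `(i f') I = (i g') J`.
(3) Let `π` be irreducible, `π ∣ f'`. Then `π ∤ g'` and `i g' Q^N ∈ (i g') J = (i f') I ≤ (i π)`, so by `prime_alt`: `π ∣ Q` or
    `(i π) = (i Q^n)`. Hence (induction on the factorization of `f'`, `WfDvdMonoid.induction_on_irreducible`
    or `UniqueFactorizationMonoid.factors`) there is `u ≠ 0`, all of whose irreducible factors divide `Q`, with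
    `(i u) = (i f')`: replace the factors of the second kind by `Q^n`. In the same way `(i v) = (i g')`.
-/

set_option autoImplicit false

open Polynomial

namespace Pool.Agent.T2H65.CP

namespace PkgA6

/-- replace the factors which become powers of `Q` -/
theorem repl {A R : Type*} [CommRing A] [IsDomain A] [UniqueFactorizationMonoid A] [CommRing R]
    (i : A →+* R) {Q : A} (hQ0 : Q ≠ 0) (f : A) (hf : f ≠ 0)
    (h : ∀ π, Irreducible π → π ∣ f → π ∣ Q ∨ ∃ n : ℕ, Ideal.span {i π} = Ideal.span {i Q ^ n}) :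
    ∃ u : A, u ≠ 0 ∧ (∀ π, Irreducible π → π ∣ u → π ∣ Q) ∧ Ideal.span {i u} = Ideal.span {i f} := by
  induction f using WfDvdMonoid.induction_on_irreducible with
  | zero => exact absurd rfl hf
  | unit u hu =>
    refine ⟨1, one_ne_zero, fun π hπ hd => absurd (isUnit_of_dvd_one hd) hπ.not_isUnit, ?_⟩
    rw [map_one, Ideal.span_singleton_one, Ideal.span_singleton_eq_top.2 (hu.map i)]
  | mul a π ha hπ ih =>
    obtain ⟨u, hu0, hu1, hu2⟩ := ih ha fun ρ hρ hd => h ρ hρ (hd.trans (dvd_mul_left _ _))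
    rcases h π hπ (dvd_mul_right _ _) with h1 | ⟨n, hn⟩
    · refine ⟨π * u, mul_ne_zero hπ.ne_zero hu0, fun ρ hρ hd => ?_, ?_⟩
      · rcases hρ.prime.dvd_or_dvd hd with h2 | h2
        · exact h2.trans h1
        · exact hu1 ρ hρ h2
      · rw [map_mul, map_mul, ← Ideal.span_singleton_mul_span_singleton,
          ← Ideal.span_singleton_mul_span_singleton, hu2]
    · refine ⟨Q ^ n * u, mul_ne_zero (pow_ne_zero _ hQ0) hu0, fun ρ hρ hd => ?_, ?_⟩
      · rcases hρ.prime.dvd_or_dvd hd with h2 | h2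
        · exact hρ.prime.dvd_of_dvd_pow h2
        · exact hu1 ρ hρ h2
      · rw [map_mul, map_mul, map_pow, ← Ideal.span_singleton_mul_span_singleton,
          ← Ideal.span_singleton_mul_span_singleton, hu2, hn]

theorem gen {A R : Type*} [CommRing A] [IsDomain A] [UniqueFactorizationMonoid A] [CommRing R]
    [IsDomain R] (i : A →+* R) (hinj : Function.Injective i) {Q : A} (hQ0 : Q ≠ 0)
    (hlift : ∀ x : R, x ≠ 0 → ∃ (n : ℕ) (f : A), f ≠ 0 ∧
      Ideal.span {i f} = Ideal.span {i Q ^ n} * Ideal.span {x})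
    (hpa : ∀ (π g : A) (N : ℕ), Irreducible π → ¬ π ∣ g → i g * i Q ^ N ∈ Ideal.span {i π} →
      π ∣ Q ∨ ∃ n : ℕ, Ideal.span {i π} = Ideal.span {i Q ^ n})
    {x y : R} (hx : x ≠ 0) (hy : y ≠ 0) {I J : Ideal R} {N : ℕ}
    (hI : i Q ^ N ∈ I) (hJ : i Q ^ N ∈ J) (hxy : Ideal.span {x} * I = Ideal.span {y} * J) :
    ∃ u v : A, u ≠ 0 ∧ v ≠ 0 ∧ (∀ π, Irreducible π → π ∣ u → π ∣ Q) ∧
      (∀ π, Irreducible π → π ∣ v → π ∣ Q) ∧
      Ideal.span {i u} * I = Ideal.span {i v} * J := by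
  have hi0 : ∀ f : A, f ≠ 0 → i f ≠ 0 := fun f hf h0 => hf (hinj (by rw [h0, map_zero]))
  obtain ⟨n, f, hf0, hf⟩ := hlift x hx
  obtain ⟨m, g, hg0, hg⟩ := hlift y hy
  have hf1 : f * Q ^ m ≠ 0 := mul_ne_zero hf0 (pow_ne_zero _ hQ0)
  have hg1 : g * Q ^ n ≠ 0 := mul_ne_zero hg0 (pow_ne_zero _ hQ0)
  have h1 : Ideal.span {i (f * Q ^ m)} * I = Ideal.span {i (g * Q ^ n)} * J := by
    rw [map_mul, map_mul, map_pow, map_pow, ← Ideal.span_singleton_mul_span_singleton,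
      ← Ideal.span_singleton_mul_span_singleton, hf, hg]
    calc Ideal.span {i Q ^ n} * Ideal.span {x} * Ideal.span {i Q ^ m} * I
        = Ideal.span {i Q ^ n} * Ideal.span {i Q ^ m} * (Ideal.span {x} * I) := by ring
      _ = Ideal.span {i Q ^ n} * Ideal.span {i Q ^ m} * (Ideal.span {y} * J) := by rw [hxy]
      _ = Ideal.span {i Q ^ m} * Ideal.span {y} * Ideal.span {i Q ^ n} * J := by ring
  obtain ⟨f', g', c, hrel, hcf, hcg⟩ := UniqueFactorizationMonoid.exists_reduced_factors _ hf1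
    (g * Q ^ n)
  have hc0 : c ≠ 0 := by
    rintro rfl
    rw [zero_mul] at hcf
    exact hf1 hcf.symm
  have hf'0 : f' ≠ 0 := by
    rintro rfl
    rw [mul_zero] at hcf
    exact hf1 hcf.symm
  have hg'0 : g' ≠ 0 := by
    rintro rfl
    rw [mul_zero] at hcg
    exact hg1 hcg.symm
  have h2 : Ideal.span {i f'} * I = Ideal.span {i g'} * J := by
    rw [← hcf, ← hcg, map_mul, map_mul, ← Ideal.span_singleton_mul_span_singleton,
      ← Ideal.span_singleton_mul_span_singleton, mul_assoc, mul_assoc] at h1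
    exact (Ideal.span_singleton_mul_right_inj (hi0 c hc0)).1 h1
  have hle : ∀ (π f : A), π ∣ f → Ideal.span {i f} ≤ Ideal.span {i π} := fun π f hd =>
    Ideal.span_singleton_le_span_singleton.2 (map_dvd i hd)
  have hf2 : ∀ π, Irreducible π → π ∣ f' → π ∣ Q ∨ ∃ n : ℕ, Ideal.span {i π} =
      Ideal.span {i Q ^ n} := by
    intro π hπ hd
    refine hpa π g' N hπ (fun hd' => hπ.not_isUnit (hrel hd hd')) ?_
    have h3 : i g' * i Q ^ N ∈ Ideal.span {i g'} * J :=
      Ideal.mul_mem_mul (Ideal.mem_span_singleton_self _) hJ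
    rw [← h2] at h3
    exact hle π f' hd (Ideal.mul_le_left h3)
  have hg2 : ∀ π, Irreducible π → π ∣ g' → π ∣ Q ∨ ∃ n : ℕ, Ideal.span {i π} =
      Ideal.span {i Q ^ n} := by
    intro π hπ hd
    refine hpa π f' N hπ (fun hd' => hπ.not_isUnit (hrel hd' hd)) ?_
    have h3 : i f' * i Q ^ N ∈ Ideal.span {i f'} * I :=
      Ideal.mul_mem_mul (Ideal.mem_span_singleton_self _) hI
    rw [h2] at h3
    exact hle π g' hd (Ideal.mul_le_left h3)
  obtain ⟨u, hu0, hu1, hu2⟩ := repl i hQ0 f' hf'0 hf2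
  obtain ⟨v, hv0, hv1, hv2⟩ := repl i hQ0 g' hg'0 hg2
  exact ⟨u, v, hu0, hv0, hu1, hv1, by rw [hu2, hv2, h2]⟩

end PkgA6

theorem factor {L : Type} [Field L] [CharZero L] {K : Type} [Field K] [Algebra L K] {a b : ℕ}
    {P₀ Q : L[X][X]} {w : K} (h : Sit a b P₀ Q w) [IsDedekindDomain (CR (cur a b P₀) Q w)]
    {x y : CR (cur a b P₀) Q w} (hx : x ≠ 0) (hy : y ≠ 0) {I J : Ideal (CR (cur a b P₀) Q w)} {N : ℕ}
    (hI : io (cur a b P₀) Q w Q ^ N ∈ I) (hJ : io (cur a b P₀) Q w Q ^ N ∈ J)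
    (hxy : Ideal.span {x} * I = Ideal.span {y} * J) :
    ∃ u v : L[X][X], u ≠ 0 ∧ v ≠ 0 ∧ (∀ π, Irreducible π → π ∣ u → π ∣ Q) ∧
      (∀ π, Irreducible π → π ∣ v → π ∣ Q) ∧
      Ideal.span {io (cur a b P₀) Q w u} * I = Ideal.span {io (cur a b P₀) Q w v} * J := by
  have hinj := io_inj h
  have hiQ : io (cur a b P₀) Q w Q ≠ 0 := fun h0 => h.hQ0 (hinj (by rw [h0, map_zero]))
  refine PkgA6.gen (io (cur a b P₀) Q w) hinj h.hQ0 (fun x hx => ?_)
    (fun π g N hπ hg hm => prime_alt h hπ hg hm) hx hy hI hJ hxy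
  obtain ⟨κ, n, f, hκ, hf⟩ := lift h x
  have hu : IsUnit (AdjoinRoot.of (mem (cur a b P₀) Q w) (C κ)) :=
    ((isUnit_C.2 (IsUnit.mk0 κ hκ))).map (AdjoinRoot.of (mem (cur a b P₀) Q w))
  refine ⟨n, f, ?_, ?_⟩
  · rintro rfl
    rw [map_zero] at hf
    exact mul_ne_zero (mul_ne_zero hu.ne_zero (pow_ne_zero _ hiQ)) hx hf
  · rw [← hf, mul_assoc, Ideal.span_singleton_mul_left_unit hu,
      Ideal.span_singleton_mul_span_singleton]

end Pool.Agent.T2H65.CP
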