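import Pool.Agent.T2H65.CP.W

/-!
# Project CP, package A1: the curves `y^a - x^b + g` are irreducible

Let `f = y^a - x^b + g` with `g` low and `gcd(a, b) = 1`; it is monic in `y` of degree `a` (`cab_monic` in Defs.lean).
Let `f = G H` with `G, H` monic in `y` (`Monic.irreducible_iff_natDegree'` or `Monic.irreducible_iff_natDegree`: it
is enough to exclude monic factors with `0 < deg_y G < a`). Let `g₁ = deg_y G`, `h₁ = deg_y H`, `g₁ + h₁ = a`.
As `G` contains `y^{g₁}` with the coefficient 1, `wd G ≥ b g₁` (`le_wd`); also `wd H ≥ b h₁`, and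
`wd G + wd H = wd f = a b = b g₁ + b h₁` (`wd_mul`, `wd_cab`); thus `wd G = b g₁` and `wd H = b h₁`.
Let `G₀ = G.coeff 0`, `H₀ = H.coeff 0` in `E[x]`: `G₀ H₀ = f.coeff 0 = - x^b + (terms of degree < b)`
(`g.coeff 0` has only monomials with `a i < a b`), so that `deg G₀ + deg H₀ = b`; and `a deg G₀ ≤ wd G = b g₁`,
`a deg H₀ ≤ b h₁`. The sum of these inequalities is an equality, hence `a deg G₀ = b g₁`, `a ∣ b g₁`, `a ∣ g₁` by
coprimality, and `0 < g₁ < a` is impossible.
-/

set_option autoImplicit false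

open Polynomial

namespace Pool.Agent.T2H65.CP

/-- the constant term (in `y`) of the equation of the curve is of degree `b` -/
theorem cab_coeff_zero {E : Type} [Field E] {a b : ℕ} (ha : 1 ≤ a)
    {g : E[X][X]} (hg : Low a b g) : (lead E a b + g).coeff 0 ≠ 0 ∧
      ((lead E a b + g).coeff 0).natDegree = b := by
  have h1 : (lead E a b + g).coeff 0 = - X ^ b + g.coeff 0 := by
    unfold lead
    rw [coeff_add, coeff_sub, coeff_X_pow, if_neg (by omega), coeff_C_zero, zero_sub]
  have h2 : (g.coeff 0).degree < (- X ^ b : E[X]).degree := by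
    rw [degree_neg, degree_X_pow, degree_lt_iff_coeff_zero]
    intro i hi
    by_contra hc
    have h3 := hg i 0 hc
    rw [mul_zero, add_zero] at h3
    exact absurd (Nat.lt_of_mul_lt_mul_left h3) (by omega)
  have h4 : (- X ^ b : E[X]).natDegree = b := by rw [natDegree_neg, natDegree_X_pow]
  rw [h1]
  refine ⟨?_, ?_⟩
  · intro h
    have h5 : (- X ^ b : E[X]) = - g.coeff 0 := eq_neg_of_add_eq_zero_left h
    rw [h5, degree_neg] at h2
    exact lt_irrefl _ h2
  · rw [natDegree_add_eq_left_of_degree_lt h2, h4]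

theorem cab_irr {E : Type} [Field E] {a b : ℕ} (ha : 1 ≤ a) (hb : 1 ≤ b) (hab : a.Coprime b)
    {g : E[X][X]} (hg : Low a b g) : Irreducible (lead E a b + g) := by
  obtain ⟨hm, hd⟩ := cab_monic (R := E) (b := b) ha hg
  have h1 : lead E a b + g ≠ 1 := by
    intro h
    rw [h, natDegree_one] at hd
    omega
  rw [hm.irreducible_iff_natDegree]
  refine ⟨h1, ?_⟩
  intro G H hG hH hGH
  by_contra hc
  push Not at hc
  obtain ⟨hG1, hH1⟩ := hc
  have hdeg : G.natDegree + H.natDegree = a := by
    rw [← hd, ← hGH, hG.natDegree_mul hH]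
  have e1 : a * 0 + b * G.natDegree ≤ wd a b G := by
    apply le_wd ha
    rw [coeff_natDegree, hG.leadingCoeff, coeff_one_zero]
    exact one_ne_zero
  have e2 : a * 0 + b * H.natDegree ≤ wd a b H := by
    apply le_wd ha
    rw [coeff_natDegree, hH.leadingCoeff, coeff_one_zero]
    exact one_ne_zero
  have e3 : wd a b G + wd a b H = a * b := by
    rw [← wd_mul ha hG.ne_zero hH.ne_zero, hGH, wd_cab ha hb hg]
  obtain ⟨hz, hzd⟩ := cab_coeff_zero (b := b) ha hg
  rw [← hGH, mul_coeff_zero] at hz hzd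
  have hG0 : G.coeff 0 ≠ 0 := left_ne_zero_of_mul hz
  have hH0 : H.coeff 0 ≠ 0 := right_ne_zero_of_mul hz
  rw [natDegree_mul hG0 hH0] at hzd
  have e4 : a * (G.coeff 0).natDegree + b * 0 ≤ wd a b G := by
    apply le_wd ha
    exact leadingCoeff_ne_zero.2 hG0
  have e5 : a * (H.coeff 0).natDegree + b * 0 ≤ wd a b H := by
    apply le_wd ha
    exact leadingCoeff_ne_zero.2 hH0
  have e6 : a * (G.coeff 0).natDegree + a * (H.coeff 0).natDegree = a * b := by
    rw [← mul_add, hzd]
  have e7 : b * G.natDegree + b * H.natDegree = a * b := by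
    rw [← mul_add, hdeg, mul_comm]
  have e8 : a * (G.coeff 0).natDegree = b * G.natDegree := by omega
  have e9 : a ∣ G.natDegree := hab.dvd_of_dvd_mul_left (Dvd.intro _ e8)
  have := Nat.le_of_dvd (Nat.pos_of_ne_zero hG1) e9
  omega

end Pool.Agent.T2H65.CP
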