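import Pool.Agent.T2H65.CP.FB
import Pool.Agent.T2H65.CP.A1

/-!
# Project CP, package A2: the members of the pencil at the closed points are irreducible

Let `g ∈ L[w]` be irreducible (`L` of characteristic 0), `f := fib P Q g`, `P = y^a - x^b + P₀`. Let `Om` be the
algebraic closure of `L`. Over `Om`, `g = c ∏_k (w - θ_k)` with different `θ_k`, and `f = ± c ∏_k (P + θ_k Q)`;
each `P + θ Q` is irreducible over `Om` (`cab_irr`). If `f = u v` with `u`, `v` of positive `y`-degree, some
`P + θ_k Q` divides `u`, hence all of them (Galois), and so does their product: a contradiction to degrees.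
-/

set_option autoImplicit false

open Polynomial

namespace Pool.Agent.T2H65.CP

namespace PkgA2

theorem fib_map {L Om : Type} [Field L] [Field Om] [Algebra L Om] (P Q : L[X][X]) (g : L[X]) :
    mm L Om (fib P Q g) = fib (mm L Om P) (mm L Om Q) (g.map (algebraMap L Om)) := by
  unfold fib
  rw [map_sum, natDegree_map]
  refine Finset.sum_congr rfl fun i _ => ?_
  rw [map_mul, map_mul, map_pow, map_pow, map_neg, coeff_map]
  congr 2
  unfold mm
  rw [coe_mapRingHom, map_C, coe_mapRingHom, map_C]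

theorem fib_lin {Om : Type} [Field Om] (P Q : Om[X][X]) (θ : Om) :
    fib P Q (X - C θ) = -(P + C (C θ) * Q) := by
  unfold fib
  rw [natDegree_X_sub_C, Finset.sum_range_succ, Finset.sum_range_one]
  simp [coeff_X, coeff_C]
  ring

theorem fib_prod {Om : Type} [Field Om] (P : Om[X][X]) {Q : Om[X][X]} (hQ : Q ≠ 0) {c : Om} (hc : c ≠ 0)
    (S : Finset Om) : fib P Q (C c * ∏ θ ∈ S, (X - C θ)) =
      C (C c) * ∏ θ ∈ S, (-(P + C (C θ) * Q)) := by
  classical
  induction S using Finset.induction_on with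
  | empty =>
    rw [Finset.prod_empty, Finset.prod_empty, mul_one, mul_one]
    exact fib_C P Q c
  | insert θ S hθ ih =>
    have h1 : C c * ∏ θ ∈ S, (X - C θ) ≠ 0 := by
      refine mul_ne_zero (C_ne_zero.2 hc) (Finset.prod_ne_zero_iff.2 fun θ _ => X_sub_C_ne_zero θ)
    rw [Finset.prod_insert hθ, Finset.prod_insert hθ]
    have e : C c * ((X - C θ) * ∏ θ ∈ S, (X - C θ)) = (X - C θ) * (C c * ∏ θ ∈ S, (X - C θ)) := by
      ring
    rw [e, fib_mul hQ (X_sub_C_ne_zero θ) h1, ih, fib_lin]
    ring

end PkgA2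

open PkgA2

theorem fib_irr {L : Type} [Field L] [CharZero L] {a b : ℕ} (ha : 1 ≤ a) (hb : 1 ≤ b) (hab : a.Coprime b)
    {P₀ Q : L[X][X]} (hP : Low a b P₀) (hQ : Low a b Q) (hQ0 : Q ≠ 0) {g : L[X]} (hg : Irreducible g) :
    Irreducible (fib (cur a b P₀) Q g) := by
  classical
  let Om := AlgebraicClosure L
  have hinj : Function.Injective (mm L Om) :=
    map_injective _ (map_injective _ (algebraMap L Om).injective)
  have hQ' : mm L Om Q ≠ 0 := fun h => hQ0 (hinj (by rw [h, map_zero]))
  obtain ⟨hdeg, hlc⟩ := fib_deg ha hP hQ hg.ne_zero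
  have hg1 : 0 < g.natDegree := hg.natDegree_pos
  have hlcu : IsUnit (fib (cur a b P₀) Q g).leadingCoeff := by
    rw [hlc, isUnit_C]
    exact (mul_ne_zero (pow_ne_zero _ (by norm_num)) (leadingCoeff_ne_zero.2 hg.ne_zero)).isUnit
  -- the factors over `Om`
  set p : Om → Om[X][X] := fun θ => mm L Om (cur a b P₀) + C (C θ) * mm L Om Q with hp
  have hp1 : ∀ θ, p θ = lead Om a b + (mm L Om P₀ + C (C θ) * mm L Om Q) := by
    intro θ
    simp only [hp]
    unfold cur mm
    rw [map_add, coe_mapRingHom, lead_map, add_assoc]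
  have hlow : ∀ θ : Om, Low a b (mm L Om P₀ + C (C θ) * mm L Om Q) := fun θ =>
    (hP.map _).add ((hQ.map _).CC _)
  have hpirr : ∀ θ, Irreducible (p θ) := fun θ => by
    rw [hp1]
    exact cab_irr ha hb hab (hlow θ)
  have hpmon : ∀ θ, (p θ).Monic ∧ (p θ).natDegree = a := fun θ => by
    rw [hp1]
    exact cab_monic ha (hlow θ)
  have hprel : ∀ θ θ', θ ≠ θ' → IsRelPrime (p θ) (p θ') := by
    intro θ θ' hne
    rw [(hpirr θ).isRelPrime_iff_not_dvd]
    intro hdvd
    have h1 := eq_of_monic_of_dvd_of_natDegree_le (hpmon θ).1 (hpmon θ').1 hdvd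
      (by rw [(hpmon θ).2, (hpmon θ').2])
    have h2 : C (C (θ - θ')) * mm L Om Q = 0 := by
      have h3 : p θ - p θ' = 0 := by rw [h1, sub_self]
      simp only [hp] at h3
      rw [C_sub, C_sub, sub_mul]
      linear_combination h3
    rcases mul_eq_zero.1 h2 with h3 | h3
    · rw [C_eq_zero, C_eq_zero, sub_eq_zero] at h3
      exact hne h3
    · exact hQ' h3
  -- the roots
  set g' : Om[X] := g.map (algebraMap L Om) with hg'
  have hsep : g'.Separable := hg.separable.map
  have hg'0 : g' ≠ 0 := (Polynomial.map_ne_zero_iff (algebraMap L Om).injective).2 hg.ne_zero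
  set S : Finset Om := g'.roots.toFinset with hS
  have hnod := nodup_roots hsep
  have hfac : g' = C g'.leadingCoeff * ∏ θ ∈ S, (X - C θ) := by
    have h1 := (IsAlgClosed.splits g').eq_prod_roots
    have h2 : ∏ θ ∈ S, (X - C θ) = (g'.roots.map fun x => X - C x).prod := by
      rw [Finset.prod, hS, Multiset.toFinset_val, hnod.dedup]
    rw [h2]
    exact h1
  have hcard : S.card = g.natDegree := by
    rw [hS, Multiset.toFinset_card_of_nodup hnod, IsAlgClosed.card_roots_eq_natDegree, hg',
      natDegree_map]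
  have hFf : mm L Om (fib (cur a b P₀) Q g) =
      C (C g'.leadingCoeff) * ∏ θ ∈ S, (-(p θ)) := by
    rw [fib_map, ← hg']
    conv_lhs => rw [hfac]
    exact fib_prod _ hQ' (leadingCoeff_ne_zero.2 hg'0) S
  -- Galois
  have hgal : ∀ θ ∈ S, ∀ θ' ∈ S, ∀ u : L[X][X], p θ ∣ mm L Om u → p θ' ∣ mm L Om u := by
    intro θ hθ θ' hθ' u hu
    have hroot : ∀ θ ∈ S, aeval θ g = 0 := by
      intro θ hθ
      rw [hS, Multiset.mem_toFinset, mem_roots hg'0, hg', IsRoot.def, eval_map_algebraMap] at hθ
      exact hθ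
    have hmin := minpoly.eq_of_irreducible hg (hroot θ hθ)
    obtain ⟨σ, hσ⟩ := minpoly.exists_algEquiv_of_root' (K := L) (L := Om)
      (Algebra.IsAlgebraic.isAlgebraic θ) (x := θ') (by
        rw [← hmin, map_mul, hroot θ' hθ', zero_mul])
    set Sg : Om[X][X] →+* Om[X][X] := mapRingHom (mapRingHom (σ : Om →+* Om)) with hSg
    have hfix : ∀ v : L[X][X], Sg (mm L Om v) = mm L Om v := by
      intro v
      have h1 : Sg.comp (mm L Om) = mm L Om := by
        rw [hSg]
        unfold mm
        rw [mapRingHom_comp, mapRingHom_comp]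
        congr 2
        ext x
        exact σ.commutes x
      exact congrFun (congrArg DFunLike.coe h1) v
    have h2 := map_dvd Sg hu
    rw [hfix] at h2
    have h3 : Sg (p θ) = p θ' := by
      simp only [hp]
      rw [map_add, map_mul, hfix, hfix]
      congr 2
      rw [hSg, coe_mapRingHom, map_C, coe_mapRingHom, map_C]
      congr 2
    rwa [h3] at h2
  -- irreducibility
  refine ⟨fun hu => ?_, fun u v huv => ?_⟩
  · have := natDegree_eq_zero_of_isUnit hu
    rw [hdeg] at this
    rcases Nat.mul_eq_zero.1 this with h | h <;> omega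
  · by_contra hcon
    push Not at hcon
    obtain ⟨hu, hv⟩ := hcon
    have hlcuv : IsUnit (u.leadingCoeff * v.leadingCoeff) := by
      rw [← leadingCoeff_mul, ← huv]
      exact hlcu
    have hpos : ∀ u : L[X][X], ¬ IsUnit u → IsUnit u.leadingCoeff → 0 < u.natDegree := by
      intro u hu hl
      by_contra h
      apply hu
      have h1 : u.natDegree = 0 := by omega
      rw [eq_C_of_natDegree_eq_zero h1]
      rw [leadingCoeff, h1] at hl
      exact hl.map C
    have hu1 := hpos u hu (isUnit_of_mul_isUnit_left hlcuv)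
    have hv1 := hpos v hv (isUnit_of_mul_isUnit_right hlcuv)
    have hu0 : u ≠ 0 := by
      rintro rfl
      simp at hu1
    have hv0 : v ≠ 0 := by
      rintro rfl
      simp at hv1
    have hmul : a * g.natDegree = u.natDegree + v.natDegree := by
      rw [← hdeg, huv, natDegree_mul hu0 hv0]
    have hnd : (mm L Om u).natDegree = u.natDegree :=
      natDegree_map_eq_of_injective (map_injective _ (algebraMap L Om).injective) u
    have hmu0 : mm L Om u ≠ 0 := fun h => hu0 (hinj (by rw [h, map_zero]))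
    have hnu : ¬ IsUnit (mm L Om u) := by
      intro h
      have := natDegree_eq_zero_of_isUnit h
      omega
    obtain ⟨q, hq, hqu⟩ := WfDvdMonoid.exists_irreducible_factor hnu hmu0
    have hq2 : q ∣ C (C g'.leadingCoeff) * ∏ θ ∈ S, (-(p θ)) := by
      rw [← hFf, huv, map_mul]
      exact Dvd.dvd.mul_right hqu _
    have hqp := hq.prime
    rcases hqp.dvd_or_dvd hq2 with h | h
    · apply hq.not_isUnit
      refine isUnit_of_dvd_unit h ?_
      rw [isUnit_C, isUnit_C]
      exact (leadingCoeff_ne_zero.2 hg'0).isUnit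
    · obtain ⟨θ, hθ, h1⟩ := (hqp.dvd_finsetProd_iff _).1 h
      have h1 : q ∣ p θ := (dvd_neg (a := q) (b := p θ)).1 h1
      have h2 : p θ ∣ q := ((hq.dvd_irreducible_iff_associated (hpirr θ)).1 h1).symm.dvd
      have h3 : ∀ θ' ∈ S, p θ' ∣ mm L Om u := fun θ' hθ' => hgal θ hθ θ' hθ' u (h2.trans hqu)
      have h4 : ∏ θ' ∈ S, p θ' ∣ mm L Om u :=
        Finset.prod_dvd_of_isRelPrime (fun θ _ θ' _ hne => hprel θ θ' hne) h3
      have h5 := natDegree_le_of_dvd h4 hmu0
      rw [natDegree_prod_of_monic _ _ fun θ _ => (hpmon θ).1] at h5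
      simp only [(hpmon _).2, Finset.sum_const, smul_eq_mul] at h5
      rw [hcard, hnd] at h5
      have : g.natDegree * a = a * g.natDegree := mul_comm _ _
      omega

end Pool.Agent.T2H65.CP
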