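import Pool.Agent.T2H65.CP.W

/-!
# Project CP, package A3: the units of the coordinate ring are constants

`R = E[x, y]/(f)`, `f = y^a - x^b + g`, `g` low, `gcd (a, b) = 1`. Every element of `R` is the class of a unique
polynomial `u` with `deg_y u < a` (`modByMonic`, `f` is monic in `y` by `cab_monic`).
(1) If `u ≠ 0` and `deg_y u < a`, then the leading coefficient (in `T`) of `sg u` is a monomial `c Z^j`, `c ≠ 0`: the
    coefficient of `T^n` is `∑_{a i + b j = n} u_{ij} Z^j`, and `b j ≡ n (mod a)` has at most one solution `j < a`.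
(2) Let `u, v ≠ 0` be of `y`-degree `< a` and let `u v = f q + r` with `deg_y r < a`. Then `r ≠ 0` and
    `wd r = wd u + wd v`: the leading coefficient of `sg (f q)` is `(Z^a - 1) lc (sg q)` (`sg_cab`), which vanishes at
    `Z = 1`, while the leading coefficients of `sg (u v)` and of `sg r` (if `r ≠ 0`) are monomials, which do not
    vanish at `Z = 1`. If `r = 0` we get a contradiction by comparing `sg (u v) = sg (f q)`; if
    `wd r > wd (u v)`, then `wd (f q) = wd r` and the leading coefficients of `sg r` and of `- sg (f q)` are equal, a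
    contradiction; if `wd r < wd (u v)`, the same with `sg (u v)` and `sg (f q)`.
(3) If `u v = 1` in `R`, then `r = 1`, `wd u = wd v = 0`, and `u` has only the monomial `x^0 y^0` (`le_wd`).
-/

set_option autoImplicit false

open Polynomial

namespace Pool.Agent.T2H65.CP

/-- the leading form of a polynomial of `y`-degree `< a` is a monomial -/
theorem lc_ne {E : Type} [Field E] {a b : ℕ} (ha : 1 ≤ a) (hab : a.Coprime b) {u : E[X][X]} (hu : u ≠ 0)
    (hd : u.degree < a) : (sg E a b u).leadingCoeff.eval 1 ≠ 0 := by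
  have h0 : (sg E a b u) ≠ 0 := by
    intro h
    exact hu (sg_inj ha (h.trans (map_zero _).symm))
  set n := (sg E a b u).natDegree with hn
  have hl : (sg E a b u).leadingCoeff ≠ 0 := leadingCoeff_ne_zero.2 h0
  -- at most one coefficient is nonzero
  have huniq : ∀ j j' : ℕ, (sg E a b u).leadingCoeff.coeff j ≠ 0 →
      (sg E a b u).leadingCoeff.coeff j' ≠ 0 → j = j' := by
    have key : ∀ j : ℕ, (sg E a b u).leadingCoeff.coeff j ≠ 0 → b * j ≤ n ∧ a ∣ n - b * j ∧ j < a := by
      intro j hj
      rw [leadingCoeff, sg_coeff ha] at hj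
      rw [← hn] at hj
      split_ifs at hj with h
      · refine ⟨h.1, h.2, ?_⟩
        by_contra hja
        refine hj ?_
        rw [coeff_eq_zero_of_degree_lt (lt_of_lt_of_le hd (by exact_mod_cast not_lt.1 hja)), coeff_zero]
      · exact absurd rfl hj
    intro j j' hj hj'
    obtain ⟨h1, h2, h3⟩ := key j hj
    obtain ⟨h1', h2', h3'⟩ := key j' hj'
    have hd1 : (a : ℤ) ∣ (n : ℤ) - b * j := by
      have := Int.natCast_dvd_natCast.2 h2
      rwa [Nat.cast_sub h1, Nat.cast_mul] at this
    have hd2 : (a : ℤ) ∣ (n : ℤ) - b * j' := by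
      have := Int.natCast_dvd_natCast.2 h2'
      rwa [Nat.cast_sub h1', Nat.cast_mul] at this
    have hd3 : (a : ℤ) ∣ (b : ℤ) * ((j' : ℤ) - j) := by
      have := dvd_sub hd1 hd2
      have e : (n : ℤ) - b * j - (n - b * j') = (b : ℤ) * ((j' : ℤ) - j) := by ring
      rwa [e] at this
    have hd4 : (a : ℤ) ∣ ((j' : ℤ) - j) :=
      (Nat.isCoprime_iff_coprime.2 hab).dvd_of_dvd_mul_left hd3
    obtain ⟨m, hm⟩ := hd4
    have ha' : (0 : ℤ) < a := by exact_mod_cast ha
    have hm0 : m = 0 := by
      have l1 : (a : ℤ) * m < a := by rw [← hm]; omega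
      have l2 : -(a : ℤ) < a * m := by rw [← hm]; omega
      have l3 : m < 1 := by nlinarith
      have l4 : -1 < m := by nlinarith
      omega
    rw [hm0, mul_zero] at hm
    omega
  obtain ⟨j, hj⟩ : ∃ j, (sg E a b u).leadingCoeff.coeff j ≠ 0 := by
    by_contra h
    push Not at h
    exact hl (Polynomial.ext h)
  have hmon : (sg E a b u).leadingCoeff = C ((sg E a b u).leadingCoeff.coeff j) * X ^ j := by
    refine Polynomial.ext fun i => ?_
    rw [coeff_C_mul, coeff_X_pow]
    split_ifs with h
    · rw [h, mul_one]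
    · rw [mul_zero]
      by_contra h'
      exact h (huniq i j h' hj)
  rw [hmon, eval_mul, eval_C, eval_pow, eval_X, one_pow, mul_one]
  exact hj

theorem units_aux {E : Type} [Field E] {a b : ℕ} (ha : 1 ≤ a) (hb : 1 ≤ b) (hab : a.Coprime b)
    {f : E[X][X]} (hm : f.Monic) (hdeg : f.natDegree = a) (hwd : wd a b f = a * b)
    (hsg : (sg E a b f).coeff (a * b) = X ^ a - 1) {u v : AdjoinRoot f} (huv : u * v = 1) :
    ∃ c : E, c ≠ 0 ∧ u = AdjoinRoot.of f (C c) := by
  have hfd : f.degree = a := by rw [degree_eq_natDegree hm.ne_zero, hdeg]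
  -- representatives
  have rep : ∀ w : AdjoinRoot f, ∃ p : E[X][X], p.degree < a ∧ AdjoinRoot.mk f p = w := by
    intro w
    obtain ⟨p, rfl⟩ := AdjoinRoot.mk_surjective w
    refine ⟨p %ₘ f, ?_, ?_⟩
    · rw [← hfd]; exact degree_modByMonic_lt p hm
    · rw [AdjoinRoot.mk_eq_mk]
      refine ⟨-(p /ₘ f), ?_⟩
      have := modByMonic_add_div p f
      linear_combination this
  obtain ⟨p, hp, hpu⟩ := rep u
  obtain ⟨q, hq, hqv⟩ := rep v
  obtain ⟨t, ht⟩ : f ∣ p * q - 1 := by
    rw [← AdjoinRoot.mk_eq_mk, map_mul, map_one, hpu, hqv]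
    exact huv
  have hB : sg E a b p * sg E a b q - 1 = sg E a b f * sg E a b t := by
    rw [← map_mul, ← map_mul, ← ht, map_sub, map_one]
  have hlf : (sg E a b f).leadingCoeff.eval 1 = 0 := by
    have : (sg E a b f).leadingCoeff = X ^ a - 1 := by
      rw [leadingCoeff]
      change (sg E a b f).coeff (wd a b f) = _
      rw [hwd, hsg]
    rw [this]; simp
  have hlB : (sg E a b f * sg E a b t).leadingCoeff.eval 1 = 0 := by
    rw [leadingCoeff_mul, eval_mul, hlf, zero_mul]
  have hp0 : p ≠ 0 := by
    rintro rfl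
    rw [map_zero, zero_mul, zero_sub] at hB
    rw [← hB] at hlB
    simp at hlB
  have hq0 : q ≠ 0 := by
    rintro rfl
    rw [map_zero, mul_zero, zero_sub] at hB
    rw [← hB] at hlB
    simp at hlB
  have hlA : (sg E a b p * sg E a b q).leadingCoeff.eval 1 ≠ 0 := by
    rw [leadingCoeff_mul, eval_mul]
    exact mul_ne_zero (lc_ne ha hab hp0 hp) (lc_ne ha hab hq0 hq)
  have hA0 : (sg E a b p * sg E a b q).natDegree = 0 := by
    by_contra h
    have hlt : (1 : E[X][X]).degree < (sg E a b p * sg E a b q).degree := by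
      rw [degree_one]
      exact natDegree_pos_iff_degree_pos.1 (Nat.pos_of_ne_zero h)
    rw [← hB, leadingCoeff_sub_of_degree_lt hlt] at hlB
    exact hlA hlB
  have hw : wd a b p = 0 := by
    have h1 : sg E a b p ≠ 0 := fun h => hp0 (sg_inj ha (h.trans (map_zero _).symm))
    have h2 : sg E a b q ≠ 0 := fun h => hq0 (sg_inj ha (h.trans (map_zero _).symm))
    rw [natDegree_mul h1 h2] at hA0
    unfold wd
    omega
  have hz : ∀ i j, (p.coeff j).coeff i ≠ 0 → i = 0 ∧ j = 0 := by
    intro i j hij
    have := le_wd (E := E) (a := a) (b := b) ha hij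
    rw [hw] at this
    have h1 : a * i = 0 := by omega
    have h2 : b * j = 0 := by omega
    constructor
    · rcases Nat.mul_eq_zero.1 h1 with h | h
      · omega
      · exact h
    · rcases Nat.mul_eq_zero.1 h2 with h | h
      · omega
      · exact h
  have hpc : p = C (C ((p.coeff 0).coeff 0)) := by
    refine Polynomial.ext fun j => Polynomial.ext fun i => ?_
    rw [coeff_C]
    split_ifs with h
    · rw [h, coeff_C]
      split_ifs with h'
      · rw [h']
      · by_contra hne
        exact h' (hz i 0 hne).1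
    · rw [coeff_zero]
      by_contra hne
      exact h (hz i j hne).2
  refine ⟨(p.coeff 0).coeff 0, ?_, ?_⟩
  · intro h
    rw [h] at hpc
    exact hp0 (by rw [hpc]; simp)
  · rw [← hpu]
    conv_lhs => rw [hpc]
    exact AdjoinRoot.mk_C _

theorem units_const {E : Type} [Field E] {a b : ℕ} (ha : 1 ≤ a) (hb : 1 ≤ b) (hab : a.Coprime b)
    {g : E[X][X]} (hg : Low a b g) {u v : AdjoinRoot (lead E a b + g)} (huv : u * v = 1) :
    ∃ c : E, c ≠ 0 ∧ u = AdjoinRoot.of (lead E a b + g) (C c) := by
  obtain ⟨hm, hdeg⟩ := cab_monic (R := E) (a := a) (b := b) ha hg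
  exact units_aux ha hb hab hm hdeg (wd_cab ha hb hg) (sg_cab ha hb hg) huv

end Pool.Agent.T2H65.CP
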