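import Pool.Agent.T2H65.CP.A4
import Pool.Agent.T2H65.CP.A2
import Pool.Agent.T2H65.CP.A3

/-!
# Project CP, package IND: the components of `Q = 0` are independent

Write `R = CR ..`, `i = io ..`. `u, v ∈ L[x, y]` are relatively prime, all their irreducible factors divide `Q`, and
`(i u) = (i v)` in `R`. Then `i u = i v ε` with a unit `ε` of `R` (if `u` or `v` is a unit already both are, easy; in general
from `(i u) = (i v)` in a domain, `Ideal.span_singleton_eq_span_singleton`). By `units_const` for the field `K` and the curve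
`mem .. = lead K a b + (low)` (`mem_eq`, `Sit.low` in Defs.lean), `ε = c ∈ K^*`, `c = p(w)/q(w)`, `p, q ∈ L[X]` nonzero and coprime.
Then `q(w) i u = p(w) i v`; multiply with `Q^m`, `m ≥ deg p, deg q`, and use `io_fib`, `io_inj`:
  (*) `u * fib q * Q^(m - deg q) = v * fib p * Q^(m - deg p)` in `L[x, y]`.
Let `h ∈ L[X]` be irreducible, `h ∣ q`. Then `fib h ∣ fib q` (`fib_mul`), `fib h` is irreducible (`fib_irr`) of `y`-degree
`a deg h ≥ a` (`fib_deg`) and does not divide `Q` (`deg_y Q < a`, `Low.deg`), so not `v` (all irreducible factors of `v`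
divide `Q`). So `fib h ∣ fib p`, `fib h` is associated to `fib h'` for an irreducible `h' ∣ p`; `h`, `h'` are coprime:
`A h + B h' = 1`, and in `R`-free terms: `Q^M = A' fib h + B' fib h'` for suitable `A', B'` (homogenize; or: modulo
`fib h`, i.e. by `io_fib` over ... the values: `θ : L[x,y] → Frac(L[x, y]/(fib h))`, `θ Q ≠ 0`, `h(-θP/θQ) = 0 = h'(-θP/θQ)` by
`fib_val`, a contradiction to `A h + B h' = 1`). So `q` is constant, in the same way `p`; thus `c ∈ L^*` and `u = c v`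
(from (*) with `m = 0`), so `u`, `v` relatively prime are units.
-/

set_option autoImplicit false

open Polynomial

namespace Pool.Agent.T2H65.CP

namespace PkgIND

theorem coprime_parts {L : Type} [Field L] (p q : L[X]) (hq : q ≠ 0) :
    ∃ p' q' g : L[X], IsCoprime p' q' ∧ p = g * p' ∧ q = g * q' := by
  classical
  obtain ⟨p', hp'⟩ := EuclideanDomain.gcd_dvd_left p q
  obtain ⟨q', hq'⟩ := EuclideanDomain.gcd_dvd_right p q
  have hg : EuclideanDomain.gcd p q ≠ 0 := fun h => hq (EuclideanDomain.gcd_eq_zero_iff.1 h).2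
  refine ⟨p', q', EuclideanDomain.gcd p q, ⟨EuclideanDomain.gcdA p q, EuclideanDomain.gcdB p q, ?_⟩,
    hp', hq'⟩
  have h1 := EuclideanDomain.gcd_eq_gcd_ab p q
  apply mul_left_cancel₀ hg
  calc EuclideanDomain.gcd p q * (EuclideanDomain.gcdA p q * p' + EuclideanDomain.gcdB p q * q')
      = (EuclideanDomain.gcd p q * p') * EuclideanDomain.gcdA p q +
        (EuclideanDomain.gcd p q * q') * EuclideanDomain.gcdB p q := by ring
    _ = p * EuclideanDomain.gcdA p q + q * EuclideanDomain.gcdB p q := by rw [← hp', ← hq']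
    _ = EuclideanDomain.gcd p q * 1 := by rw [← h1, mul_one]

theorem exists_theta {R : Type} [CommRing R] [IsDomain R] {f : R} (hf : Prime f) :
    ∃ (Ω : Type) (_ : Field Ω) (θ : R →+* Ω), ∀ x, θ x = 0 ↔ f ∣ x := by
  have : (Ideal.span {f} : Ideal R).IsPrime := (Ideal.span_singleton_prime hf.ne_zero).2 hf
  refine ⟨FractionRing (R ⧸ Ideal.span {f}), inferInstance,
    (algebraMap (R ⧸ Ideal.span {f}) (FractionRing (R ⧸ Ideal.span {f}))).comp
      (Ideal.Quotient.mk (Ideal.span {f})), fun x => ?_⟩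
  rw [RingHom.comp_apply, map_eq_zero_iff _ (IsFractionRing.injective _ _),
    Ideal.Quotient.eq_zero_iff_mem, Ideal.mem_span_singleton]

section
variable {L : Type} [Field L] [CharZero L] {a b : ℕ} {P₀ Q : L[X][X]}

omit [CharZero L] in
/-- `fib h` does not divide `Q` -/
theorem not_dvd_Q (ha : 1 ≤ a) (hP : Low a b P₀) (hQ : Low a b Q) (hQ0 : Q ≠ 0) {h : L[X]}
    (hh : Irreducible h) : ¬ fib (cur a b P₀) Q h ∣ Q := by
  intro hd
  have h1 := natDegree_le_of_dvd hd hQ0
  rw [(fib_deg ha hP hQ hh.ne_zero).1] at h1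
  have h2 : Q.natDegree < a := by
    have := hQ.deg
    rw [degree_eq_natDegree hQ0] at this
    exact Nat.cast_lt.1 this
  have h3 : 1 ≤ h.natDegree := hh.natDegree_pos
  have h4 : a * 1 ≤ a * h.natDegree := Nat.mul_le_mul_left _ h3
  omega

/-- coprime polynomials give no common factors -/
theorem not_dvd_fib (ha : 1 ≤ a) (hb : 1 ≤ b) (hab : a.Coprime b) (hP : Low a b P₀) (hQ : Low a b Q)
    (hQ0 : Q ≠ 0) {h p : L[X]} (hh : Irreducible h) (hcop : IsCoprime p h) :
    ¬ fib (cur a b P₀) Q h ∣ fib (cur a b P₀) Q p := by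
  intro hd
  set f := fib (cur a b P₀) Q h with hf
  have hirr : Irreducible f := fib_irr ha hb hab hP hQ hQ0 hh
  have hprime : Prime f := hirr.prime
  obtain ⟨Ω, _, θ, hθ⟩ := exists_theta hprime
  have hθQ : θ Q ≠ 0 := fun h0 => not_dvd_Q ha hP hQ hQ0 hh ((hθ Q).1 h0)
  have h1 : θ (fib (cur a b P₀) Q h) = 0 := (hθ _).2 dvd_rfl
  have h2 : θ (fib (cur a b P₀) Q p) = 0 := (hθ _).2 hd
  rw [fib_val θ hθQ] at h1 h2
  have h3 := (mul_eq_zero.1 h1).resolve_left (pow_ne_zero _ hθQ)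
  have h4 := (mul_eq_zero.1 h2).resolve_left (pow_ne_zero _ hθQ)
  obtain ⟨A, B, hAB⟩ := hcop
  have h5 := congrArg (eval₂ (θ.comp (C.comp C)) (-θ (cur a b P₀) / θ Q)) hAB
  rw [eval₂_add, eval₂_mul, eval₂_mul, h3, h4, mul_zero, mul_zero, add_zero, eval₂_one] at h5
  exact zero_ne_one h5

theorem key (ha : 1 ≤ a) (hb : 1 ≤ b) (hab : a.Coprime b) (hP : Low a b P₀) (hQ : Low a b Q)
    (hQ0 : Q ≠ 0) {u v : L[X][X]} {p q : L[X]} (hq : q ≠ 0) (hcop : IsCoprime p q)
    (huQ : ∀ π, Irreducible π → π ∣ u → π ∣ Q) {m n : ℕ}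
    (heq : u * Q ^ m * fib (cur a b P₀) Q p = v * Q ^ n * fib (cur a b P₀) Q q) : IsUnit q := by
  by_contra hqu
  obtain ⟨h, hh, hd⟩ := WfDvdMonoid.exists_irreducible_factor hqu hq
  obtain ⟨q', hq'⟩ := hd
  have hq'0 : q' ≠ 0 := by
    rintro rfl
    exact hq (by rw [hq', mul_zero])
  have hirr : Irreducible (fib (cur a b P₀) Q h) := fib_irr ha hb hab hP hQ hQ0 hh
  have hprime := hirr.prime
  have h1 : fib (cur a b P₀) Q h ∣ u * Q ^ m * fib (cur a b P₀) Q p := by
    rw [heq, hq', fib_mul hQ0 hh.ne_zero hq'0]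
    exact Dvd.intro (v * Q ^ n * fib (cur a b P₀) Q q') (by ring)
  rcases hprime.dvd_or_dvd h1 with h2 | h2
  · rcases hprime.dvd_or_dvd h2 with h3 | h3
    · exact not_dvd_Q ha hP hQ hQ0 hh (huQ _ hirr h3)
    · exact not_dvd_Q ha hP hQ hQ0 hh (hprime.dvd_of_dvd_pow h3)
  · refine not_dvd_fib ha hb hab hP hQ hQ0 hh ?_ h2
    rw [hq'] at hcop
    exact hcop.of_mul_right_left

end

theorem units' {E : Type} [Field E] {a b : ℕ} (ha : 1 ≤ a) (hb : 1 ≤ b) (hab : a.Coprime b)
    {g f : E[X][X]} (hg : Low a b g) (hf : f = lead E a b + g) {u v : AdjoinRoot f}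
    (huv : u * v = 1) : ∃ c : E, c ≠ 0 ∧ u = AdjoinRoot.of f (C c) := by
  subst hf
  exact units_const ha hb hab hg huv

end PkgIND

open PkgIND

theorem indep {L : Type} [Field L] [CharZero L] {K : Type} [Field K] [Algebra L K] {a b : ℕ}
    {P₀ Q : L[X][X]} {w : K} (h : Sit a b P₀ Q w) [IsDomain (CR (cur a b P₀) Q w)]
    {u v : L[X][X]} (hu : u ≠ 0) (hv : v ≠ 0) (hrel : IsRelPrime u v)
    (huQ : ∀ π, Irreducible π → π ∣ u → π ∣ Q) (hvQ : ∀ π, Irreducible π → π ∣ v → π ∣ Q)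
    (hs : Ideal.span {io (cur a b P₀) Q w u} = Ideal.span {io (cur a b P₀) Q w v}) :
    IsUnit u ∧ IsUnit v := by
  have ha : 1 ≤ a := le_trans (by norm_num) h.ha
  have hb : 1 ≤ b := le_trans (by norm_num) h.hb
  obtain ⟨ε, hε⟩ := Ideal.span_singleton_eq_span_singleton.1 hs
  obtain ⟨c, hc0, hc⟩ := units' (E := K) ha hb h.hab h.low mem_eq (ε.mul_inv)
  have hctop : c ∈ IntermediateField.adjoin L {w} := by
    rw [h.top]; exact IntermediateField.mem_top
  obtain ⟨p₀, q₀, hpq⟩ := (IntermediateField.mem_adjoin_simple_iff L c).1 hctop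
  have hq₀w : aeval w q₀ ≠ 0 := by
    intro h0
    rw [h0, div_zero] at hpq
    exact hc0 hpq
  have hp₀w : aeval w p₀ ≠ 0 := by
    intro h0
    rw [h0, zero_div] at hpq
    exact hc0 hpq
  have hq₀ : q₀ ≠ 0 := by
    rintro rfl
    exact hq₀w (map_zero _)
  obtain ⟨p, q, g, hcop, hp, hq⟩ := coprime_parts p₀ q₀ hq₀
  have hgw : aeval w g ≠ 0 := by
    intro h0
    rw [hq, map_mul, h0, zero_mul] at hq₀w
    exact hq₀w rfl
  have hpw : aeval w p ≠ 0 := by
    intro h0
    rw [hp, map_mul, h0, mul_zero] at hp₀w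
    exact hp₀w rfl
  have hqw : aeval w q ≠ 0 := by
    intro h0
    rw [hq, map_mul, h0, mul_zero] at hq₀w
    exact hq₀w rfl
  have hp0 : p ≠ 0 := by
    rintro rfl
    exact hpw (map_zero _)
  have hq0 : q ≠ 0 := by
    rintro rfl
    exact hqw (map_zero _)
  have hcq : c * aeval w q = aeval w p := by
    rw [hpq, hp, hq, map_mul, map_mul]
    field_simp
  -- the relation in `R`
  set i := io (cur a b P₀) Q w with hi
  have hR : i u * AdjoinRoot.of (mem (cur a b P₀) Q w) (C (aeval w p)) =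
      i v * AdjoinRoot.of (mem (cur a b P₀) Q w) (C (aeval w q)) := by
    rw [← hcq, map_mul, map_mul, ← hc, ← mul_assoc, hε]
  set N := max p.natDegree q.natDegree with hN
  have hNp : p.natDegree ≤ N := le_max_left _ _
  have hNq : q.natDegree ≤ N := le_max_right _ _
  have hstar : u * Q ^ (N - p.natDegree) * fib (cur a b P₀) Q p =
      v * Q ^ (N - q.natDegree) * fib (cur a b P₀) Q q := by
    apply io_inj h
    rw [← hi, map_mul, map_mul, map_mul, map_mul, map_pow, map_pow, hi, io_fib, io_fib, ← hi]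
    have e1 : i Q ^ N = i Q ^ (N - p.natDegree) * i Q ^ p.natDegree := by
      rw [← pow_add, Nat.sub_add_cancel hNp]
    have e2 : i Q ^ N = i Q ^ (N - q.natDegree) * i Q ^ q.natDegree := by
      rw [← pow_add, Nat.sub_add_cancel hNq]
    calc i u * i Q ^ (N - p.natDegree) * (i Q ^ p.natDegree *
          AdjoinRoot.of (mem (cur a b P₀) Q w) (C (aeval w p)))
        = i Q ^ N * (i u * AdjoinRoot.of (mem (cur a b P₀) Q w) (C (aeval w p))) := by
          rw [e1]; ring
      _ = i Q ^ N * (i v * AdjoinRoot.of (mem (cur a b P₀) Q w) (C (aeval w q))) := by rw [hR]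
      _ = i v * i Q ^ (N - q.natDegree) * (i Q ^ q.natDegree *
          AdjoinRoot.of (mem (cur a b P₀) Q w) (C (aeval w q))) := by
          rw [e2]; ring
  have hqu : IsUnit q := key ha hb h.hab h.hP h.hQ h.hQ0 hq0 hcop huQ hstar
  have hpu : IsUnit p := key ha hb h.hab h.hP h.hQ h.hQ0 hp0 hcop.symm hvQ hstar.symm
  have hpd := natDegree_eq_zero_of_isUnit hpu
  have hqd := natDegree_eq_zero_of_isUnit hqu
  have hN0 : N = 0 := by rw [hN, hpd, hqd, max_self]
  obtain ⟨α, hα, hpα⟩ := isUnit_iff.1 hpu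
  obtain ⟨β, hβ, hqβ⟩ := isUnit_iff.1 hqu
  rw [hN0, Nat.zero_sub, Nat.zero_sub, pow_zero, mul_one, mul_one, ← hpα, ← hqβ, fib_C, fib_C] at hstar
  have hαu : IsUnit (C (C α) : L[X][X]) := (hα.map C).map C
  have hβu : IsUnit (C (C β) : L[X][X]) := (hβ.map C).map C
  have huv : u ∣ v := by
    have : u ∣ v * C (C β) := by
      rw [← hstar]
      exact dvd_mul_right _ _
    exact (hβu.dvd_mul_right).1 this
  have hvu : v ∣ u := by
    have : v ∣ u * C (C α) := by
      rw [hstar]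
      exact dvd_mul_right _ _
    exact (hαu.dvd_mul_right).1 this
  exact ⟨hrel dvd_rfl huv, hrel hvu dvd_rfl⟩

end Pool.Agent.T2H65.CP
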