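import Pool.Agent.T2H65.CP.EL

/-!
# Project CP, package MX: the points of `P = Q = 0` are closed, and the minimal primes

`max_of`: `𝔭` contains some `C r`, `0 ≠ r ∈ L[x]` (`elim`), thus `𝔭 ∩ L[x]` is a nonzero prime ideal of `L[x]`, hence
maximal. `L[x][y]/𝔭` is a quotient of `L[x][y]/(P)`, and `P` is monic in `y`, so it is integral over
`L[x]/(𝔭 ∩ L[x])`, a field: it is a field (`Ideal.isMaximal_of_isIntegral_of_isMaximal_comap` or
`isField_of_isIntegral_of_isField'`).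

`pts_min`: every prime containing `P` and `Q` is maximal, hence also minimal over `(P, Q)`.

`crv_min`: a prime containing `Q ≠ 0` contains an irreducible factor `π` of `Q` (`L[x, y]` is factorial), and `(π)` is
prime and contains `Q`; conversely let `π ∣ Q` and `(Q) ≤ 𝔮 ≤ (π)`, `𝔮` prime; some irreducible `π' ∣ Q` is in `𝔮 ≤ (π)`,
so `π ∣ π'`, they are associated and `𝔮 = (π)`.
-/

set_option autoImplicit false

open Polynomial

namespace Pool.Agent.T2H65.CP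

section
variable {L : Type} [Field L] {P Q : L[X][X]}

theorem bot_max {R S : Type} [CommRing R] [CommRing S] [IsDomain S] [Algebra R S]
    [Algebra.IsIntegral R S] (h : (RingHom.ker (algebraMap R S)).IsMaximal) : IsField S := by
  have : (⊥ : Ideal S).IsPrime := Ideal.isPrime_bot
  exact Ring.isField_iff_maximal_bot.2
    (Ideal.isMaximal_of_isIntegral_of_isMaximal_comap (R := R) ⊥ h)

theorem max_of (hP : P.Monic) (hirr : Irreducible P) (hQ : Q ≠ 0) (hd : Q.degree < P.degree)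
    {𝔭 : Ideal L[X][X]} (hp : 𝔭.IsPrime) (h1 : P ∈ 𝔭) (h2 : Q ∈ 𝔭) : 𝔭.IsMaximal := by
  obtain ⟨u, v, r, hr, huv⟩ := elim hP hirr hQ hd
  have hCr : C r ∈ 𝔭 := by
    rw [← huv]
    exact 𝔭.add_mem (𝔭.mul_mem_left _ h1) (𝔭.mul_mem_left _ h2)
  have hcp : (𝔭.comap (C : L[X] →+* L[X][X])).IsPrime := Ideal.comap_isPrime _ _
  have hcb : 𝔭.comap (C : L[X] →+* L[X][X]) ≠ ⊥ := by
    intro h
    have h3 : r ∈ 𝔭.comap (C : L[X] →+* L[X][X]) := hCr
    rw [h, Ideal.mem_bot] at h3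
    exact hr h3
  have hcm : (𝔭.comap (C : L[X] →+* L[X][X])).IsMaximal := hcp.isMaximal hcb
  have hfin : Module.Finite L[X] (L[X][X] ⧸ Ideal.span {P}) := hP.finite_adjoinRoot
  have hle : Ideal.span {P} ≤ 𝔭 := by
    rw [Ideal.span_singleton_le_iff_mem]; exact h1
  have hsurj : Function.Surjective (Ideal.Quotient.factorₐ L[X] hle) :=
    Ideal.Quotient.factor_surjective hle
  have hfin' : Module.Finite L[X] (L[X][X] ⧸ 𝔭) :=
    Module.Finite.of_surjective (Ideal.Quotient.factorₐ L[X] hle).toLinearMap hsurj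
  have hint : Algebra.IsIntegral L[X] (L[X][X] ⧸ 𝔭) := Algebra.IsIntegral.of_finite _ _
  have hcm' : (RingHom.ker (algebraMap L[X] (L[X][X] ⧸ 𝔭))).IsMaximal := by
    have e : RingHom.ker (algebraMap L[X] (L[X][X] ⧸ 𝔭)) = 𝔭.comap (C : L[X] →+* L[X][X]) := by
      ext x
      rw [RingHom.mem_ker, Ideal.mem_comap]
      exact Ideal.Quotient.eq_zero_iff_mem
    rw [e]; exact hcm
  have hF := bot_max (R := L[X]) (S := L[X][X] ⧸ 𝔭) hcm'
  exact Ideal.Quotient.maximal_of_isField _ hF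

theorem pts_min (hP : P.Monic) (hirr : Irreducible P) (hQ : Q ≠ 0) (hd : Q.degree < P.degree) :
    (Ideal.span {P, Q}).minimalPrimes = {𝔪 : Ideal L[X][X] | 𝔪.IsMaximal ∧ P ∈ 𝔪 ∧ Q ∈ 𝔪} := by
  have hle : ∀ I : Ideal L[X][X], Ideal.span {P, Q} ≤ I ↔ P ∈ I ∧ Q ∈ I := by
    intro I
    rw [Ideal.span_le, Set.insert_subset_iff, Set.singleton_subset_iff]
    rfl
  ext 𝔪
  constructor
  · intro h
    have h1 : 𝔪.IsPrime ∧ Ideal.span {P, Q} ≤ 𝔪 := h.1
    have h2 := (hle 𝔪).1 h1.2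
    exact ⟨max_of hP hirr hQ hd h1.1 h2.1 h2.2, h2⟩
  · rintro ⟨hm, h2⟩
    refine ⟨⟨hm.isPrime, (hle 𝔪).2 h2⟩, ?_⟩
    rintro q ⟨hq, hq2⟩ hqm
    have h3 := (hle q).1 hq2
    have h4 := max_of hP hirr hQ hd hq h3.1 h3.2
    exact (h4.eq_of_le hm.ne_top hqm).ge

/-- a prime ideal which contains `Q ≠ 0` contains an irreducible factor of `Q` -/
theorem exists_factor (hQ : Q ≠ 0) {q : Ideal L[X][X]} (hq : q.IsPrime) (h : Q ∈ q) :
    ∃ π : L[X][X], Irreducible π ∧ π ∣ Q ∧ π ∈ q := by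
  classical
  obtain ⟨u, hu⟩ := UniqueFactorizationMonoid.factors_prod hQ
  have h1 : (UniqueFactorizationMonoid.factors Q).prod ∈ q := by
    rw [← hu] at h
    rcases hq.mem_or_mem h with h | h
    · exact h
    · exact absurd (Ideal.eq_top_of_isUnit_mem _ h u.isUnit) hq.ne_top
  obtain ⟨π, hπ, hπq⟩ := (hq.multiset_prod_mem_iff_exists_mem _).1 h1
  exact ⟨π, UniqueFactorizationMonoid.irreducible_of_factor π hπ,
    UniqueFactorizationMonoid.dvd_of_mem_factors hπ, hπq⟩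

theorem crv_min (hQ : Q ≠ 0) : (Ideal.span {Q}).minimalPrimes =
    {𝔠 : Ideal L[X][X] | ∃ π : L[X][X], Irreducible π ∧ π ∣ Q ∧ 𝔠 = Ideal.span {π}} := by
  ext 𝔠
  constructor
  · intro h
    have h1 : 𝔠.IsPrime ∧ Ideal.span {Q} ≤ 𝔠 := h.1
    have h2 : Q ∈ 𝔠 := (Ideal.span_singleton_le_iff_mem _).1 h1.2
    obtain ⟨π, hπ, hd, hm⟩ := exists_factor hQ h1.1 h2
    refine ⟨π, hπ, hd, ?_⟩
    have h3 : Ideal.span {π} ≤ 𝔠 := (Ideal.span_singleton_le_iff_mem _).2 hm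
    have h4 : (Ideal.span {π}).IsPrime := (Ideal.span_singleton_prime hπ.ne_zero).2 hπ.prime
    have h5 : Ideal.span {Q} ≤ Ideal.span {π} := Ideal.span_singleton_le_span_singleton.2 hd
    exact le_antisymm (h.2 ⟨h4, h5⟩ h3) h3
  · rintro ⟨π, hπ, hd, rfl⟩
    have h4 : (Ideal.span {π}).IsPrime := (Ideal.span_singleton_prime hπ.ne_zero).2 hπ.prime
    have h5 : Ideal.span {Q} ≤ Ideal.span {π} := Ideal.span_singleton_le_span_singleton.2 hd
    refine ⟨⟨h4, h5⟩, ?_⟩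
    rintro q ⟨hq, hq2⟩ hqm
    obtain ⟨π', hπ', hd', hm'⟩ := exists_factor hQ hq ((Ideal.span_singleton_le_iff_mem _).1 hq2)
    have h6 : π ∣ π' := Ideal.mem_span_singleton.1 (hqm hm')
    have h7 : Associated π π' := hπ.associated_of_dvd hπ' h6
    have h8 : π ∈ q := by
      obtain ⟨c, hc⟩ := h7.symm.dvd
      rw [hc]
      exact q.mul_mem_right _ hm'
    exact (Ideal.span_singleton_le_iff_mem _).2 h8

end

end Pool.Agent.T2H65.CP
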