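import Pool.Agent.T2H65.CP.A4
import Pool.Agent.T2H65.CP.A1
import Pool.Agent.T2H65.CP.MX

/-!
# Project CP, package PT: the primes of `R` above `Q`

Write `R = CR ..`, `i = io ..`, `P = cur a b P₀`.
`pt_of_mem`: `𝔭` a prime of `R` with `i Q ∈ 𝔭`; `i P = - w i Q ∈ 𝔭` (`io_rel`); so `𝔭.comap i` contains `P` and `Q`; it is prime, and
`P` is monic in `y` (`cab_monic`), irreducible (`cab_irr`), `deg_y Q < a` (`Low.deg`): `max_of` applies.
`pt_prime`: `𝔪 ∈ MaxPts`, `k = L[x, y]/𝔪` a field. Let `Φ : K[x, y] → RatFunc k` be the map with `w ↦ X`, `x ↦ x̄`, `y ↦ ȳ` and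
`L → k` on constants (`K = L(w)`: see A4; Mathlib: `RatFunc.liftRingHom`/`IsFractionRing.lift`, or the existence of the map
`K → RatFunc k`, `w ↦ X`: `Pool.Agent.R410.NG.exists_line` gives an algebra structure of this kind, see R410/NG/Sg.lean;
alternatively `IntermediateField.adjoin` + `algEquivOfTranscendental`). `Φ (mem) = P̄ + X Q̄ = 0`. The kernel of `Φ` is the ideal
generated by `𝔪` : if `Φ h = 0`, clear the denominators, `κ(w) h = ∑ w^j h_j`, `h_j ∈ L[x, y]`, and `0 = ∑ X^j h̄_j` in `k[X]` gives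
`h_j ∈ 𝔪`. Thus `R/(i 𝔪)R = K[x, y]/(𝔪, mem) = K[x, y]/𝔪 K[x, y]` embeds into a field: `Ideal.map i 𝔪` is the kernel of the map
`R → RatFunc k` induced by `Φ` (`AdjoinRoot.lift`), hence prime (`RingHom.ker_isPrime`).
`pt_comap`: `𝔪 ≤ (map i 𝔪).comap i ≠ ⊤`, and `𝔪` is maximal.
-/

set_option autoImplicit false

open Polynomial

namespace Pool.Agent.T2H65.CP

namespace PTaux

variable {L : Type} [Field L] {K : Type} [Field K] [Algebra L K] {w : K}

theorem gen (htop : IntermediateField.adjoin L {w} = ⊤) (z : K) :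
    ∃ p q : L[X], aeval w q ≠ 0 ∧ z * aeval w q = aeval w p := by
  have hz : z ∈ IntermediateField.adjoin L {w} := by rw [htop]; trivial
  obtain ⟨r, s, h⟩ := (IntermediateField.mem_adjoin_simple_iff L z).1 hz
  by_cases hs : aeval w s = 0
  · refine ⟨0, 1, ?_, ?_⟩
    · rw [map_one]
      exact one_ne_zero
    · rw [h, hs, div_zero, zero_mul, map_zero]
  · exact ⟨r, s, hs, by rw [h, div_mul_cancel₀ _ hs]⟩

/-- a map from `K = L(w)` given on `L[w]` -/
theorem exists_j (hw : Transcendental L w) (htop : IntermediateField.adjoin L {w} = ⊤)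
    {Ω : Type} [Field Ω] (θ : L[X] →+* Ω) (hθ : Function.Injective θ) :
    ∃ j : K →+* Ω, ∀ p, j (aeval w p) = θ p := by
  let _ : Algebra L[X] K := (aeval w : L[X] →ₐ[L] K).toRingHom.toAlgebra
  have hinj : Function.Injective (algebraMap L[X] K) := transcendental_iff_injective.1 hw
  have : FaithfulSMul L[X] K := (faithfulSMul_iff_algebraMap_injective L[X] K).2 hinj
  have hfr : IsFractionRing L[X] K := by
    refine IsFractionRing.of_field L[X] K fun z => ?_
    obtain ⟨p, q, hq, hpq⟩ := gen htop z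
    refine ⟨p, q, ?_⟩
    have : z = aeval w p / aeval w q := by
      rw [← hpq, mul_div_cancel_right₀ _ hq]
    exact this
  refine ⟨IsFractionRing.lift (A := L[X]) (K := K) hθ, fun p => ?_⟩
  exact IsFractionRing.lift_algebraMap hθ p

/-- evaluation of polynomials over `L[x, y]` at `w` -/
noncomputable def ev (w : K) : L[X][X][X] →+* K[X][X] := eval₂RingHom (mm L K) (C (C w))

/-- constants -/
noncomputable def cc : L[X] →+* L[X][X][X] := mapRingHom (C.comp C)

theorem ev_C (g : L[X][X]) : ev w (C g) = mm L K g := by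
  unfold ev
  rw [coe_eval₂RingHom, eval₂_C]

theorem ev_X : ev (L := L) w X = C (C w) := by
  unfold ev
  rw [coe_eval₂RingHom, eval₂_X]

theorem mm_CC (c : L) : mm L K (C (C c)) = C (C (algebraMap L K c)) := by
  unfold mm
  simp

theorem ev_cc (q : L[X]) : ev w (cc q) = C (C (aeval w q)) := by
  induction q using Polynomial.induction_on' with
  | add p q hp hq => rw [map_add, map_add, hp, hq, map_add, C_add, C_add]
  | monomial n c =>
    rw [← C_mul_X_pow_eq_monomial, map_mul, map_mul, map_pow, map_pow, map_mul, map_pow, aeval_X,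
      aeval_C]
    have h1 : cc (L := L) (C c) = C (C (C c)) := by
      unfold cc
      simp
    have h2 : cc (L := L) X = X := by
      unfold cc
      simp
    rw [h1, h2, ev_C, ev_X, mm_CC]
    simp

theorem cc_inj : Function.Injective (cc : L[X] →+* L[X][X][X]) := by
  unfold cc
  rw [coe_mapRingHom]
  exact Polynomial.map_injective _ (C_injective.comp C_injective)

/-- clearing denominators -/
theorem clear_den (htop : IntermediateField.adjoin L {w} = ⊤)
    (f : K[X][X]) : ∃ (q : L[X]) (H : L[X][X][X]), q ≠ 0 ∧ C (C (aeval w q)) * f = ev w H := by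
  have hadd : ∀ f g : K[X][X], (∃ (q : L[X]) (H : L[X][X][X]), q ≠ 0 ∧
      C (C (aeval w q)) * f = ev w H) → (∃ (q : L[X]) (H : L[X][X][X]), q ≠ 0 ∧
      C (C (aeval w q)) * g = ev w H) → ∃ (q : L[X]) (H : L[X][X][X]), q ≠ 0 ∧
      C (C (aeval w q)) * (f + g) = ev w H := by
    rintro f g ⟨q, H, hq, h⟩ ⟨q', H', hq', h'⟩
    refine ⟨q * q', cc q' * H + cc q * H', mul_ne_zero hq hq', ?_⟩
    have e1 : ev w (cc q' * H + cc q * H') = ev w (cc q') * ev w H + ev w (cc q) * ev w H' := by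
      rw [RingHom.map_add, RingHom.map_mul, RingHom.map_mul]
    rw [e1, ← h, ← h', ev_cc, ev_cc, map_mul, C_mul, C_mul]
    ring
  have hmul : ∀ f g : K[X][X], (∃ (q : L[X]) (H : L[X][X][X]), q ≠ 0 ∧
      C (C (aeval w q)) * f = ev w H) → (∃ (q : L[X]) (H : L[X][X][X]), q ≠ 0 ∧
      C (C (aeval w q)) * g = ev w H) → ∃ (q : L[X]) (H : L[X][X][X]), q ≠ 0 ∧
      C (C (aeval w q)) * (f * g) = ev w H := by
    rintro f g ⟨q, H, hq, h⟩ ⟨q', H', hq', h'⟩
    refine ⟨q * q', H * H', mul_ne_zero hq hq', ?_⟩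
    rw [RingHom.map_mul, ← h, ← h', map_mul, C_mul, C_mul]
    ring
  have hpoly : ∀ g : L[X][X], ∃ (q : L[X]) (H : L[X][X][X]), q ≠ 0 ∧
      C (C (aeval w q)) * mm L K g = ev w H := by
    intro g
    refine ⟨1, C g, one_ne_zero, ?_⟩
    rw [map_one, C_1, C_1, one_mul, ev_C]
  have hX : ∃ (q : L[X]) (H : L[X][X][X]), q ≠ 0 ∧
      C (C (aeval w q)) * (X : K[X][X]) = ev w H := by
    have h := hpoly X
    have h2 : mm L K X = X := by
      unfold mm
      simp
    rwa [h2] at h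
  have hCX : ∃ (q : L[X]) (H : L[X][X][X]), q ≠ 0 ∧
      C (C (aeval w q)) * (C X : K[X][X]) = ev w H := by
    have h := hpoly (C X)
    have h2 : mm L K (C X) = C X := by
      unfold mm
      simp
    rwa [h2] at h
  have hpow : ∀ g : K[X][X], (∃ (q : L[X]) (H : L[X][X][X]), q ≠ 0 ∧
      C (C (aeval w q)) * g = ev w H) → ∀ n : ℕ, ∃ (q : L[X]) (H : L[X][X][X]), q ≠ 0 ∧
      C (C (aeval w q)) * g ^ n = ev w H := by
    intro g hg n
    induction n with
    | zero =>
      refine ⟨1, 1, one_ne_zero, ?_⟩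
      rw [pow_zero, RingHom.map_one, map_one, C_1, C_1, one_mul]
    | succ n ih =>
      rw [pow_succ]
      exact hmul _ _ ih hg
  have hconst : ∀ z : K, ∃ (q : L[X]) (H : L[X][X][X]), q ≠ 0 ∧
      C (C (aeval w q)) * (C (C z) : K[X][X]) = ev w H := by
    intro z
    obtain ⟨p, q, hq, hpq⟩ := gen htop z
    refine ⟨q, cc p, ?_, ?_⟩
    · rintro rfl
      exact hq (map_zero _)
    · rw [ev_cc, ← hpq, C_mul, C_mul]
      ring
  induction f using Polynomial.induction_on' with
  | add f g hf hg => exact hadd f g hf hg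
  | monomial n a =>
    rw [← C_mul_X_pow_eq_monomial]
    refine hmul _ _ ?_ (hpow _ hX n)
    induction a using Polynomial.induction_on' with
    | add f g hf hg =>
      rw [C_add]
      exact hadd _ _ hf hg
    | monomial m z =>
      rw [← C_mul_X_pow_eq_monomial, C_mul, C_pow]
      exact hmul _ _ (hconst z) (hpow _ hCX m)

/-- the map to a field with kernel `(𝔪)` -/
theorem exists_Psi (hw : Transcendental L w) (htop : IntermediateField.adjoin L {w} = ⊤)
    (P Q : L[X][X]) {D Ω : Type} [CommRing D] [IsDomain D] [Field Ω] (e : D[X] →+* Ω)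
    (hinjΩ : Function.Injective e) (π : L[X][X] →+* D) (hP : π P = 0) (hQ : π Q = 0) :
    ∃ Ψ : CR P Q w →+* Ω, RingHom.ker Ψ = Ideal.map (io P Q w) (RingHom.ker π) := by
  classical
  let ρ : L[X][X] →+* Ω := e.comp (C.comp π)
  let ι : L →+* D := π.comp (C.comp C)
  have hι : Function.Injective ι := ι.injective
  let θ : L[X] →+* Ω := e.comp (mapRingHom ι)
  have hθ : Function.Injective θ := hinjΩ.comp (by
    rw [coe_mapRingHom]
    exact Polynomial.map_injective _ hι)
  obtain ⟨j, hj⟩ := exists_j hw htop θ hθ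
  let i : K[X] →+* Ω := eval₂RingHom j (ρ (C X))
  have hjC : ∀ c : L, j (algebraMap L K c) = ρ (C (C c)) := by
    intro c
    have h := hj (C c)
    rw [aeval_C] at h
    rw [h]
    show e ((C c).map ι) = e (C (π (C (C c))))
    rw [Polynomial.map_C]
    rfl
  have hjw : j w = e X := by
    have h := hj X
    rw [aeval_X] at h
    rw [h]
    show e ((X : L[X]).map ι) = _
    rw [Polynomial.map_X]
  -- compatibility
  let Φ : K[X][X] →+* Ω := eval₂RingHom i (ρ X)
  have hΦC : ∀ a : K[X], Φ (C a) = i a := fun a => by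
    show eval₂ i (ρ X) (C a) = _
    rw [eval₂_C]
  have hΦX : Φ X = ρ X := by
    show eval₂ i (ρ X) X = _
    rw [eval₂_X]
  have hiC : ∀ z : K, i (C z) = j z := fun z => by
    show eval₂ j (ρ (C X)) (C z) = _
    rw [eval₂_C]
  have hiX : i X = ρ (C X) := by
    show eval₂ j (ρ (C X)) X = _
    rw [eval₂_X]
  have hΦmm : ∀ g : L[X][X], Φ (mm L K g) = ρ g := by
    have h1 : Φ.comp (mm L K) = ρ := by
      refine Polynomial.ringHom_ext' ?_ ?_
      · refine Polynomial.ringHom_ext' ?_ ?_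
        · refine RingHom.ext fun c => ?_
          simp only [RingHom.comp_apply]
          rw [mm_CC, hΦC, hiC, hjC]
        · simp only [RingHom.comp_apply]
          have h2 : mm L K (C X) = C X := by
            unfold mm
            simp
          rw [h2, hΦC, hiX]
      · simp only [RingHom.comp_apply]
        have h2 : mm L K X = X := by
          unfold mm
          simp
        rw [h2, hΦX]
    intro g
    rw [← h1]
    rfl
  have hρ0 : ∀ g : L[X][X], ρ g = 0 ↔ π g = 0 := by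
    intro g
    show e (C (π g)) = 0 ↔ _
    rw [map_eq_zero_iff _ hinjΩ, C_eq_zero]
  have hΦw : Φ (C (C w)) = e X := by rw [hΦC, hiC, hjw]
  have hmem0 : eval₂ i (ρ X) (mem P Q w) = 0 := by
    show Φ (mem P Q w) = 0
    unfold mem
    rw [map_add, map_mul, hΦmm, hΦmm, (hρ0 P).2 hP, (hρ0 Q).2 hQ, mul_zero, add_zero]
  let Ψ : CR P Q w →+* Ω := AdjoinRoot.lift i (ρ X) hmem0
  have hΨmk : ∀ f : K[X][X], Ψ (AdjoinRoot.mk (mem P Q w) f) = Φ f := fun f =>
    AdjoinRoot.lift_mk hmem0 f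
  have hΨio : ∀ g : L[X][X], Ψ (io P Q w g) = ρ g := by
    intro g
    unfold io
    rw [RingHom.comp_apply, hΨmk, hΦmm]
  refine ⟨Ψ, le_antisymm ?_ ?_⟩
  · intro r hr
    obtain ⟨f, rfl⟩ := AdjoinRoot.mk_surjective r
    obtain ⟨q, H, hq, hH⟩ := clear_den htop f
    have hκ : aeval w q ≠ 0 := by
      intro h
      exact hq (transcendental_iff_injective.1 hw (by rw [h, map_zero]))
    have hr0 : Φ f = 0 := by rw [← hΨmk]; exact hr
    have h1 : Φ (ev w H) = 0 := by rw [← hH, map_mul, hr0, mul_zero]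
    have h2 : Φ (ev w H) = e (H.map π) := by
      have h3 : Φ.comp (ev w) = e.comp (mapRingHom π) := by
        refine Polynomial.ringHom_ext' ?_ ?_
        · refine RingHom.ext fun g => ?_
          simp only [RingHom.comp_apply]
          rw [ev_C, hΦmm, coe_mapRingHom, Polynomial.map_C]
          rfl
        · simp only [RingHom.comp_apply]
          rw [ev_X, hΦw, coe_mapRingHom, Polynomial.map_X]
      exact congrArg (fun F : L[X][X][X] →+* Ω => F H) h3
    rw [h2, map_eq_zero_iff _ hinjΩ] at h1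
    have h4 : ∀ n, H.coeff n ∈ RingHom.ker π := by
      intro n
      have h5 := congrArg (fun p : D[X] => p.coeff n) h1
      simp only [coeff_map, coeff_zero] at h5
      exact h5
    have h6 : AdjoinRoot.mk (mem P Q w) (ev w H) ∈ Ideal.map (io P Q w) (RingHom.ker π) := by
      have h7 : ev w H = ∑ n ∈ Finset.range (H.natDegree + 1), mm L K (H.coeff n) * C (C w) ^ n := by
        unfold ev
        rw [coe_eval₂RingHom, eval₂_eq_sum_range]
      rw [h7, map_sum]
      refine Ideal.sum_mem _ fun n _ => ?_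
      rw [map_mul]
      exact Ideal.mul_mem_right _ _ (Ideal.mem_map_of_mem (io P Q w) (h4 n))
    rw [← hH, map_mul] at h6
    have hunit : IsUnit (AdjoinRoot.mk (mem P Q w) (C (C (aeval w q)))) := by
      have : IsUnit (aeval w q : K) := isUnit_iff_ne_zero.2 hκ
      exact ((this.map (C : K →+* K[X])).map (C : K[X] →+* K[X][X])).map
        (AdjoinRoot.mk (mem P Q w))
    obtain ⟨v, hv⟩ := hunit
    have h8 : AdjoinRoot.mk (mem P Q w) f = (↑v⁻¹ : CR P Q w) *
        (AdjoinRoot.mk (mem P Q w) (C (C (aeval w q))) * AdjoinRoot.mk (mem P Q w) f) := by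
      rw [← hv, ← mul_assoc, Units.inv_mul, one_mul]
    rw [h8]
    exact Ideal.mul_mem_left _ _ h6
  · rw [Ideal.map_le_iff_le_comap]
    intro g hg
    show Ψ (io P Q w g) = 0
    rw [hΨio, (hρ0 g).2 hg]

theorem prime_aux (hw : Transcendental L w) (htop : IntermediateField.adjoin L {w} = ⊤)
    (P Q : L[X][X]) {D : Type} [CommRing D] [IsDomain D] (π : L[X][X] →+* D) (hP : π P = 0)
    (hQ : π Q = 0) : (Ideal.map (io P Q w) (RingHom.ker π)).IsPrime := by
  obtain ⟨Ψ, hΨ⟩ := exists_Psi hw htop P Q (algebraMap D[X] (FractionRing D[X]))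
    (IsFractionRing.injective _ _) π hP hQ
  rw [← hΨ]
  exact RingHom.ker_isPrime Ψ

end PTaux

section
variable {L : Type} [Field L] {K : Type} [Field K] [Algebra L K] {a b : ℕ} {P₀ Q : L[X][X]} {w : K}

theorem pt_of_mem (h : Sit a b P₀ Q w) {𝔭 : Ideal (CR (cur a b P₀) Q w)} (hp : 𝔭.IsPrime)
    (hQ : io (cur a b P₀) Q w Q ∈ 𝔭) : (𝔭.comap (io (cur a b P₀) Q w)).IsMaximal ∧
      cur a b P₀ ∈ 𝔭.comap (io (cur a b P₀) Q w) ∧ Q ∈ 𝔭.comap (io (cur a b P₀) Q w) := by
  have ha : 1 ≤ a := le_trans (by norm_num) h.ha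
  have hb : 1 ≤ b := le_trans (by norm_num) h.hb
  have hPp : cur a b P₀ ∈ 𝔭.comap (io (cur a b P₀) Q w) := by
    rw [Ideal.mem_comap]
    have h1 := io_rel (cur a b P₀) Q w
    have h2 : - io (cur a b P₀) Q w (cur a b P₀) ∈ 𝔭 := by
      rw [← h1]
      exact Ideal.mul_mem_left _ _ hQ
    exact (Ideal.neg_mem_iff 𝔭).1 h2
  have hQp : Q ∈ 𝔭.comap (io (cur a b P₀) Q w) := hQ
  obtain ⟨hm, hdeg⟩ := cab_monic (R := L) (b := b) ha h.hP
  have hirr : Irreducible (cur a b P₀) := cab_irr ha hb h.hab h.hP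
  have hd : Q.degree < (cur a b P₀).degree := by
    have h3 : (cur a b P₀).degree = a := by
      unfold cur
      rw [degree_eq_natDegree hm.ne_zero, hdeg]
    rw [h3]
    exact h.hQ.deg
  refine ⟨max_of hm hirr h.hQ0 hd ?_ hPp hQp, hPp, hQp⟩
  exact Ideal.comap_isPrime _ _

theorem pt_prime (h : Sit a b P₀ Q w) (𝔪 : MaxPts (cur a b P₀) Q) :
    (Ideal.map (io (cur a b P₀) Q w) 𝔪.1).IsPrime := by
  have hm : 𝔪.1.IsPrime := 𝔪.2.1.isPrime
  have hD : IsDomain (L[X][X] ⧸ 𝔪.1) := Ideal.Quotient.isDomain 𝔪.1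
  have e1 : Ideal.Quotient.mk 𝔪.1 (cur a b P₀) = 0 := Ideal.Quotient.eq_zero_iff_mem.2 𝔪.2.2.1
  have e2 : Ideal.Quotient.mk 𝔪.1 Q = 0 := Ideal.Quotient.eq_zero_iff_mem.2 𝔪.2.2.2
  have h1 := PTaux.prime_aux (D := L[X][X] ⧸ 𝔪.1) h.hw h.top (cur a b P₀) Q
    (Ideal.Quotient.mk 𝔪.1) e1 e2
  rwa [Ideal.mk_ker] at h1

theorem pt_comap (h : Sit a b P₀ Q w) (𝔪 : MaxPts (cur a b P₀) Q) :
    (Ideal.map (io (cur a b P₀) Q w) 𝔪.1).comap (io (cur a b P₀) Q w) = 𝔪.1 := by
  have h1 := pt_prime h 𝔪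
  have h2 : (Ideal.map (io (cur a b P₀) Q w) 𝔪.1).comap (io (cur a b P₀) Q w) ≠ ⊤ :=
    (Ideal.comap_isPrime (io (cur a b P₀) Q w) _).ne_top
  exact (𝔪.2.1.eq_of_le h2 Ideal.le_comap_map).symm

end

end Pool.Agent.T2H65.CP
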