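import Pool.Agent.T2H65.CP.RA
import Pool.Agent.T2H65.CP.PT
import Pool.Agent.T2H65.CP.A5
import Pool.Agent.T2H65.CP.A6
import Pool.Agent.T2H65.CP.IND

/-!
# Project CP: the rank of the class group of the coordinate ring of the generic member
-/

set_option autoImplicit false

open Polynomial

namespace Pool.Agent.T2H65.CP

section
variable {L : Type} [Field L] {a b : ℕ} {P₀ Q : L[X][X]}

theorem cur_monic (ha : 1 ≤ a) (hP : Low a b P₀) : (cur a b P₀).Monic := (cab_monic ha hP).1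

theorem cur_deg (ha : 1 ≤ a) (hP : Low a b P₀) (hQ : Low a b Q) : Q.degree < (cur a b P₀).degree := by
  have h1 : (cur a b P₀).natDegree = a := (cab_monic ha hP).2
  rw [degree_eq_natDegree (cur_monic ha hP).ne_zero, h1]
  exact hQ.deg

theorem cur_irr (ha : 1 ≤ a) (hb : 1 ≤ b) (hab : a.Coprime b) (hP : Low a b P₀) :
    Irreducible (cur a b P₀) := cab_irr ha hb hab hP

theorem maxPts_finite (ha : 1 ≤ a) (hb : 1 ≤ b) (hab : a.Coprime b) (hP : Low a b P₀) (hQ : Low a b Q)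
    (hQ0 : Q ≠ 0) : Finite (MaxPts (cur a b P₀) Q) := by
  have h1 := pts_min (cur_monic ha hP) (cur_irr ha hb hab hP) hQ0 (cur_deg ha hP hQ)
  have h2 := (Ideal.finite_minimalPrimes_of_isNoetherianRing L[X][X] (Ideal.span {cur a b P₀, Q}))
  rw [h1] at h2
  exact h2.to_subtype

end

section
variable {L : Type} [Field L] [CharZero L] {K : Type} [Field K] [Algebra L K] {a b : ℕ} {P₀ Q : L[X][X]}
  {w : K}

/-- **The rank of the class group of the generic member of the pencil.** -/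
theorem rank_final (h : Sit a b P₀ Q w) [IsDedekindDomain (CR (cur a b P₀) Q w)] :
    Finite (MaxPts (cur a b P₀) Q) ∧ Finite (Comps Q) ∧
    Nat.card (Comps Q) ≤ Nat.card (MaxPts (cur a b P₀) Q) ∧
    Module.rank ℤ (Additive (ClassGroup (CR (cur a b P₀) Q w))) =
      ((Nat.card (MaxPts (cur a b P₀) Q) - Nat.card (Comps Q) : ℕ) : Cardinal) := by
  have ha : 1 ≤ a := le_trans one_le_two h.ha
  have hb : 1 ≤ b := le_trans one_le_two h.hb
  have hfin : Finite (MaxPts (cur a b P₀) Q) := maxPts_finite ha hb h.hab h.hP h.hQ h.hQ0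
  have hinj := io_inj h
  have hQ0 : io (cur a b P₀) Q w Q ≠ 0 := (map_ne_zero_iff _ hinj).2 h.hQ0
  have hmem : ∀ 𝔪 : MaxPts (cur a b P₀) Q,
      io (cur a b P₀) Q w Q ∈ Ideal.map (io (cur a b P₀) Q w) 𝔪.1 :=
    fun 𝔪 => Ideal.mem_map_of_mem _ 𝔪.2.2.2
  obtain ⟨r1, r2, r3⟩ := rank_abs (io (cur a b P₀) Q w) hinj Q h.hQ0
    (fun 𝔪 : MaxPts (cur a b P₀) Q => Ideal.map (io (cur a b P₀) Q w) 𝔪.1)
    (by
      intro 𝔪 𝔪' h1
      apply Subtype.ext
      rw [← pt_comap h 𝔪, ← pt_comap h 𝔪']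
      exact congrArg _ h1)
    (by
      intro 𝔮
      constructor
      · rintro ⟨h1, h2⟩
        obtain ⟨h3, h4, h5⟩ := pt_of_mem h h1 h2
        refine ⟨⟨𝔮.comap (io (cur a b P₀) Q w), h3, h4, h5⟩, ?_⟩
        have h6 := pt_prime h ⟨𝔮.comap (io (cur a b P₀) Q w), h3, h4, h5⟩
        have h7 : Ideal.map (io (cur a b P₀) Q w) (𝔮.comap (io (cur a b P₀) Q w)) ≠ ⊥ := by
          intro h8
          have h9 := hmem ⟨𝔮.comap (io (cur a b P₀) Q w), h3, h4, h5⟩
          rw [h8] at h9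
          exact hQ0 h9
        have h10 : (Ideal.map (io (cur a b P₀) Q w) (𝔮.comap (io (cur a b P₀) Q w))).IsMaximal :=
          Ideal.IsPrime.isMaximal h6 h7
        exact (h10.eq_of_le h1.ne_top Ideal.map_comap_le).symm
      · rintro ⟨𝔪, rfl⟩
        exact ⟨pt_prime h 𝔪, hmem 𝔪⟩)
    (fun 𝔮 h1 h2 h3 => prime_cls h h1 h2 h3)
    (fun x y I J N hx hy hI hJ hxy => factor h hx hy hI hJ hxy)
    (fun u v hu hv hrel huQ hvQ hs => indep h hu hv hrel huQ hvQ hs)
  exact ⟨hfin, r1, r2, r3⟩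

end

end Pool.Agent.T2H65.CP
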