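import Pool.Agent.T2H65.CP.FB

/-!
# Project CP, package A4: `L[x, y] → R = K[x, y]/(P + w Q)` is injective, and every element of `R` lifts up to
a unit of `K` and a power of `Q`

`io_inj`: `K = L(w)` is the field of fractions of `L[w]`, and `w ↦ -P/Q` defines a map of fields from `K` to the field of
fractions of `L[x, y]` (`fib_ne`), hence a map from `R`, whose composition with `io` is the inclusion.

`lift`: the set of all `r` with this property is a subring, which contains `K`, `x`, `y`.
-/

set_option autoImplicit false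

open Polynomial

namespace Pool.Agent.T2H65.CP

section
variable {L : Type} [Field L] {K : Type} [Field K] [Algebra L K] {a b : ℕ} {P₀ Q : L[X][X]} {w : K}

namespace PkgA4

theorem gen (h : Sit a b P₀ Q w) (z : K) : ∃ p q : L[X], q ≠ 0 ∧ z = aeval w p / aeval w q := by
  have hz : z ∈ IntermediateField.adjoin L {w} := by
    rw [h.top]
    exact IntermediateField.mem_top
  obtain ⟨p, q, hpq⟩ := (IntermediateField.mem_adjoin_simple_iff L z).1 hz
  by_cases hq : q = 0
  · refine ⟨0, 1, one_ne_zero, ?_⟩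
    rw [hpq, hq]
    simp
  · exact ⟨p, q, hq, hpq⟩

theorem aeval_ne (h : Sit a b P₀ Q w) {q : L[X]} (hq : q ≠ 0) : aeval w q ≠ 0 := fun h0 =>
  h.hw ⟨q, hq, h0⟩

/-- the map to the field of fractions of `L[x, y]` -/
theorem exists_map (h : Sit a b P₀ Q w) : ∃ χ : K →+* FractionRing L[X][X],
    (∀ l : L, χ (algebraMap L K l) = algebraMap L[X][X] (FractionRing L[X][X]) (C (C l))) ∧
    χ w * algebraMap L[X][X] (FractionRing L[X][X]) Q =
      - algebraMap L[X][X] (FractionRing L[X][X]) (cur a b P₀) := by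
  set ι := algebraMap L[X][X] (FractionRing L[X][X]) with hι
  have hιinj : Function.Injective ι := IsFractionRing.injective _ _
  have hQ : ι Q ≠ 0 := fun h0 => h.hQ0 (hιinj (by rw [h0, map_zero]))
  let alg : Algebra L[X] K := (aeval w : L[X] →ₐ[L] K).toRingHom.toAlgebra
  have halg : ∀ p : L[X], algebraMap L[X] K p = aeval w p := fun _ => rfl
  have : FaithfulSMul L[X] K := by
    rw [faithfulSMul_iff_algebraMap_injective]
    exact (injective_iff_map_eq_zero _).2 fun p hp => by
      by_contra hne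
      exact aeval_ne h hne hp
  have : IsFractionRing L[X] K := IsFractionRing.of_field L[X] K fun z => by
    obtain ⟨p, q, _, hpq⟩ := gen h z
    exact ⟨p, q, hpq⟩
  let gg : L[X] →+* FractionRing L[X][X] :=
    eval₂RingHom (ι.comp (C.comp C)) (- ι (cur a b P₀) / ι Q)
  have hgg : Function.Injective gg := by
    refine (injective_iff_map_eq_zero _).2 fun p hp => ?_
    by_contra hne
    have h1 := fib_val ι hQ (P := cur a b P₀) p
    have h2 : eval₂ (ι.comp (C.comp C)) (- ι (cur a b P₀) / ι Q) p = 0 := hp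
    rw [h2, mul_zero] at h1
    exact fib_ne (by have := h.ha; omega) h.hP h.hQ hne (hιinj (by rw [h1, map_zero]))
  refine ⟨IsFractionRing.lift (K := K) hgg, fun l => ?_, ?_⟩
  · have h1 : algebraMap L K l = algebraMap L[X] K (C l) := by
      rw [halg, aeval_C]
    rw [h1, IsFractionRing.lift_algebraMap]
    change eval₂ (ι.comp (C.comp C)) (- ι (cur a b P₀) / ι Q) (C l) = _
    rw [eval₂_C]
    rfl
  · have h1 : w = algebraMap L[X] K X := by
      rw [halg, aeval_X]
    conv_lhs => rw [h1]
    rw [IsFractionRing.lift_algebraMap]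
    change eval₂ (ι.comp (C.comp C)) (- ι (cur a b P₀) / ι Q) X * _ = _
    rw [eval₂_X, div_mul_cancel₀ _ hQ]

end PkgA4

open PkgA4

theorem io_inj (h : Sit a b P₀ Q w) : Function.Injective (io (cur a b P₀) Q w) := by
  obtain ⟨χ, h1, h2⟩ := exists_map h
  set ι := algebraMap L[X][X] (FractionRing L[X][X]) with hι
  have hιinj : Function.Injective ι := IsFractionRing.injective _ _
  let i : K[X] →+* FractionRing L[X][X] := eval₂RingHom χ (ι (C X))
  have hcomp : (eval₂RingHom i (ι X)).comp (mm L K) = ι := by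
    unfold mm
    refine ringHom_ext' (ringHom_ext' ?_ ?_) ?_
    · ext l
      simp only [RingHom.comp_apply, coe_mapRingHom, map_C, coe_eval₂RingHom, eval₂_C, i]
      exact h1 l
    · simp only [RingHom.comp_apply, coe_mapRingHom, map_C, map_X, coe_eval₂RingHom, eval₂_C, eval₂_X,
        i]
    · simp only [RingHom.comp_apply, coe_mapRingHom, map_X, coe_eval₂RingHom, eval₂_X]
  have hF : ∀ F : L[X][X], eval₂ i (ι X) (mm L K F) = ι F := fun F =>
    congrFun (congrArg DFunLike.coe hcomp) F
  have h0 : (mem (cur a b P₀) Q w).eval₂ i (ι X) = 0 := by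
    unfold mem
    rw [eval₂_add, eval₂_mul, hF, hF, eval₂_C]
    have h3 : i (C w) = χ w := by
      change eval₂ χ (ι (C X)) (C w) = _
      rw [eval₂_C]
    rw [h3, h2]
    ring
  refine (injective_iff_map_eq_zero _).2 fun F hF0 => ?_
  have h3 := congrArg (AdjoinRoot.lift i (ι X) h0) hF0
  unfold io at h3
  rw [RingHom.comp_apply, AdjoinRoot.lift_mk, hF, map_zero] at h3
  exact hιinj (by rw [h3, map_zero])

theorem PkgA4.lift' (h : Sit a b P₀ Q w) (P : L[X][X]) (r : CR P Q w) :
    ∃ (κ : K) (n : ℕ) (f : L[X][X]), κ ≠ 0 ∧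
      AdjoinRoot.of (mem P Q w) (C κ) * io P Q w Q ^ n * r = io P Q w f := by
  set i := io P Q w with hi
  -- the multiplicative set and the subring
  let T : CR P Q w → Prop := fun r => ∃ (p : L[X]) (n : ℕ) (f : L[X][X]), p ≠ 0 ∧
    i (fib P Q p * Q ^ n) * r = i f
  have hadd : ∀ r s, T r → T s → T (r + s) := by
    rintro r s ⟨p, n, f, hp, h1⟩ ⟨q, m, g, hq, h2⟩
    refine ⟨p * q, n + m, f * (fib P Q q * Q ^ m) + g * (fib P Q p * Q ^ n), mul_ne_zero hp hq, ?_⟩
    rw [fib_mul h.hQ0 hp hq, map_add, map_mul i f, map_mul i g, ← h1, ← h2]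
    rw [map_mul, map_mul, map_mul, map_mul, pow_add, map_mul]
    ring
  have hmul : ∀ r s, T r → T s → T (r * s) := by
    rintro r s ⟨p, n, f, hp, h1⟩ ⟨q, m, g, hq, h2⟩
    refine ⟨p * q, n + m, f * g, mul_ne_zero hp hq, ?_⟩
    rw [fib_mul h.hQ0 hp hq, map_mul i f, ← h1, ← h2]
    rw [map_mul, map_mul, map_mul, map_mul, pow_add, map_mul]
    ring
  have hio : ∀ f : L[X][X], T (i f) := by
    intro f
    refine ⟨1, 0, f, one_ne_zero, ?_⟩
    have : fib P Q 1 = 1 := by
      have := fib_C P Q 1
      simpa using this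
    rw [this, pow_zero, mul_one, map_one, one_mul]
  have hK : ∀ c : K, T (AdjoinRoot.of (mem P Q w) (C c)) := by
    intro c
    obtain ⟨p, q, hq, hc⟩ := gen h c
    refine ⟨q, p.natDegree, Q ^ q.natDegree * fib P Q p, hq, ?_⟩
    rw [map_mul, map_mul, io_fib, map_pow, map_pow, io_fib]
    have h1 : AdjoinRoot.of (mem P Q w) (C (aeval w q)) * AdjoinRoot.of (mem P Q w) (C c) =
        AdjoinRoot.of (mem P Q w) (C (aeval w p)) := by
      rw [← map_mul, ← C_mul, hc, mul_div_cancel₀ _ (aeval_ne h hq)]
    linear_combination (io P Q w Q ^ q.natDegree * io P Q w Q ^ p.natDegree) * h1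
  have hall : ∀ H : K[X][X], T (AdjoinRoot.mk (mem P Q w) H) := by
    have hpow : ∀ r, T r → ∀ n : ℕ, T (r ^ n) := by
      intro r hr n
      induction n with
      | zero =>
        rw [pow_zero, ← map_one i]
        exact hio 1
      | succ n ih =>
        rw [pow_succ]
        exact hmul _ _ ih hr
    have hX : T (AdjoinRoot.mk (mem P Q w) X) := by
      have h1 : AdjoinRoot.mk (mem P Q w) X = i X := by
        rw [hi]
        unfold io mm
        rw [RingHom.comp_apply, coe_mapRingHom, map_X]
      rw [h1]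
      exact hio X
    have hCX : T (AdjoinRoot.mk (mem P Q w) (C X)) := by
      have h1 : AdjoinRoot.mk (mem P Q w) (C X) = i (C X) := by
        rw [hi]
        unfold io mm
        rw [RingHom.comp_apply, coe_mapRingHom, map_C, coe_mapRingHom, map_X]
      rw [h1]
      exact hio (C X)
    have hC : ∀ p : K[X], T (AdjoinRoot.mk (mem P Q w) (C p)) := by
      intro p
      induction p using Polynomial.induction_on' with
      | add p q hp hq =>
        rw [C_add, map_add]
        exact hadd _ _ hp hq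
      | monomial n c =>
        rw [← C_mul_X_pow_eq_monomial, C_mul, map_mul, C_pow, map_pow]
        refine hmul _ _ ?_ (hpow _ hCX n)
        rw [AdjoinRoot.mk_C]
        exact hK c
    intro H
    induction H using Polynomial.induction_on' with
    | add p q hp hq =>
      rw [map_add]
      exact hadd _ _ hp hq
    | monomial n c =>
      rw [← C_mul_X_pow_eq_monomial, map_mul, map_pow]
      exact hmul _ _ (hC c) (hpow _ hX n)
  obtain ⟨H, hH⟩ := AdjoinRoot.mk_surjective (g := mem P Q w) r
  obtain ⟨p, n, f, hp, h1⟩ := hall H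
  rw [hH] at h1
  refine ⟨aeval w p, p.natDegree + n, f, aeval_ne h hp, ?_⟩
  have h2 := io_fib P Q w p
  rw [← hi] at h2
  rw [← h1, map_mul, map_pow, h2, pow_add]
  ring

theorem lift (h : Sit a b P₀ Q w) (r : CR (cur a b P₀) Q w) :
    ∃ (κ : K) (n : ℕ) (f : L[X][X]), κ ≠ 0 ∧
      AdjoinRoot.of (mem (cur a b P₀) Q w) (C κ) * io (cur a b P₀) Q w Q ^ n * r = io (cur a b P₀) Q w f :=
  PkgA4.lift' h (cur a b P₀) r

end

end Pool.Agent.T2H65.CP
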