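import Pool.Agent.T2H65.CP.A4
import Pool.Agent.T2H65.CP.A2

/-!
# Project CP, package A6a: the irreducible elements which become units outside `Q`

Write `R = CR ..`, `i = io ..`. Let `π ∈ L[x, y]` be irreducible, `π ∤ g`, and `i g (i Q)^N = i π r`, `r ∈ R`. By `lift`,
`κ Q^k r = i s`, `0 ≠ κ = p(w)/q(w) ∈ K = L(w)` (`p, q ∈ L[X]` nonzero). Hence `κ i (g Q^(N+k)) = i (π s)`. Multiply with
`q(w) Q^m`, `m` large (`m ≥ deg p`, `deg q`) and use `io_fib`, `p(w) Q^(deg p) = i (fib p)` etc. and the injectivity `io_inj`: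
`fib p * g * Q^(N+k+m-deg p) = π s * fib q * Q^(m - deg q)` in `L[x, y]`. So `π` divides the left side; it is prime
(`L[x, y]` is factorial), `π ∤ g`; thus `π ∣ Q` or `π ∣ fib p`. In the second case write `p` as a constant times a product of
irreducible polynomials; by `fib_mul` and `fib_irr`, `π` is associated with `fib h` for an irreducible `h ∈ L[X]`
(`Irreducible.dvd_irreducible_iff_associated`). As `i (fib h) = i Q^(deg h) h(w)` and `h(w) ∈ K` is not zero, a unit,
`(i π) = (i Q^(deg h))`.
(To find `h`: take the statement `π ∣ fib p → ∃ h irreducible, Associated π (fib h)` by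
`UniqueFactorizationMonoid.induction_on_prime` or `WfDvdMonoid.induction_on_irreducible` on `p ≠ 0`.)
-/

set_option autoImplicit false

open Polynomial

namespace Pool.Agent.T2H65.CP

namespace PkgA6a

section
variable {L : Type} [Field L]

/-- an irreducible divisor of a form divides the form of an irreducible polynomial -/
theorem exists_irr {π P Q : L[X][X]} (hπ : Irreducible π) (hQ : Q ≠ 0) (p : L[X]) (hp : p ≠ 0)
    (hd : π ∣ fib P Q p) : ∃ f : L[X], Irreducible f ∧ π ∣ fib P Q f := by
  revert hp hd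
  refine WfDvdMonoid.induction_on_irreducible p (fun h => absurd rfl h) ?_ ?_
  · intro u hu h0 hd
    obtain ⟨c, hc, rfl⟩ := Polynomial.isUnit_iff.1 hu
    rw [fib_C] at hd
    exact absurd (isUnit_of_dvd_unit hd ((hc.map C).map C)) hπ.not_isUnit
  · intro q f hq hf ih h0 hd
    rw [fib_mul hQ hf.ne_zero hq] at hd
    rcases hπ.prime.dvd_or_dvd hd with h1 | h1
    · exact ⟨f, hf, h1⟩
    · exact ih hq h1

end

end PkgA6a

open PkgA6a

theorem prime_alt {L : Type} [Field L] [CharZero L] {K : Type} [Field K] [Algebra L K] {a b : ℕ}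
    {P₀ Q : L[X][X]} {w : K} (h : Sit a b P₀ Q w) {π g : L[X][X]} (hπ : Irreducible π) (hg : ¬ π ∣ g) {N : ℕ}
    (hm : io (cur a b P₀) Q w g * io (cur a b P₀) Q w Q ^ N ∈ Ideal.span {io (cur a b P₀) Q w π}) :
    π ∣ Q ∨ ∃ n : ℕ, Ideal.span {io (cur a b P₀) Q w π} = Ideal.span {io (cur a b P₀) Q w Q ^ n} := by
  obtain ⟨r, hr⟩ := Ideal.mem_span_singleton.1 hm
  obtain ⟨κ, n, s, hκ, hs⟩ := lift h r
  have hκ' : κ ∈ IntermediateField.adjoin L {w} := by
    rw [h.top]
    exact IntermediateField.mem_top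
  obtain ⟨p, q, hpq⟩ := (IntermediateField.mem_adjoin_simple_iff L κ).1 hκ'
  have hp0 : aeval w p ≠ 0 := by
    intro h0
    rw [h0, zero_div] at hpq
    exact hκ hpq
  have hq0 : aeval w q ≠ 0 := by
    intro h0
    rw [h0, div_zero] at hpq
    exact hκ hpq
  have hp : p ≠ 0 := by
    rintro rfl
    exact hp0 (map_zero _)
  have hκq : aeval w q * κ = aeval w p := by
    rw [hpq]
    field_simp
  -- the relation in `R`
  have e1 := io_fib (cur a b P₀) Q w p
  have e2 := io_fib (cur a b P₀) Q w q
  have e3 : AdjoinRoot.of (mem (cur a b P₀) Q w) (C (aeval w q)) *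
      AdjoinRoot.of (mem (cur a b P₀) Q w) (C κ) =
      AdjoinRoot.of (mem (cur a b P₀) Q w) (C (aeval w p)) := by
    rw [← map_mul, ← C_mul, hκq]
  have key : io (cur a b P₀) Q w (Q ^ q.natDegree * fib (cur a b P₀) Q p * g * Q ^ (N + n)) =
      io (cur a b P₀) Q w (Q ^ p.natDegree * fib (cur a b P₀) Q q * (π * s)) := by
    simp only [map_mul, map_pow, e1, e2, ← hs, pow_add, ← e3]
    linear_combination (io (cur a b P₀) Q w Q ^ q.natDegree * io (cur a b P₀) Q w Q ^ p.natDegree *
      AdjoinRoot.of (mem (cur a b P₀) Q w) (C (aeval w q)) *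
      AdjoinRoot.of (mem (cur a b P₀) Q w) (C κ) * io (cur a b P₀) Q w Q ^ n) * hr
  have key2 := io_inj h key
  have hdvd : π ∣ Q ^ q.natDegree * fib (cur a b P₀) Q p * g * Q ^ (N + n) := by
    rw [key2]
    exact Dvd.intro_left (Q ^ p.natDegree * fib (cur a b P₀) Q q * s) (by ring)
  have hprime := hπ.prime
  rcases hprime.dvd_or_dvd hdvd with h1 | h1
  · rcases hprime.dvd_or_dvd h1 with h2 | h2
    · rcases hprime.dvd_or_dvd h2 with h3 | h3
      · exact Or.inl (hprime.dvd_of_dvd_pow h3)
      · right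
        obtain ⟨f, hf, hfd⟩ := exists_irr hπ h.hQ0 p hp h3
        have hfi := fib_irr (le_trans (by norm_num) h.ha) (le_trans (by norm_num) h.hb) h.hab
          h.hP h.hQ h.hQ0 hf
        have has : Associated π (fib (cur a b P₀) Q f) := hπ.associated_of_dvd hfi hfd
        refine ⟨f.natDegree, ?_⟩
        have h4 : Associated (io (cur a b P₀) Q w π) (io (cur a b P₀) Q w (fib (cur a b P₀) Q f)) :=
          has.map _
        have hf0 : aeval w f ≠ 0 := by
          intro h0
          exact h.hw ⟨f, hf.ne_zero, h0⟩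
        have hu : IsUnit (AdjoinRoot.of (mem (cur a b P₀) Q w) (C (aeval w f))) :=
          ((isUnit_iff_ne_zero.2 hf0).map C).map _
        have h5 : Associated (io (cur a b P₀) Q w (fib (cur a b P₀) Q f))
            (io (cur a b P₀) Q w Q ^ f.natDegree) := by
          rw [io_fib]
          exact (associated_mul_unit_left _ _ hu)
        exact le_antisymm (Ideal.span_singleton_le_span_singleton.2 (h4.trans h5).symm.dvd)
          (Ideal.span_singleton_le_span_singleton.2 (h4.trans h5).dvd)
    · exact absurd h2 hg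
  · exact Or.inl (hprime.dvd_of_dvd_pow h1)

end Pool.Agent.T2H65.CP
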