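import Pool.Agent.T2H65.CP.EL

/-!
# Project CP, package BF: bounds for the numbers of the points in the fibres

First bound: `QA ≠ 0`; let `c ∈ A` be a nonzero coefficient of `QA` (of some monomial `x^i y^j`). If `ψ c ≠ 0`, then the reduction
`Q_ψ ∈ F[x][y]` is not zero: for all `x` but at most `deg_x Q` ones the polynomial `Q_ψ(x, ·)` is nonzero, of degree `≤ deg_y Q`, so
`#{Q_ψ = 0} ≤ (deg_x Q + deg_y Q) q` (the coefficient of `y^j` is a nonzero polynomial in `x`).
Second bound: `elimA`: `u PA + v QA = C r`, `0 ≠ r ∈ A[x]`; let `ψ (leading coefficient of r) ≠ 0`: then `x` is a root of `r_ψ ≠ 0` for every common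
zero `(x, y)`, and `P_ψ (x, ·)` is monic of degree `deg_y P`: at most `deg r · deg_y P` common zeros.
`s0` = the product of the two elements.
-/

set_option autoImplicit false

open Polynomial

namespace Pool.Agent.T2H65.CP

theorem BF_root {F : Type} [Field F] [Fintype F] [DecidableEq F] {p : F[X]} (hp : p ≠ 0) :
    (Finset.univ.filter (fun x => p.eval x = 0)).card ≤ p.natDegree := by
  have h1 : Finset.univ.filter (fun x => p.eval x = 0) ⊆ p.roots.toFinset := by
    intro x hx
    rw [Multiset.mem_toFinset, mem_roots hp]
    exact (Finset.mem_filter.1 hx).2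
  exact (Finset.card_le_card h1).trans ((Multiset.toFinset_card_le _).trans (card_roots' p))

theorem BF_pairs {F : Type} [Fintype F] (S : F → F → Prop) [∀ x y, Decidable (S x y)] :
    Nat.card {z : F × F // S z.1 z.2} = ∑ x, (Finset.univ.filter (S x)).card := by
  rw [Nat.card_eq_fintype_card, Fintype.card_subtype, Finset.card_filter, ← Finset.univ_product_univ,
    Finset.sum_product]
  simp only [Finset.card_filter]

theorem BF_one {F : Type} [Field F] [Finite F] {q : F[X][X]} {j : ℕ} (hj : q.coeff j ≠ 0) :
    Nat.card {z : F × F // evalEval z.1 z.2 q = 0} ≤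
      ((q.coeff j).natDegree + q.natDegree) * Nat.card F := by
  classical
  have := Fintype.ofFinite F
  rw [BF_pairs (fun x y => evalEval x y q = 0)]
  calc _ ≤ ∑ x : F, ((if (q.coeff j).eval x = 0 then Nat.card F else 0) + q.natDegree) := by
        apply Finset.sum_le_sum
        intro x _
        split_ifs with h
        · exact le_add_right (by rw [Nat.card_eq_fintype_card]; exact Finset.card_le_univ _)
        · rw [zero_add]
          have h1 : q.map (evalRingHom x) ≠ 0 := by
            intro h2
            apply h
            have h3 := congrArg (fun p => p.coeff j) h2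
            simpa using h3
          calc _ = (Finset.univ.filter (fun y => (q.map (evalRingHom x)).eval y = 0)).card := by
                simp only [map_evalRingHom_eval]
            _ ≤ _ := BF_root h1
            _ ≤ _ := natDegree_map_le
    _ = (Finset.univ.filter (fun x => (q.coeff j).eval x = 0)).card * Nat.card F +
          q.natDegree * Nat.card F := by
        rw [Finset.sum_add_distrib, ← Finset.sum_filter, Finset.sum_const, Finset.sum_const, smul_eq_mul,
          smul_eq_mul, Finset.card_univ, Nat.card_eq_fintype_card, mul_comm q.natDegree]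
    _ ≤ _ := by
        rw [add_mul]
        exact Nat.add_le_add_right (Nat.mul_le_mul_right _ (BF_root hj)) _

theorem BF_two {F : Type} [Field F] [Finite F] {p q u v : F[X][X]} {r : F[X]} (hp : p.Monic)
    (hr : r ≠ 0) (h : u * p + v * q = C r) :
    Nat.card {z : F × F // evalEval z.1 z.2 p = 0 ∧ evalEval z.1 z.2 q = 0} ≤
      r.natDegree * p.natDegree := by
  classical
  have := Fintype.ofFinite F
  rw [BF_pairs (fun x y => evalEval x y p = 0 ∧ evalEval x y q = 0)]
  calc _ ≤ ∑ x : F, (if r.eval x = 0 then p.natDegree else 0) := by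
        apply Finset.sum_le_sum
        intro x _
        split_ifs with hx
        · have h1 : (p.map (evalRingHom x)) ≠ 0 := (hp.map _).ne_zero
          refine (Finset.card_le_card ?_).trans ((BF_root h1).trans natDegree_map_le)
          intro y hy
          rw [Finset.mem_filter] at hy ⊢
          refine ⟨hy.1, ?_⟩
          rw [map_evalRingHom_eval]
          exact hy.2.1
        · rw [Nat.le_zero, Finset.card_eq_zero, Finset.filter_eq_empty_iff]
          intro y _ hy
          apply hx
          have h2 := congrArg (evalEval x y) h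
          rw [evalEval_add, evalEval_mul, evalEval_mul, hy.1, hy.2, mul_zero, mul_zero, add_zero,
            evalEval_C] at h2
          exact h2.symm
    _ = (Finset.univ.filter (fun x => r.eval x = 0)).card * p.natDegree := by
        rw [← Finset.sum_filter, Finset.sum_const, smul_eq_mul]
    _ ≤ _ := Nat.mul_le_mul_right _ (BF_root hr)

theorem fib_bounds {A L : Type} [CommRing A] [IsDomain A] [Field L] [Algebra A L] [IsFractionRing A L]
    {P Q : A[X][X]} (hP : P.Monic) (hirr : Irreducible (mm A L P)) (hQ : Q ≠ 0) (hd : Q.degree < P.degree) :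
    ∃ (s0 : A) (c : ℝ), s0 ≠ 0 ∧ 0 ≤ c ∧ ∀ (F : Type) [Field F] [Finite F] (ψ : A →+* F), ψ s0 ≠ 0 →
      (Nat.card {z : F × F // evalEval z.1 z.2 (mapRingHom (mapRingHom ψ) Q) = 0} : ℝ) ≤ c * Nat.card F ∧
      (Nat.card {z : F × F // evalEval z.1 z.2 (mapRingHom (mapRingHom ψ) P) = 0 ∧
        evalEval z.1 z.2 (mapRingHom (mapRingHom ψ) Q) = 0} : ℝ) ≤ c := by
  obtain ⟨u, v, r, hr, h⟩ := elimA (L := L) hP hirr hQ hd
  refine ⟨Q.leadingCoeff.leadingCoeff * r.leadingCoeff,
    ((Q.leadingCoeff.natDegree + Q.natDegree + r.natDegree * P.natDegree : ℕ) : ℝ),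
    mul_ne_zero (leadingCoeff_ne_zero.2 (leadingCoeff_ne_zero.2 hQ)) (leadingCoeff_ne_zero.2 hr),
    Nat.cast_nonneg _, ?_⟩
  intro F _ _ ψ hψ
  rw [map_mul] at hψ
  have hψ1 := left_ne_zero_of_mul hψ
  have hψ2 := right_ne_zero_of_mul hψ
  constructor
  · have h1 : (mapRingHom (mapRingHom ψ) Q).coeff Q.natDegree ≠ 0 := by
      intro h2
      apply hψ1
      have h3 := congrArg (fun p => p.coeff Q.leadingCoeff.natDegree) h2
      rw [coe_mapRingHom, coeff_map, coe_mapRingHom] at h3
      simpa using h3
    have h2 := BF_one h1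
    have h3 : ((mapRingHom (mapRingHom ψ) Q).coeff Q.natDegree).natDegree ≤
        Q.leadingCoeff.natDegree := by
      rw [coe_mapRingHom, coeff_map, coe_mapRingHom]
      exact natDegree_map_le
    have h4 : (mapRingHom (mapRingHom ψ) Q).natDegree ≤ Q.natDegree := by
      rw [coe_mapRingHom]
      exact natDegree_map_le
    rw [← Nat.cast_mul]
    apply Nat.cast_le.2
    refine h2.trans (Nat.mul_le_mul_right _ ?_)
    omega
  · have h1 : mapRingHom ψ r ≠ 0 := by
      intro h2
      apply hψ2
      have h3 := congrArg (fun p => p.coeff r.natDegree) h2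
      rw [coe_mapRingHom, coeff_map] at h3
      simpa using h3
    have h2 : mapRingHom (mapRingHom ψ) u * mapRingHom (mapRingHom ψ) P +
        mapRingHom (mapRingHom ψ) v * mapRingHom (mapRingHom ψ) Q = C (mapRingHom ψ r) := by
      rw [← map_mul, ← map_mul, ← map_add, h, coe_mapRingHom, Polynomial.map_C]
    have h3 := BF_two (hP.map _) h1 h2
    have h4 : (mapRingHom ψ r).natDegree ≤ r.natDegree := by
      rw [coe_mapRingHom]
      exact natDegree_map_le
    have h5 : (P.map (mapRingHom ψ)).natDegree ≤ P.natDegree := natDegree_map_le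
    apply Nat.cast_le.2
    refine h3.trans ((Nat.mul_le_mul h4 h5).trans ?_)
    omega

end Pool.Agent.T2H65.CP
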