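import Pool.Agent.T2H65.CP.Defs

/-!
# Project CP, package CN1: cutting out by prime ideals

`I = span (T)` in the noetherian ring `M[x, y]`, `J` = its preimage in `A[x, y]`, a finitely generated ideal. For `f ∈ J` there is
`0 ≠ s ∈ A` with `C (C s) f ∈ span T` in `A[x, y]` (write `mm f = ∑ c_t mm t`, clear the denominators of all `c_t`; `mm A M` is
injective). So there is one `s0 ≠ 0` with `C (C s0) J ≤ span T`.
Let `φ (s0) ≠ 0`. If `φ` kills `T`, then `φ` kills `J`, i.e. `J ≤ ker φ`, a prime ideal, so a minimal prime of `J` is contained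
in `ker φ`; it is the preimage of a minimal prime of `I` (`Ideal.exists_minimalPrimes_comap_eq`). (helper70)
-/

set_option autoImplicit false

open Polynomial

namespace Pool.Agent.T2H65.CP

section
variable {A M : Type} [CommRing A] [IsDomain A] [Field M] [Algebra A M] [IsFractionRing A M]

/-- clearing the denominators of a polynomial in two variables -/
theorem cn1_den2 (c : M[X][X]) : ∃ s : A, s ≠ 0 ∧ ∃ c' : A[X][X],
    mm A M c' = mm A M (C (C s)) * c := by
  induction c using Polynomial.induction_on' with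
  | add p q hp hq =>
    obtain ⟨s, hs, p', hp'⟩ := hp
    obtain ⟨t, ht, q', hq'⟩ := hq
    refine ⟨s * t, mul_ne_zero hs ht, C (C t) * p' + C (C s) * q', ?_⟩
    rw [map_add, map_mul, map_mul, hp', hq', C_mul, C_mul, map_mul]
    ring
  | monomial n p =>
    obtain ⟨b, hb0, hb⟩ := IsLocalization.integerNormalization_spec (nonZeroDivisors A) p
    refine ⟨b, nonZeroDivisors.ne_zero hb0,
      monomial n (IsLocalization.integerNormalization (nonZeroDivisors A) p), ?_⟩
    have h1 : mm A M (monomial n (IsLocalization.integerNormalization (nonZeroDivisors A) p)) =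
        monomial n ((IsLocalization.integerNormalization (nonZeroDivisors A) p).map
          (algebraMap A M)) := by
      unfold mm
      rw [coe_mapRingHom, Polynomial.map_monomial, coe_mapRingHom]
    have h2 : mm A M (C (C b)) = C (C (algebraMap A M b)) := by
      unfold mm
      rw [coe_mapRingHom, Polynomial.map_C, coe_mapRingHom, Polynomial.map_C]
    rw [h1, h2, hb, Polynomial.C_mul_monomial]
    congr 1
    rw [← Polynomial.smul_eq_C_mul, algebraMap_smul]

omit [IsDomain A] in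
theorem cn1_inj : Function.Injective (mm A M) := by
  unfold mm
  rw [coe_mapRingHom]
  refine Polynomial.map_injective _ ?_
  rw [coe_mapRingHom]
  exact Polynomial.map_injective _ (IsFractionRing.injective A M)

theorem cn1_clear (T : Set A[X][X]) {f : A[X][X]} (hf : mm A M f ∈ Ideal.span (mm A M '' T)) :
    ∃ s : A, s ≠ 0 ∧ C (C s) * f ∈ Ideal.span T := by
  have key : ∀ g ∈ Ideal.span (mm A M '' T), ∃ s : A, s ≠ 0 ∧ ∃ f' ∈ Ideal.span T,
      mm A M (C (C s)) * g = mm A M f' := by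
    intro g hg
    induction hg using Submodule.span_induction with
    | mem x hx =>
      obtain ⟨t, ht, rfl⟩ := hx
      exact ⟨1, one_ne_zero, t, Ideal.subset_span ht, by simp⟩
    | zero => exact ⟨1, one_ne_zero, 0, Ideal.zero_mem _, by simp⟩
    | add x y _ _ hx hy =>
      obtain ⟨s, hs, f1, h1, h2⟩ := hx
      obtain ⟨t, ht, f2, h3, h4⟩ := hy
      refine ⟨s * t, mul_ne_zero hs ht, C (C t) * f1 + C (C s) * f2,
        Ideal.add_mem _ (Ideal.mul_mem_left _ _ h1) (Ideal.mul_mem_left _ _ h3), ?_⟩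
      simp only [map_add, map_mul] at h2 h4 ⊢
      rw [← h2, ← h4]
      ring
    | smul c x _ hx =>
      obtain ⟨s, hs, f1, h1, h2⟩ := hx
      obtain ⟨t, ht, c', hc'⟩ := cn1_den2 (A := A) c
      refine ⟨s * t, mul_ne_zero hs ht, c' * f1, Ideal.mul_mem_left _ _ h1, ?_⟩
      simp only [map_mul, smul_eq_mul] at h2 hc' ⊢
      rw [hc', ← h2]
      ring
  obtain ⟨s, hs, f', h1, h2⟩ := key _ hf
  refine ⟨s, hs, ?_⟩
  rw [← map_mul] at h2
  rw [cn1_inj h2]
  exact h1

end

theorem cut {A M : Type} [CommRing A] [IsDomain A] [IsNoetherianRing A] [Field M] [Algebra A M]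
    [IsFractionRing A M] (T : Finset A[X][X]) :
    ∃ s0 : A, s0 ≠ 0 ∧ ∀ (F : Type) [Field F] (φ : A[X][X] →+* F), φ (C (C s0)) ≠ 0 →
      ((∀ f ∈ T, φ f = 0) ↔ ∃ 𝔓 ∈ (Ideal.span (mm A M '' (T : Set A[X][X]))).minimalPrimes,
        𝔓.comap (mm A M) ≤ RingHom.ker φ) := by
  classical
  obtain ⟨I, hI⟩ : ∃ I, I = Ideal.span (mm A M '' (T : Set A[X][X])) := ⟨_, rfl⟩
  obtain ⟨J, hJ⟩ : ∃ J, J = I.comap (mm A M) := ⟨_, rfl⟩
  obtain ⟨G, hG⟩ : J.FG := (inferInstance : IsNoetherianRing A[X][X]).noetherian J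
  have h1 : ∀ G' : Finset A[X][X], G' ⊆ G → ∃ s : A, s ≠ 0 ∧ ∀ g ∈ G', C (C s) * g ∈
      Ideal.span (T : Set A[X][X]) := by
    intro G'
    induction G' using Finset.induction_on with
    | empty => intro _; exact ⟨1, one_ne_zero, by simp⟩
    | insert g G'' _ ih =>
      intro hsub
      obtain ⟨s, hs, hs'⟩ := ih fun x hx => hsub (Finset.mem_insert_of_mem hx)
      have hg : g ∈ J := by
        rw [← hG]
        exact Ideal.subset_span (hsub (Finset.mem_insert_self _ _))
      rw [hJ, Ideal.mem_comap, hI] at hg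
      obtain ⟨t, ht, ht'⟩ := cn1_clear (T : Set A[X][X]) hg
      refine ⟨s * t, mul_ne_zero hs ht, fun x hx => ?_⟩
      rw [C_mul, C_mul]
      rcases Finset.mem_insert.1 hx with rfl | hx
      · rw [mul_assoc]
        exact Ideal.mul_mem_left _ _ ht'
      · rw [mul_comm (C (C s)), mul_assoc]
        exact Ideal.mul_mem_left _ _ (hs' x hx)
  obtain ⟨s0, hs0, hs1⟩ := h1 G (Finset.Subset.refl _)
  refine ⟨s0, hs0, fun F _ φ hφ => ⟨fun hT => ?_, fun hT f hf => ?_⟩⟩
  · have h2 : Ideal.span (T : Set A[X][X]) ≤ RingHom.ker φ := by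
      rw [Ideal.span_le]
      intro f hf
      exact hT f hf
    have h3 : J ≤ RingHom.ker φ := by
      rw [← hG]
      refine Ideal.span_le.2 fun g hg => ?_
      have h4 := h2 (hs1 g hg)
      rw [RingHom.mem_ker, map_mul] at h4
      exact (mul_eq_zero.1 h4).resolve_left hφ
    have : (RingHom.ker φ).IsPrime := RingHom.ker_isPrime φ
    obtain ⟨p, hp, hple⟩ := Ideal.exists_minimalPrimes_le h3
    rw [hJ] at hp
    obtain ⟨𝔓, h𝔓, hc⟩ := Ideal.exists_minimalPrimes_comap_eq (mm A M) p hp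
    rw [hI] at h𝔓
    exact ⟨𝔓, h𝔓, by rw [hc]; exact hple⟩
  · obtain ⟨𝔓, h𝔓, hle⟩ := hT
    have h2 : mm A M f ∈ 𝔓 := h𝔓.1.2 (Ideal.subset_span ⟨f, hf, rfl⟩)
    exact hle (Ideal.mem_comap.2 h2)

end Pool.Agent.T2H65.CP
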