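import Pool.Agent.T2H65.CP.Defs
import Pool.Agent.R410.NG.Asy

/-!
# Project CP, package CN2: the number of the homomorphisms which factor through `A[x, y]/(𝔓 ∩ A[x, y])`

Let `S = M[x, y]/𝔓`, `S₀ = A[x, y]/𝔓.comap (mm A M)`: `S₀ → S` is injective (`Ideal.quotientMap`), `S₀` is a finitely generated domain over
`ℤ`. Let `K = FractionRing S`: of characteristic 0, finitely generated (generated by `M`, `x`, `y`: `FG M` is a hypothesis), and
`trdeg ℚ K = trdeg ℚ M + trdeg M S = d + e` (`Algebra.trdeg_add_eq`/`trdeg_add_eq`, see `trdeg_line` in R410/NG/CBr.lean and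
`trdeg_adj` in R410/NG/Adj.lean; the field of fractions is algebraic over `S`), and `K` is the field of fractions of `S₀` (every
element of `S` is a quotient; `Pool.Agent.R410.LW.frac_of_closure` in R410/LW/Fg.lean; templates `jA_frac`, `fg_adj` in
R410/NG/Adj.lean; `Pool.Agent.R410.LW.ft_int` if the instance of finite type is not found).
`asy_prime`: `Pool.Agent.R410.BS.landau_all` (R410/BS/Pln.lean) for `K`, `S₀` and `u` = the class of `C (C s)`, which is not zero (a unit of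
`M[x, y]` is not in `𝔓`), as in `asy_hom` in R410/NG/Asy.lean; the homomorphisms `A[x, y] → F` which kill `𝔓.comap` are the
homomorphisms `S₀ → F` (`Ideal.Quotient.lift`).
`small_prime`: `Pool.Agent.R410.BS.good_le` (R410/BS/Cod2.lean) for `S₀`, `K`, and the class of `u`, which is not zero.
-/

set_option autoImplicit false

open Polynomial NumberField

namespace Pool.Agent.T2H65.CP

open Pool.Agent.R410.NG (Asy)
open Pool.Agent.R410.LW (FG frac_of_closure ft_int)
open Pool.Agent.R410.BS (cF landau_all good_le)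

section
variable {M S K : Type} [Field M] [CommRing S] [IsDomain S] [Algebra M S] [Field K] [Algebra S K]
  [IsFractionRing S K]

theorem trdeg_frac [CharZero M] [CharZero K] [Algebra M K] [IsScalarTower M S K] {d e : ℕ}
    (hd : Algebra.trdeg ℚ M = d) (he : Algebra.trdeg M S = e) : Algebra.trdeg ℚ K = (d + e : ℕ) := by
  have ht : IsScalarTower ℚ M K := IsScalarTower.of_algebraMap_eq' (Subsingleton.elim _ _)
  have hf : FaithfulSMul S K := (faithfulSMul_iff_algebraMap_injective S K).2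
    (IsFractionRing.injective S K)
  have h1 := trdeg_add_eq ℚ M (A := K)
  have h2 := trdeg_add_eq M S (A := K)
  have h4 : Algebra.IsAlgebraic S K :=
    (IsFractionRing.comap_isAlgebraic_iff (A := S) (K := K) (C := K)).2 inferInstance
  have h3 : Algebra.trdeg S K = 0 := trdeg_eq_zero
  rw [h3, add_zero, he] at h2
  rw [← h2, hd] at h1
  rw [← h1]
  push_cast
  rfl

variable {B : Type} [CommRing B] (θ : B →+* S) (hθ : Function.Surjective θ)

omit [IsDomain S] in
include hθ in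
theorem top_of (Cf : Subfield K) (h : ∀ b : B, algebraMap S K (θ b) ∈ Cf) : Cf = ⊤ := by
  rw [eq_top_iff]
  intro z _
  obtain ⟨x, y, -, rfl⟩ := IsFractionRing.div_surjective (A := S) z
  obtain ⟨x, rfl⟩ := hθ x
  obtain ⟨y, rfl⟩ := hθ y
  exact div_mem (h x) (h y)

end

section
variable {M K : Type} [Field M] [Field K] (κ : M[X][X] →+* K)

theorem all_mem (Cf : Subfield K) (h1 : ∀ c : M, κ (C (C c)) ∈ Cf) (h2 : κ (C X) ∈ Cf)
    (h3 : κ X ∈ Cf) : ∀ f, κ f ∈ Cf := by
  have hp : ∀ p : M[X], κ (C p) ∈ Cf := by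
    intro p
    induction p using Polynomial.induction_on' with
    | add p q hp hq => rw [map_add, map_add]; exact add_mem hp hq
    | monomial n a =>
      rw [← C_mul_X_pow_eq_monomial, map_mul, map_pow, map_mul, map_pow]
      exact mul_mem (h1 a) (pow_mem h2 n)
  intro f
  induction f using Polynomial.induction_on' with
  | add p q hp hq => rw [map_add]; exact add_mem hp hq
  | monomial n a =>
    rw [← C_mul_X_pow_eq_monomial, map_mul, map_pow]
    exact mul_mem (hp a) (pow_mem h3 n)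

theorem fg_of (hM : FG M) (htop : ∀ Cf : Subfield K, (∀ f, κ f ∈ Cf) → Cf = ⊤) : FG K := by
  classical
  obtain ⟨S, hS⟩ := hM
  refine ⟨S.image (fun c => κ (C (C c))) ∪ {κ (C X), κ X}, htop _ (all_mem κ _ ?_ ?_ ?_)⟩
  · intro c
    have hc : c ∈ Subfield.closure (S : Set M) := by rw [hS]; trivial
    have h1 : Subfield.closure (S : Set M) ≤ (Subfield.closure
        ((S.image (fun c => κ (C (C c))) ∪ {κ (C X), κ X} : Finset K) :
          Set K)).comap (κ.comp (C.comp C)) := by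
      rw [Subfield.closure_le]
      intro s hs
      refine Subfield.subset_closure ?_
      rw [Finset.coe_union, Finset.coe_image]
      exact Or.inl ⟨s, hs, rfl⟩
    exact h1 hc
  · refine Subfield.subset_closure ?_
    simp
  · refine Subfield.subset_closure ?_
    simp

end

section
variable {M : Type} [Field M] (A : Type) [CommRing A] [Algebra A M]

theorem mm_CC (c : A) : mm A M (C (C c)) = C (C (algebraMap A M c)) := by
  unfold mm
  simp

theorem mm_CX : mm A M (C X) = C X := by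
  unfold mm
  simp

theorem mm_X : mm A M X = X := by
  unfold mm
  simp

theorem frac_of [IsDomain A] [IsFractionRing A M] {K S₀ : Type} [Field K] [CommRing S₀] [Algebra S₀ K]
    (κ : M[X][X] →+* K) (htop : ∀ Cf : Subfield K, (∀ f, κ f ∈ Cf) → Cf = ⊤)
    (hinj : Function.Injective (algebraMap S₀ K)) (h : ∀ f : A[X][X], ∃ z : S₀, algebraMap S₀ K z =
      κ (mm A M f)) : IsFractionRing S₀ K := by
  refine frac_of_closure (R := S₀) (M := K) hinj (htop _ (all_mem κ _ ?_ ?_ ?_))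
  · intro c
    obtain ⟨x, y, -, rfl⟩ := IsFractionRing.div_surjective (A := A) c
    have e : κ (C (C (algebraMap A M x / algebraMap A M y))) =
        κ (C (C (algebraMap A M x))) / κ (C (C (algebraMap A M y))) :=
      map_div₀ (κ.comp (C.comp C)) (algebraMap A M x) (algebraMap A M y)
    rw [e]
    obtain ⟨z, hz⟩ := h (C (C x))
    obtain ⟨w, hw⟩ := h (C (C y))
    rw [mm_CC] at hz hw
    exact div_mem (Subfield.subset_closure ⟨z, hz⟩) (Subfield.subset_closure ⟨w, hw⟩)
  · obtain ⟨z, hz⟩ := h (C X)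
    rw [mm_CX] at hz
    exact Subfield.subset_closure ⟨z, hz⟩
  · obtain ⟨z, hz⟩ := h X
    rw [mm_X] at hz
    exact Subfield.subset_closure ⟨z, hz⟩

end

section
variable {A₀ B : Type} [CommRing A₀] [CommRing B] (μ : A₀ →+* B) (𝔓 : Ideal B)

/-- the homomorphisms which factor -/
theorem card_hom (I : Ideal A₀) (F : Type) [Field F] (u : A₀) (p : F → Prop) :
    Nat.card {φ : A₀ →+* F // I ≤ RingHom.ker φ ∧ p (φ u)} =
      Nat.card {φ : A₀ ⧸ I →+* F // p (φ (Ideal.Quotient.mk _ u))} := by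
  have hk : ∀ φ : A₀ →+* F, I ≤ RingHom.ker φ → ∀ f ∈ I, φ f = 0 := fun φ h f hf => h hf
  refine Nat.card_congr
    { toFun := fun φ => ⟨Ideal.Quotient.lift _ φ.1 (hk φ.1 φ.2.1), by
        rw [Ideal.Quotient.lift_mk]; exact φ.2.2⟩
      invFun := fun φ => ⟨φ.1.comp (Ideal.Quotient.mk _), fun f hf => by
          rw [RingHom.mem_ker, RingHom.comp_apply, Ideal.Quotient.eq_zero_iff_mem.2 hf, map_zero], φ.2⟩
      left_inv := fun φ => Subtype.ext (RingHom.ext fun f => rfl)
      right_inv := fun φ => Subtype.ext (Ideal.Quotient.ringHom_ext (RingHom.ext fun f => rfl)) }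

theorem field_data' {M : Type} [Field M] [CharZero M] {d e : ℕ} (A : Type) [CommRing A] [IsDomain A]
    [Algebra A M] [IsFractionRing A M] {S₀ S : Type} [CommRing S₀] [CommRing S] [IsDomain S]
    [Algebra M S] (ι : S₀ →+* S) (hι : Function.Injective ι) (θ : M[X][X] →+* S)
    (hθ : Function.Surjective θ) (h : ∀ f : A[X][X], ∃ z : S₀, ι z = θ (mm A M f))
    (hM : FG M) (hd : Algebra.trdeg ℚ M = d) (he : Algebra.trdeg M S = e) :
    ∃ (K : Type) (_ : Field K) (_ : CharZero K) (_ : Algebra S₀ K),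
      IsFractionRing S₀ K ∧ FG K ∧ Algebra.trdeg ℚ K = (d + e : ℕ) := by
  have hinj : Function.Injective (algebraMap S (FractionRing S)) :=
    IsFractionRing.injective _ _
  have h0 : CharZero (FractionRing S) :=
    charZero_of_injective_algebraMap (algebraMap M (FractionRing S)).injective
  letI i1 : Algebra S₀ (FractionRing S) := ((algebraMap S (FractionRing S)).comp ι).toAlgebra
  have htop : ∀ Cf : Subfield (FractionRing S),
      (∀ f, ((algebraMap S (FractionRing S)).comp θ) f ∈ Cf) → Cf = ⊤ := by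
    intro Cf h
    exact top_of (S := S) (B := M[X][X]) θ hθ Cf h
  refine ⟨FractionRing S, inferInstance, h0, i1, ?_, fg_of _ hM htop, ?_⟩
  · refine frac_of A _ htop (hinj.comp hι) fun f => ?_
    obtain ⟨z, hz⟩ := h f
    refine ⟨z, ?_⟩
    rw [RingHom.algebraMap_toAlgebra, RingHom.comp_apply, RingHom.comp_apply, hz]
  · exact trdeg_frac (S := S) hd he

theorem field_data {M : Type} [Field M] [CharZero M] {d e : ℕ} (A : Type) [CommRing A] [IsDomain A]
    [Algebra A M] [IsFractionRing A M] (𝔓 : Ideal M[X][X])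
    (hM : FG M) (hd : Algebra.trdeg ℚ M = d) (hP : 𝔓.IsPrime)
    (he : Algebra.trdeg M (M[X][X] ⧸ 𝔓) = e) :
    ∃ (K : Type) (_ : Field K) (_ : CharZero K) (_ : Algebra (A[X][X] ⧸ 𝔓.comap (mm A M)) K),
      IsFractionRing (A[X][X] ⧸ 𝔓.comap (mm A M)) K ∧ FG K ∧ Algebra.trdeg ℚ K = (d + e : ℕ) :=
  field_data' A (Ideal.quotientMap 𝔓 (mm A M) le_rfl) Ideal.quotientMap_injective
    (Ideal.Quotient.mk 𝔓) Ideal.Quotient.mk_surjective (fun f => ⟨Ideal.Quotient.mk _ f, rfl⟩) hM hd he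

end

section
variable {B : Type} [CommRing B] [hB : Algebra.FiniteType ℤ B] (I : Ideal B) [hI : I.IsPrime]

include hB in
omit hI in
theorem ft_quot : @Algebra.FiniteType ℤ (B ⧸ I) _ _ (Ring.toIntAlgebra _) := by
  have h : @Algebra.FiniteType ℤ (B ⧸ I) _ _ (Ideal.instAlgebraQuotient ℤ I) :=
    Algebra.FiniteType.of_surjective (Ideal.Quotient.mkₐ ℤ I) Ideal.Quotient.mk_surjective
  exact ft_int _ h

theorem asy_quot {K : Type} [Field K] [CharZero K] [Algebra (B ⧸ I) K] (hfr : IsFractionRing (B ⧸ I) K)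
    (hfg : FG K) {n : ℕ} (htr : Algebra.trdeg ℚ K = n) {u : B} (hu : u ∉ I) :
    Asy (fun F _ _ => (Nat.card {φ : B →+* F // I ≤ RingHom.ker φ ∧ φ u ≠ 0} : ℝ)) n 1 := by
  have hdom : IsDomain (B ⧸ I) := Ideal.Quotient.isDomain _
  have hft := ft_quot I
  obtain ⟨L, iL, nL, hL⟩ := landau_all hfg htr
  have hu' : Ideal.Quotient.mk I u ≠ 0 := fun h => hu (Ideal.Quotient.eq_zero_iff_mem.1 h)
  obtain ⟨Cc, N, hC, hN, h⟩ := hL (B ⧸ I) _ hu'
  refine ⟨Unit, inferInstance, fun _ => L, fun _ => iL, fun _ => nL, fun _ => 1, by simp, Cc, N, hC,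
    hN, ?_⟩
  intro F _ _ hF
  have h1 := h F hF
  rw [← card_hom I F u (fun z => z ≠ 0)] at h1
  have h3 : cF (fun _ : Unit => L) (fun _ => 1) F = (Nat.card (𝓞 L →+* F) : ℝ) := by
    unfold cF
    simp
  rw [h3]
  exact h1

theorem small_quot {K : Type} [Field K] [CharZero K] [Algebra (B ⧸ I) K] (hfr : IsFractionRing (B ⧸ I) K)
    {n : ℕ} (htr : Algebra.trdeg ℚ K = n) {u : B} (hu : u ∉ I) :
    ∃ (c : ℝ) (N : ℕ), 0 ≤ c ∧ N ≠ 0 ∧ ∀ (F : Type) [Field F] [Finite F], ((N : ℕ) : F) ≠ 0 →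
      (Nat.card {φ : B →+* F // I ≤ RingHom.ker φ ∧ φ u = 0} : ℝ) * Nat.card F ≤
        c * (Nat.card F : ℝ) ^ n := by
  have hdom : IsDomain (B ⧸ I) := Ideal.Quotient.isDomain _
  have hft := ft_quot I
  have hu' : Ideal.Quotient.mk I u ≠ 0 := fun h => hu (Ideal.Quotient.eq_zero_iff_mem.1 h)
  obtain ⟨Cc, N, hC, hN, h⟩ := good_le (R := B ⧸ I) (K := K) (IsFractionRing.injective _ _) htr.le hu'
  refine ⟨Cc, N, hC, hN, ?_⟩
  intro F _ _ hF
  have h1 := (h F hF).2
  rw [← card_hom I F u (fun z => z = 0)] at h1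
  exact h1

end

section
variable {M : Type} [Field M] [CharZero M] {d e : ℕ} (A : Type) [CommRing A] [IsDomain A]
  [Algebra.FiniteType ℤ A] [Algebra A M] [IsFractionRing A M] (𝔓 : Ideal M[X][X])

theorem asy_prime (hM : FG M) (hd : Algebra.trdeg ℚ M = d) (hP : 𝔓.IsPrime)
    (he : Algebra.trdeg M (M[X][X] ⧸ 𝔓) = e) {s : A} (hs : s ≠ 0) :
    Asy (fun F _ _ => (Nat.card {φ : A[X][X] →+* F //
      𝔓.comap (mm A M) ≤ RingHom.ker φ ∧ φ (C (C s)) ≠ 0} : ℝ)) (d + e) 1 := by
  obtain ⟨K, iK, cK, aK, hfr, hfg, htr⟩ := field_data A 𝔓 hM hd hP he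
  have hp0 : (𝔓.comap (mm A M)).IsPrime := Ideal.IsPrime.comap _
  have hft : @Algebra.FiniteType ℤ A[X][X] _ _ (Ring.toIntAlgebra _) := ft_int _ inferInstance
  refine asy_quot (hB := hft) (𝔓.comap (mm A M)) hfr hfg htr fun h => ?_
  rw [Ideal.mem_comap, mm_CC] at h
  have h1 : IsUnit (C (C (algebraMap A M s)) : M[X][X]) := by
    refine (IsUnit.map C (IsUnit.map C (isUnit_iff_ne_zero.2 ?_)))
    exact fun h0 => hs ((map_eq_zero_iff _ (IsFractionRing.injective A M)).1 h0)
  exact hP.ne_top (Ideal.eq_top_of_isUnit_mem _ h h1)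

theorem small_prime (hM : FG M) (hd : Algebra.trdeg ℚ M = d) (hP : 𝔓.IsPrime)
    (he : Algebra.trdeg M (M[X][X] ⧸ 𝔓) = e) {u : A[X][X]} (hu : mm A M u ∉ 𝔓) :
    ∃ (c : ℝ) (N : ℕ), 0 ≤ c ∧ N ≠ 0 ∧ ∀ (F : Type) [Field F] [Finite F], ((N : ℕ) : F) ≠ 0 →
      (Nat.card {φ : A[X][X] →+* F // 𝔓.comap (mm A M) ≤ RingHom.ker φ ∧ φ u = 0} : ℝ) * Nat.card F ≤
        c * (Nat.card F : ℝ) ^ (d + e) := by
  obtain ⟨K, iK, cK, aK, hfr, hfg, htr⟩ := field_data A 𝔓 hM hd hP he
  have hp0 : (𝔓.comap (mm A M)).IsPrime := Ideal.IsPrime.comap _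
  have hft : @Algebra.FiniteType ℤ A[X][X] _ _ (Ring.toIntAlgebra _) := ft_int _ inferInstance
  exact small_quot (hB := hft) (𝔓.comap (mm A M)) hfr htr hu

end

end Pool.Agent.T2H65.CP
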