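import Pool.Agent.T2H65.CP.Defs

/-!
# Project CP, package CN3: the transcendence degrees

`trdeg_max`: `L[x, y]/𝔪` is a field, finitely generated as an `L`-algebra, so algebraic over `L` (Zariski's lemma).
`trdeg_prin`: `π` irreducible. If `deg_y π ≥ 1`: the quotient is algebraic over `L[x]`, which injects into it. If `deg_y π = 0`,
`π = C p`, `p ∈ L[x]` irreducible: the quotient is `(L[x]/p)[y]`. (helper70)
-/

set_option autoImplicit false

open Polynomial

namespace Pool.Agent.T2H65.CP

section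
variable {L : Type} [Field L]

theorem cn3_ft : Algebra.FiniteType L L[X][X] :=
  Algebra.FiniteType.trans (S := L[X]) inferInstance inferInstance

theorem cn3_field {k : Type} [Field k] [Algebra L k] [Algebra.FiniteType L k] :
    Algebra.trdeg L k = 0 := by
  have h3 : Module.Finite L k := finite_of_finite_type_of_isJacobsonRing L k
  have h4 : Algebra.IsAlgebraic L k := Algebra.IsAlgebraic.of_finite L k
  exact trdeg_eq_zero

theorem cn3_poly {k : Type} [Field k] [Algebra L k] [Algebra.FiniteType L k] :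
    Algebra.trdeg L k[X] = 1 := by
  rw [← trdeg_add_eq L k (A := k[X]), cn3_field, zero_add]
  exact Polynomial.trdeg_of_isDomain

theorem cn3_alg {D : Type} [CommRing D] [IsDomain D] [Algebra L D] [Algebra L[X] D]
    [IsScalarTower L L[X] D] (hinj : Function.Injective (algebraMap L[X] D)) (y : D)
    (hy : IsAlgebraic L[X] y) (hgen : ∀ z : D, ∃ f : L[X][X], z = aeval y f) :
    Algebra.trdeg L D = 1 := by
  have hf : FaithfulSMul L[X] D := (faithfulSMul_iff_algebraMap_injective _ _).2 hinj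
  have halg : Algebra.IsAlgebraic L[X] D := by
    refine ⟨fun z => ?_⟩
    obtain ⟨f, rfl⟩ := hgen z
    induction f using Polynomial.induction_on' with
    | add p q hp hq => rw [map_add]; exact hp.add hq
    | monomial n c =>
      rw [aeval_monomial]
      exact (isAlgebraic_algebraMap c).mul (hy.pow n)
  rw [← trdeg_add_eq L L[X] (A := D), Polynomial.trdeg_of_isDomain,
    trdeg_eq_zero, add_zero]

theorem trdeg_max {𝔪 : Ideal L[X][X]} (h : 𝔪.IsMaximal) : Algebra.trdeg L (L[X][X] ⧸ 𝔪) = 0 := by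
  let := Ideal.Quotient.field 𝔪
  have h1 : Algebra.FiniteType L L[X][X] := cn3_ft
  have h2 : Algebra.FiniteType L (L[X][X] ⧸ 𝔪) :=
    Algebra.FiniteType.of_surjective (Ideal.Quotient.mkₐ L 𝔪) (Ideal.Quotient.mkₐ_surjective L 𝔪)
  exact cn3_field

theorem cn3_zero {p : L[X]} (hpi : Irreducible p) :
    Algebra.trdeg L (L[X][X] ⧸ (Ideal.span {C p} : Ideal L[X][X])) = 1 := by
  have hmax : (Ideal.span {p} : Ideal L[X]).IsMaximal :=
    PrincipalIdealRing.isMaximal_of_irreducible hpi
  let := Ideal.Quotient.field (Ideal.span {p} : Ideal L[X])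
  have hfin : Algebra.FiniteType L (L[X] ⧸ (Ideal.span {p} : Ideal L[X])) :=
    Algebra.FiniteType.of_surjective (Ideal.Quotient.mkₐ L (Ideal.span {p} : Ideal L[X]))
      (Ideal.Quotient.mkₐ_surjective L _)
  have h6 : Algebra.trdeg L (L[X] ⧸ (Ideal.span {p} : Ideal L[X]))[X] = 1 := cn3_poly
  have h7 : (Ideal.span {C p} : Ideal L[X][X]) = Ideal.map C (Ideal.span {p}) := by
    rw [Ideal.map_span, Set.image_singleton]
  rw [h7, ← h6]
  let e := Ideal.polynomialQuotientEquivQuotientPolynomial (Ideal.span {p} : Ideal L[X])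
  refine (AlgEquiv.trdeg_eq (AlgEquiv.ofRingEquiv (f := e) fun r => ?_)).symm
  have h8 : (algebraMap L (L[X] ⧸ (Ideal.span {p} : Ideal L[X]))[X]) r =
      (C (C r) : L[X][X]).map (Ideal.Quotient.mk (Ideal.span {p})) := by
    rw [Polynomial.map_C]
    rfl
  rw [h8]
  exact Ideal.polynomialQuotientEquivQuotientPolynomial_map_mk _ _

theorem cn3_pos {π : L[X][X]} (h : Irreducible π) (hdeg : ¬ π.natDegree = 0) :
    Algebra.trdeg L (L[X][X] ⧸ (Ideal.span {π} : Ideal L[X][X])) = 1 := by
  have hprime : (Ideal.span {π} : Ideal L[X][X]).IsPrime :=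
    (Ideal.span_singleton_prime h.ne_zero).2 h.prime
  have hdom : IsDomain (L[X][X] ⧸ (Ideal.span {π} : Ideal L[X][X])) :=
    Ideal.Quotient.isDomain _
  have e1 : ∀ f : L[X][X], (aeval (R := L[X]) (Ideal.Quotient.mk (Ideal.span {π}) X)) f =
      Ideal.Quotient.mk (Ideal.span {π}) f := by
    intro f
    have h2 : (aeval (R := L[X]) (Ideal.Quotient.mk (Ideal.span {π}) X)) f =
        Ideal.Quotient.mkₐ L[X] (Ideal.span {π}) (aeval X f) := by
      rw [← Polynomial.aeval_algHom_apply]
      rfl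
    rw [h2, aeval_X_left_apply]
    rfl
  refine cn3_alg ?_ (Ideal.Quotient.mk (Ideal.span {π}) X) ?_ ?_
  · rw [injective_iff_map_eq_zero]
    intro q hq
    have h1 : C q ∈ (Ideal.span {π} : Ideal L[X][X]) := Ideal.Quotient.eq_zero_iff_mem.1 hq
    rw [Ideal.mem_span_singleton] at h1
    by_contra hq0
    have h2 := natDegree_le_of_dvd h1 (C_ne_zero.2 hq0)
    rw [natDegree_C] at h2
    omega
  · refine ⟨π, h.ne_zero, ?_⟩
    rw [e1]
    exact Ideal.Quotient.eq_zero_iff_mem.2 (Ideal.mem_span_singleton_self π)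
  · intro z
    obtain ⟨f, rfl⟩ := Ideal.Quotient.mk_surjective z
    exact ⟨f, (e1 f).symm⟩

theorem trdeg_prin {π : L[X][X]} (h : Irreducible π) :
    Algebra.trdeg L (L[X][X] ⧸ (Ideal.span {π} : Ideal L[X][X])) = 1 := by
  by_cases hdeg : π.natDegree = 0
  · obtain ⟨p, hp⟩ : ∃ p, π = C p := ⟨_, eq_C_of_natDegree_eq_zero hdeg⟩
    subst hp
    have hpi : Irreducible p := by
      refine ⟨fun hu => h.not_isUnit (hu.map C), fun a b hab => ?_⟩
      have h1 : C p = C a * C b := by rw [← C_mul, hab]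
      rcases h.isUnit_or_isUnit h1 with h2 | h2
      · exact Or.inl (isUnit_C.1 h2)
      · exact Or.inr (isUnit_C.1 h2)
    exact cn3_zero hpi
  · exact cn3_pos h hdeg

end

end Pool.Agent.T2H65.CP
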