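import Pool.Agent.T2H65.CP.CN1
import Pool.Agent.T2H65.CP.CN2

/-!
# Project CP, package CN4: the number of the zeros

`𝒫 = (span T).minimalPrimes` is finite; take `s0` from `cut`. Let `s0 ∣ s ≠ 0`. If `φ (C (C s)) ≠ 0`, then `φ (C (C s0)) ≠ 0`, so the set in the
statement is the union over `𝔓 ∈ 𝒫` of `H_𝔓 = {φ | 𝔓.comap ≤ ker φ, φ (s) ≠ 0}`, `Asy #H_𝔓 (d + e) 1` by `asy_prime`, and
`0 ≤ ∑_𝔓 #H_𝔓 - #(⋃ H_𝔓) ≤ ∑_{𝔓 ≠ 𝔓'} #(H_𝔓 ∩ H_𝔓')`. For `𝔓 ≠ 𝔓'` minimal, `𝔓' ⊄ 𝔓`; then also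
`𝔓'.comap (mm A M) ⊄ 𝔓.comap (mm A M)` (take `f ∈ 𝔓' ∖ 𝔓` and clear the denominators: `C (C s') f = mm u`, `u ∈ A[x, y]`, constants are
units in `M[x, y]`), so there is `u` in `𝔓'.comap` with `mm u ∉ 𝔓`, and `H_𝔓 ∩ H_𝔓' ⊆ {φ | 𝔓.comap ≤ ker φ, φ u = 0}`; by `small_prime`
its number times `q` is `≤ c q^(d+e)`, hence its number times `√q` is `≤ c q^(d+e)`. Use `Asy.sum` and `Asy.near` (R410/NG/Asy.lean). The set of
all `A[x, y] →+* F` is finite for finite `F` (`inferInstance`, `A[x, y]` is of finite type over `ℤ`).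
-/

set_option autoImplicit false

open Polynomial

namespace Pool.Agent.T2H65.CP

open Pool.Agent.R410.NG (Asy)
open Pool.Agent.R410.LW (FG)

/-- inclusion-exclusion, the first two terms -/
theorem CN4_incl {Φ ι : Type} [Finite Φ] [DecidableEq ι] (s : Finset ι) (S : ι → Φ → Prop) :
    Nat.card {φ // ∃ i ∈ s, S i φ} ≤ ∑ i ∈ s, Nat.card {φ // S i φ} ∧
    ∑ i ∈ s, Nat.card {φ // S i φ} ≤ Nat.card {φ // ∃ i ∈ s, S i φ} +
      ∑ p ∈ s.offDiag, Nat.card {φ // S p.1 φ ∧ S p.2 φ} := by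
  classical
  have := Fintype.ofFinite Φ
  have hc : ∀ p : Φ → Prop, Nat.card {φ // p φ} = ∑ φ, if p φ then 1 else 0 := by
    intro p
    rw [Nat.card_eq_fintype_card, Fintype.card_subtype, Finset.card_filter]
  simp only [hc]
  rw [Finset.sum_comm, Finset.sum_comm (s := s.offDiag), ← Finset.sum_add_distrib]
  constructor
  · apply Finset.sum_le_sum
    intro φ _
    split_ifs with h
    · obtain ⟨i, hi, hS⟩ := h
      calc 1 = if S i φ then 1 else 0 := by rw [if_pos hS]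
        _ ≤ _ := Finset.single_le_sum (f := fun i => if S i φ then 1 else 0)
          (fun _ _ => Nat.zero_le _) hi
    · exact Nat.zero_le _
  · apply Finset.sum_le_sum
    intro φ _
    have h1 : ∑ i ∈ s, (if S i φ then 1 else 0) = (s.filter (fun i => S i φ)).card :=
      (Finset.card_filter _ _).symm
    have h2 : (s.filter (fun i => S i φ)).offDiag.card ≤
        ∑ p ∈ s.offDiag, (if S p.1 φ ∧ S p.2 φ then 1 else 0) := by
      refine le_trans ?_ (Finset.card_filter (fun p : ι × ι => S p.1 φ ∧ S p.2 φ) s.offDiag).le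
      apply Finset.card_le_card
      intro p hp
      rw [Finset.mem_offDiag, Finset.mem_filter, Finset.mem_filter] at hp
      rw [Finset.mem_filter, Finset.mem_offDiag]
      exact ⟨⟨hp.1.1, hp.2.1.1, hp.2.2⟩, hp.1.2, hp.2.1.2⟩
    have h5 : ∑ p ∈ s.offDiag, (if S p.1 φ ∧ S p.2 φ then 1 else 0) =
        ∑ p ∈ s.offDiag, @ite ℕ (S p.1 φ ∧ S p.2 φ) (Classical.propDecidable _) 1 0 :=
      Finset.sum_congr rfl fun p _ => by congr
    rw [Finset.offDiag_card, h5] at h2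
    rw [h1]
    generalize hm : (s.filter (fun i => S i φ)).card = m at h2
    by_cases h3 : ∃ i ∈ s, S i φ
    · rw [if_pos h3]
      have h4 : m ≤ 1 + (m * m - m) := by
        rcases Nat.lt_or_ge m 2 with h5 | h5
        · omega
        · have : 2 * m ≤ m * m := Nat.mul_le_mul_right m h5
          omega
      omega
    · have h4 : m = 0 := by
        rw [← hm, Finset.card_eq_zero, Finset.filter_eq_empty_iff]
        intro i hi hS
        exact h3 ⟨i, hi, hS⟩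
      rw [h4]
      exact Nat.zero_le _

theorem CN4_fin (A F : Type) [CommRing A] [Algebra.FiniteType ℤ A] [Field F] [Finite F] :
    Finite (A[X][X] →+* F) := by
  have h0 : Finite (A →+* F) := inferInstance
  refine Finite.of_injective (fun φ : A[X][X] →+* F =>
    ((φ.comp ((C : A[X] →+* A[X][X]).comp C), φ (C X), φ X) : (A →+* F) × F × F)) ?_
  intro φ ψ h
  rw [Prod.mk.injEq, Prod.mk.injEq] at h
  obtain ⟨h1, h2, h3⟩ := h
  refine Polynomial.ringHom_ext' (Polynomial.ringHom_ext' ?_ ?_) h3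
  · exact h1
  · exact h2

/-- clearing the denominators -/
theorem CN4_clear {A M : Type} [CommRing A] [IsDomain A] [Field M] [Algebra A M] [IsFractionRing A M]
    (f : M[X][X]) : ∃ (s : A) (u : A[X][X]), s ≠ 0 ∧ mm A M u = C (C (algebraMap A M s)) * f := by
  induction f using Polynomial.induction_on' with
  | add p q hp hq =>
    obtain ⟨s, u, hs, hu⟩ := hp
    obtain ⟨t, v, ht, hv⟩ := hq
    refine ⟨s * t, C (C t) * u + C (C s) * v, mul_ne_zero hs ht, ?_⟩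
    rw [map_add, map_mul, map_mul, hu, hv]
    unfold mm
    simp only [coe_mapRingHom, Polynomial.map_C, map_mul]
    ring
  | monomial k p =>
    induction p using Polynomial.induction_on' with
    | add p q hp hq =>
      obtain ⟨s, u, hs, hu⟩ := hp
      obtain ⟨t, v, ht, hv⟩ := hq
      refine ⟨s * t, C (C t) * u + C (C s) * v, mul_ne_zero hs ht, ?_⟩
      rw [map_add, map_mul, map_mul, hu, hv, map_add]
      unfold mm
      simp only [coe_mapRingHom, Polynomial.map_C, map_mul]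
      ring
    | monomial i c =>
      obtain ⟨x, y, hy, rfl⟩ := IsFractionRing.div_surjective (A := A) c
      have hy0 : y ≠ 0 := nonZeroDivisors.ne_zero hy
      have hy1 : algebraMap A M y ≠ 0 := by
        rw [Ne, IsFractionRing.to_map_eq_zero_iff]
        exact hy0
      refine ⟨y, monomial k (monomial i x), hy0, ?_⟩
      unfold mm
      rw [coe_mapRingHom, Polynomial.map_monomial, coe_mapRingHom, Polynomial.map_monomial,
        C_mul_monomial, C_mul_monomial, mul_div_cancel₀ _ hy1]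

theorem CN4_sep {A M : Type} [CommRing A] [IsDomain A] [Field M] [Algebra A M] [IsFractionRing A M]
    {I 𝔓 𝔔 : Ideal M[X][X]} (h1 : 𝔓 ∈ I.minimalPrimes) (h2 : 𝔔 ∈ I.minimalPrimes) (hne : 𝔓 ≠ 𝔔) :
    ∃ u : A[X][X], u ∈ 𝔔.comap (mm A M) ∧ mm A M u ∉ 𝔓 := by
  have h3 : ¬ 𝔔 ≤ 𝔓 := fun h => hne (le_antisymm (h1.2 h2.1 h) h)
  obtain ⟨f, hf, hf'⟩ := SetLike.not_le_iff_exists.1 h3
  obtain ⟨s, u, hs, hu⟩ := CN4_clear (A := A) f
  refine ⟨u, ?_, ?_⟩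
  · rw [Ideal.mem_comap, hu]
    exact Ideal.mul_mem_left _ _ hf
  · rw [hu]
    intro h
    rcases h1.1.1.mem_or_mem h with h4 | h4
    · have h5 : algebraMap A M s ≠ 0 := by
        rw [Ne, IsFractionRing.to_map_eq_zero_iff]
        exact hs
      have h6 : IsUnit (C (C (algebraMap A M s)) : M[X][X]) :=
        isUnit_C.2 (isUnit_C.2 (isUnit_iff_ne_zero.2 h5))
      exact h1.1.1.ne_top (Ideal.eq_top_of_isUnit_mem _ h4 h6)
    · exact hf' h4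

theorem asy_zeros {M : Type} [Field M] [CharZero M] (hM : FG M) {d : ℕ} (hd : Algebra.trdeg ℚ M = d)
    (A : Type) [CommRing A] [IsDomain A] [Algebra.FiniteType ℤ A] [Algebra A M] [IsFractionRing A M]
    (T : Finset A[X][X]) {e : ℕ}
    (he : ∀ 𝔓 ∈ (Ideal.span (mm A M '' (T : Set A[X][X]))).minimalPrimes,
      Algebra.trdeg M (M[X][X] ⧸ 𝔓) = e) :
    ∃ s0 : A, s0 ≠ 0 ∧ ∀ s : A, s ≠ 0 → s0 ∣ s →
      Asy (fun F _ _ => (Nat.card {φ : A[X][X] →+* F // (∀ f ∈ T, φ f = 0) ∧ φ (C (C s)) ≠ 0} : ℝ)) (d + e)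
        (Nat.card (Ideal.span (mm A M '' (T : Set A[X][X]))).minimalPrimes) := by
  classical
  have : IsNoetherianRing A := Algebra.FiniteType.isNoetherianRing ℤ A
  obtain ⟨s0, hs0, hcut⟩ := cut (A := A) (M := M) T
  refine ⟨s0, hs0, fun s hs hdvd => ?_⟩
  have hfin : (Ideal.span (mm A M '' (T : Set A[X][X]))).minimalPrimes.Finite :=
    Ideal.finite_minimalPrimes_of_isNoetherianRing _ _
  set Pf : Finset (Ideal M[X][X]) := hfin.toFinset with hPf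
  have hmem : ∀ 𝔓, 𝔓 ∈ Pf ↔ 𝔓 ∈ (Ideal.span (mm A M '' (T : Set A[X][X]))).minimalPrimes :=
    fun 𝔓 => hfin.mem_toFinset
  have h1 : Asy (fun F _ _ => ∑ 𝔓 ∈ Pf, (Nat.card {φ : A[X][X] →+* F //
      𝔓.comap (mm A M) ≤ RingHom.ker φ ∧ φ (C (C s)) ≠ 0} : ℝ)) (d + e) (∑ 𝔓 ∈ Pf, (1 : ℝ)) :=
    Asy.sum Pf (fun 𝔓 F _ _ => (Nat.card {φ : A[X][X] →+* F //
      𝔓.comap (mm A M) ≤ RingHom.ker φ ∧ φ (C (C s)) ≠ 0} : ℝ)) (fun _ => 1)
      fun 𝔓 h𝔓 => asy_prime A 𝔓 hM hd ((hmem 𝔓).1 h𝔓).1.1 (he 𝔓 ((hmem 𝔓).1 h𝔓)) hs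
  have h2 : (∑ 𝔓 ∈ Pf, (1 : ℝ)) =
      (Nat.card (Ideal.span (mm A M '' (T : Set A[X][X]))).minimalPrimes : ℝ) := by
    rw [Finset.sum_const, nsmul_eq_mul, mul_one, hPf, Nat.card_coe_set_eq,
      Set.ncard_eq_toFinset_card _ hfin]
  rw [h2] at h1
  refine h1.near ?_
  have hcl : ∀ p ∈ Pf.offDiag, ∃ (c : ℝ) (N : ℕ), 0 ≤ c ∧ N ≠ 0 ∧ ∀ (F : Type) [Field F] [Finite F],
      ((N : ℕ) : F) ≠ 0 → (Nat.card {φ : A[X][X] →+* F //
        (p.1.comap (mm A M) ≤ RingHom.ker φ ∧ φ (C (C s)) ≠ 0) ∧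
        (p.2.comap (mm A M) ≤ RingHom.ker φ ∧ φ (C (C s)) ≠ 0)} : ℝ) * √(Nat.card F : ℝ) ≤
          c * (Nat.card F : ℝ) ^ (d + e) := by
    intro p hp
    rw [Finset.mem_offDiag, hmem, hmem] at hp
    obtain ⟨u, hu1, hu2⟩ := CN4_sep (A := A) hp.1 hp.2.1 hp.2.2
    obtain ⟨c, N, hc, hN, h⟩ := small_prime A p.1 hM hd hp.1.1.1 (he _ hp.1) hu2
    refine ⟨c, N, hc, hN, fun F _ _ hF => ?_⟩
    refine le_trans ?_ (h F hF)
    have hq : (1 : ℝ) ≤ (Nat.card F : ℝ) := by exact_mod_cast Nat.card_pos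
    have e1 : √(Nat.card F : ℝ) ≤ (Nat.card F : ℝ) := by
      rw [Real.sqrt_le_left (by linarith)]
      nlinarith
    refine mul_le_mul ?_ e1 (Real.sqrt_nonneg _) (Nat.cast_nonneg _)
    apply Nat.cast_le.2
    have hfi := CN4_fin A F
    refine Nat.card_le_card_of_injective (fun φ => ⟨φ.1, φ.2.1.1, φ.2.2.1 hu1⟩) ?_
    intro φ ψ hφψ
    exact Subtype.ext (congrArg (fun z => z.1) hφψ)
  choose! c N hc hN h using hcl
  refine ⟨∑ p ∈ Pf.offDiag, c p, ∏ p ∈ Pf.offDiag, N p, Finset.sum_nonneg hc,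
    Finset.prod_ne_zero_iff.2 hN, fun F _ _ hF => ?_⟩
  rw [Nat.cast_prod, Finset.prod_ne_zero_iff] at hF
  have e1 : Nat.card {φ : A[X][X] →+* F // (∀ f ∈ T, φ f = 0) ∧ φ (C (C s)) ≠ 0} =
      Nat.card {φ : A[X][X] →+* F // ∃ 𝔓 ∈ Pf,
        𝔓.comap (mm A M) ≤ RingHom.ker φ ∧ φ (C (C s)) ≠ 0} := by
    refine Nat.card_congr (Equiv.subtypeEquivRight fun φ => ?_)
    constructor
    · rintro ⟨h3, h4⟩
      have h5 : φ (C (C s0)) ≠ 0 := by
        obtain ⟨t, rfl⟩ := hdvd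
        rw [C_mul, C_mul, map_mul] at h4
        exact left_ne_zero_of_mul h4
      obtain ⟨𝔓, h6, h7⟩ := (hcut F φ h5).1 h3
      exact ⟨𝔓, (hmem 𝔓).2 h6, h7, h4⟩
    · rintro ⟨𝔓, h6, h7, h4⟩
      have h5 : φ (C (C s0)) ≠ 0 := by
        obtain ⟨t, rfl⟩ := hdvd
        rw [C_mul, C_mul, map_mul] at h4
        exact left_ne_zero_of_mul h4
      exact ⟨(hcut F φ h5).2 ⟨𝔓, (hmem 𝔓).1 h6, h7⟩, h4⟩
  rw [e1]
  have hfi := CN4_fin A F
  obtain ⟨i1, i2⟩ := CN4_incl Pf (fun 𝔓 (φ : A[X][X] →+* F) =>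
    𝔓.comap (mm A M) ≤ RingHom.ker φ ∧ φ (C (C s)) ≠ 0)
  have j1 : (Nat.card {φ : A[X][X] →+* F // ∃ 𝔓 ∈ Pf,
      𝔓.comap (mm A M) ≤ RingHom.ker φ ∧ φ (C (C s)) ≠ 0} : ℝ) ≤
      ∑ 𝔓 ∈ Pf, (Nat.card {φ : A[X][X] →+* F //
      𝔓.comap (mm A M) ≤ RingHom.ker φ ∧ φ (C (C s)) ≠ 0} : ℝ) := by exact_mod_cast i1
  have j2 : ∑ 𝔓 ∈ Pf, (Nat.card {φ : A[X][X] →+* F //
      𝔓.comap (mm A M) ≤ RingHom.ker φ ∧ φ (C (C s)) ≠ 0} : ℝ) ≤
      (Nat.card {φ : A[X][X] →+* F // ∃ 𝔓 ∈ Pf,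
      𝔓.comap (mm A M) ≤ RingHom.ker φ ∧ φ (C (C s)) ≠ 0} : ℝ) +
      ∑ p ∈ Pf.offDiag, (Nat.card {φ : A[X][X] →+* F //
        (p.1.comap (mm A M) ≤ RingHom.ker φ ∧ φ (C (C s)) ≠ 0) ∧
        (p.2.comap (mm A M) ≤ RingHom.ker φ ∧ φ (C (C s)) ≠ 0)} : ℝ) := by exact_mod_cast i2
  calc _ ≤ (∑ p ∈ Pf.offDiag, (Nat.card {φ : A[X][X] →+* F //
        (p.1.comap (mm A M) ≤ RingHom.ker φ ∧ φ (C (C s)) ≠ 0) ∧
        (p.2.comap (mm A M) ≤ RingHom.ker φ ∧ φ (C (C s)) ≠ 0)} : ℝ)) * √(Nat.card F : ℝ) := by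
        refine mul_le_mul_of_nonneg_right ?_ (Real.sqrt_nonneg _)
        rw [abs_le]
        constructor <;> linarith
    _ ≤ _ := by
        rw [Finset.sum_mul, Finset.sum_mul]
        exact Finset.sum_le_sum fun p hp => h p hp F (hF p hp)

end Pool.Agent.T2H65.CP
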