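import Pool.Agent.T2H65.CP.Pl
import Pool.Agent.T2H65.CP.CN4
import Pool.Agent.T2H65.CP.CN3
import Pool.Agent.T2H65.CP.MX
import Pool.Agent.T2H65.CP.BF
import Pool.Agent.T2H65.CP.A1
import Pool.Agent.R410.NG.PPR

/-!
# Project CP: the residue for the curves of a pencil
-/

set_option autoImplicit false
set_option maxHeartbeats 1000000

open Polynomial NumberField IsDedekindDomain

namespace Pool.Agent.T2H65.CP

open Pool.Agent.R410.LW (FG)
open Pool.Agent.R410.BS (cF hom_le)
open Pool.Agent.R410.NG (Wt IsWt sT sR sT_eq sR_eq polyEquiv Asy avg all_models phA phA_apply phA_frac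
  trdeg_line exists_ringk rho rho_apply)
open Pool.Agent.Y707.PR (HasResidue)

section
variable {A M : Type} [CommRing A] [Field M] [Algebra A M]

/-- the lift of a polynomial -/
theorem exists_lift (p : M[X][X]) (h : ∀ i j, (p.coeff j).coeff i ∈ Set.range (algebraMap A M)) :
    ∃ pA : A[X][X], mm A M pA = p := by
  have h1 : p ∈ Polynomial.lifts (mapRingHom (algebraMap A M)) := by
    rw [Polynomial.lifts_iff_coeff_lifts]
    intro j
    have h2 : p.coeff j ∈ Polynomial.lifts (algebraMap A M) := by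
      rw [Polynomial.lifts_iff_coeff_lifts]
      exact fun i => h i j
    obtain ⟨q, hq⟩ := (Polynomial.mem_lifts _).1 h2
    exact ⟨q, hq⟩
  obtain ⟨q, hq⟩ := (Polynomial.mem_lifts _).1 h1
  exact ⟨q, hq⟩

theorem mm_inj (h : Function.Injective (algebraMap A M)) : Function.Injective (mm A M) := by
  unfold mm
  rw [coe_mapRingHom]
  refine Polynomial.map_injective _ ?_
  rw [coe_mapRingHom]
  exact Polynomial.map_injective _ h

theorem low_of_mm (h : Function.Injective (algebraMap A M)) {a b : ℕ} {p : A[X][X]}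
    (hp : Low a b (mm A M p)) : Low a b p := by
  intro i j hij
  refine hp i j ?_
  unfold mm
  rw [coe_mapRingHom, coeff_map, coe_mapRingHom, coeff_map]
  exact (map_ne_zero_iff _ h).2 hij

theorem mm_lead {a b : ℕ} (p : A[X][X]) : mm A M (lead A a b + p) = cur a b (mm A M p) := by
  unfold mm cur
  rw [map_add, coe_mapRingHom, lead_map]

end

section
variable {M K : Type} [Field M] [CharZero M] [Field K] [CharZero K] [Algebra M K] {ω : K}
  {a b : ℕ} {P₀ Q : M[X][X]} {c : ℝ}

/-- the coefficients of a polynomial in two variables -/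
noncomputable def coefs (p : M[X][X]) : Finset M := by
  classical
  exact p.support.biUnion fun j => (p.coeff j).support.image fun i => (p.coeff j).coeff i

theorem mem_coefs (p : M[X][X]) (i j : ℕ) (h : (p.coeff j).coeff i ≠ 0) : (p.coeff j).coeff i ∈ coefs p := by
  classical
  unfold coefs
  rw [Finset.mem_biUnion]
  refine ⟨j, ?_, ?_⟩
  · rw [mem_support_iff]
    intro h0
    apply h
    rw [h0, coeff_zero]
  · exact Finset.mem_image_of_mem _ (mem_support_iff.2 h)

theorem residue_curve {k : Type} [Field k] [NumberField k] [Algebra k M] (hM : FG M) {d : ℕ}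
    (hd : Algebra.trdeg ℚ M = d) (h : Sit a b P₀ Q ω) (hw : WB a b c) (hc : 0 ≤ c)
    (R : Type) [CommRing R] [IsDomain R] [Algebra.FiniteType ℤ R] [Algebra R K] [IsFractionRing R K]
    [Algebra (𝓞 k) R] (hk : ∀ z : 𝓞 k, algebraMap R K (algebraMap (𝓞 k) R z) =
      algebraMap M K (algebraMap k M z)) {g₀ : R[X][X]} (hg : Low a b g₀)
    (hgK : (lead R a b + g₀).map (mapRingHom (algebraMap R K)) = mem (cur a b P₀) Q ω)
    {N : R} (hN : N ≠ 0) (S : Finset (HeightOneSpectrum (𝓞 k))) :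
    HasResidue S (fun v => avg (wtb a b c) (fam a b (lead R a b + g₀)) N (d + 1) v) 1
      (((Nat.card (MaxPts (cur a b P₀) Q) : ℤ) - Nat.card (Comps Q) : ℤ)) := by
  classical
  have ha : 1 ≤ a := le_trans one_le_two h.ha
  have hb : 1 ≤ b := le_trans one_le_two h.hb
  obtain ⟨A, hT, hft, hfr, hAk⟩ := exists_ringk (k := k) hM (coefs P₀ ∪ coefs Q)
  have hAinj : Function.Injective (algebraMap A M) := IsFractionRing.injective A M
  have hl : ∀ p : M[X][X], coefs p ⊆ coefs P₀ ∪ coefs Q → ∃ pA : A[X][X], mm A M pA = p := by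
    intro p hp
    refine exists_lift p fun i j => ?_
    by_cases h0 : (p.coeff j).coeff i = 0
    · exact ⟨0, by rw [h0, map_zero]⟩
    · exact ⟨⟨_, hT _ (hp (mem_coefs p i j h0))⟩, rfl⟩
  obtain ⟨pA, hpA⟩ := hl P₀ Finset.subset_union_left
  obtain ⟨QA, hQA⟩ := hl Q Finset.subset_union_right
  have hpl : Low a b pA := low_of_mm hAinj (by rw [hpA]; exact h.hP)
  have hql : Low a b QA := low_of_mm hAinj (by rw [hQA]; exact h.hQ)
  set PA : A[X][X] := lead A a b + pA with hPA
  have hPAc : mm A M PA = cur a b P₀ := by rw [hPA, mm_lead, hpA]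
  have hPAm : PA.Monic := (cab_monic ha hpl).1
  have hirr : Irreducible (mm A M PA) := by rw [hPAc]; exact cab_irr ha hb h.hab h.hP
  have hQA0 : QA ≠ 0 := by
    intro h0
    apply h.hQ0
    rw [← hQA, h0, map_zero]
  have hdeg : QA.degree < PA.degree := by
    rw [degree_eq_natDegree hPAm.ne_zero, (cab_monic ha hpl).2]
    exact hql.deg
  have hcm : (cur a b P₀).Monic := (cab_monic ha h.hP).1
  have hcd : Q.degree < (cur a b P₀).degree := by
    rw [degree_eq_natDegree hcm.ne_zero, show (cur a b P₀).natDegree = a from (cab_monic ha h.hP).2]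
    exact h.hQ.deg
  have hci : Irreducible (cur a b P₀) := cab_irr ha hb h.hab h.hP
  -- the three elements
  have hmin1 : (Ideal.span (mm A M '' (({PA, QA} : Finset A[X][X]) : Set A[X][X]))).minimalPrimes =
      {𝔪 : Ideal M[X][X] | 𝔪.IsMaximal ∧ cur a b P₀ ∈ 𝔪 ∧ Q ∈ 𝔪} := by
    rw [← pts_min hcm hci h.hQ0 hcd]
    rw [Finset.coe_insert, Finset.coe_singleton, Set.image_insert_eq, Set.image_singleton, hPAc, hQA]
  have hmin2 : (Ideal.span (mm A M '' (({QA} : Finset A[X][X]) : Set A[X][X]))).minimalPrimes =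
      {𝔠 : Ideal M[X][X] | ∃ π : M[X][X], Irreducible π ∧ π ∣ Q ∧ 𝔠 = Ideal.span {π}} := by
    rw [← crv_min h.hQ0]
    rw [Finset.coe_singleton, Set.image_singleton, hQA]
  obtain ⟨s1, hs1, a1⟩ := asy_zeros hM hd A {PA, QA} (e := 0) (by
    intro 𝔓 h𝔓
    rw [hmin1] at h𝔓
    rw [trdeg_max h𝔓.1, Nat.cast_zero])
  obtain ⟨s2, hs2, a2⟩ := asy_zeros hM hd A {QA} (e := 1) (by
    intro 𝔓 h𝔓
    rw [hmin2] at h𝔓
    obtain ⟨π, hπ, -, rfl⟩ := h𝔓
    rw [trdeg_prin hπ, Nat.cast_one])
  obtain ⟨s3, c3, hs3, hc3, a3⟩ := fib_bounds (L := M) hPAm hirr hQA0 hdeg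
  set s : A := s1 * s2 * s3 with hs
  have hs0 : s ≠ 0 := mul_ne_zero (mul_ne_zero hs1 hs2) hs3
  have b1 := a1 s hs0 ⟨s2 * s3, by rw [hs]; ring⟩
  have b2 := a2 s hs0 ⟨s1 * s3, by rw [hs]; ring⟩
  rw [hmin1] at b1
  rw [hmin2] at b2
  -- the ring of the line
  let φ : A[X] →+* K := phA (M := M) A ω
  let _ : Algebra A[X] K := φ.toAlgebra
  have _ : IsFractionRing A[X] K := phA_frac A h.hw h.top
  have htr := trdeg_line hd h.hw h.top
  let ρ : 𝓞 k →+* A[X] := C.comp (rho hAk)
  let _ : Algebra (𝓞 k) A[X] := ρ.toAlgebra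
  have hft' : Algebra.FiniteType ℤ A[X] := inferInstance
  have hft'' := Pool.Agent.R410.LW.ft_int _ hft'
  -- the sums
  have hsum : ∀ (F : Type) [Field F] [Fintype F] [Fintype (A →+* F)] [Fintype (A[X] →+* F)]
      (H : (A →+* F) → Prop) [DecidablePred H], ∑ φ : A[X] →+* F, (if H (φ.comp C) then
        wtb a b c F (fun j => (fam a b (pen PA QA) j).map φ) else 0) =
      ∑ ψ : A →+* F, if H ψ then ((Nat.card F : ℝ) *
        cnt2 F (PA.map (mapRingHom ψ)) (QA.map (mapRingHom ψ)) - cnt F (QA.map (mapRingHom ψ))) else 0 :=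
    fun F _ _ _ _ H _ => sum_pen hw ha hpl hql H
  have h0 : Asy (fun F _ _ => sT (wtb a b c) (fam a b (pen PA QA)) (C s) F) (d + 1)
      ((Nat.card (MaxPts (cur a b P₀) Q) : ℝ) - Nat.card (Comps Q)) := by
    have t1 := b1.mulq
    have t2 := t1.add b2.neg
    rw [add_zero, ← sub_eq_add_neg] at t2
    refine t2.congr 1 one_ne_zero fun F _ _ _ => ?_
    let _ := Fintype.ofFinite F
    have hfA : Finite (A →+* F) := inferInstance
    let _ := Fintype.ofFinite (A →+* F)
    have hfX : Finite (A[X] →+* F) := Finite.of_equiv _ (polyEquiv (A := A) (F := F)).symm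
    let _ := Fintype.ofFinite (A[X] →+* F)
    rw [sT_eq]
    have e1 := hsum F (fun ψ : A →+* F => ψ s ≠ 0)
    have e2 : ∀ φ : A[X] →+* F, (if φ (C s) ≠ 0 then
        wtb a b c F (fun j => (fam a b (pen PA QA) j).map φ) else 0) = (if (φ.comp C) s ≠ 0 then
        wtb a b c F (fun j => (fam a b (pen PA QA) j).map φ) else 0) := fun φ => rfl
    rw [Finset.sum_congr rfl fun φ _ => e2 φ]
    refine e1.trans ?_
    rw [plane_count, plane_count, Finset.mul_sum, ← sub_eq_add_neg, ← Finset.sum_sub_distrib]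
    refine Finset.sum_congr rfl fun ψ _ => ?_
    by_cases hψ : ψ s ≠ 0
    · rw [if_pos hψ, if_pos hψ, if_pos hψ]
      unfold cnt cnt2
      simp
    · rw [if_neg hψ, if_neg hψ, if_neg hψ, mul_zero, sub_zero]
  obtain ⟨κ, iκ, L, iL, nL, α, hα, C0, N0, hC0, hN0, hasy⟩ := h0
  have hwt : IsWt (wtb a b c) (fun _ : Fin a => b + 1) c := isWt_wtb hc
  have hpen : pen PA QA = lead A[X] a b + (pA.map (mapRingHom C) + C (C X) * QA.map (mapRingHom C)) :=
    pen_lead pA QA
  have hpenK : (pen PA QA).map (mapRingHom (algebraMap A[X] K)) = mem (cur a b P₀) Q ω := by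
    have hφC : φ.comp C = (algebraMap M K).comp (algebraMap A M) := by
      refine RingHom.ext fun z => ?_
      show phA (M := M) A ω (C z) = _
      rw [phA_apply, Polynomial.map_C, aeval_C]
      rfl
    have hφX : φ X = ω := by
      show phA (M := M) A ω X = _
      rw [phA_apply, Polynomial.map_X, aeval_X]
    show (pen PA QA).map (mapRingHom φ) = _
    rw [pen_map, hφC, hφX]
    unfold mem
    rw [← hPAc, ← hQA]
    unfold mm
    rw [coe_mapRingHom, coe_mapRingHom, Polynomial.map_map, Polynomial.map_map, mapRingHom_comp]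
  have hgB : ∀ j : Fin a, (fam a b (lead R a b + g₀) j).map (algebraMap R K) =
      (fam a b (pen PA QA) j).map (algebraMap A[X] K) := by
    intro j
    rw [fam_map, fam_map, hgK, hpenK]
  have hlowdeg : ∀ j, ((lead R a b + g₀).coeff j).natDegree ≤ b := by
    intro j
    rw [coeff_add]
    refine (natDegree_add_le _ _).trans (max_le ?_ ?_)
    · unfold lead
      rw [coeff_sub, coeff_X_pow, coeff_C]
      refine (natDegree_sub_le _ _).trans (max_le ?_ ?_)
      · split_ifs <;> simp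
      · split_ifs <;> simp
    · rw [natDegree_le_iff_coeff_eq_zero]
      intro i hi
      by_contra h1
      have h2 := hg i j h1
      have h3 : a * b < a * i := Nat.mul_lt_mul_of_pos_left hi (by omega)
      omega
  have hgm : ∀ j : Fin a, (fam a b (lead R a b + g₀) j).Monic ∧
      (fam a b (lead R a b + g₀) j).natDegree = b + 1 := fun j => fam_monic hlowdeg j
  have hrho : (algebraMap R K).comp (algebraMap (𝓞 k) R) =
      (algebraMap A[X] K).comp (algebraMap (𝓞 k) A[X]) := by
    refine RingHom.ext fun z => ?_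
    show algebraMap R K (algebraMap (𝓞 k) R z) = phA (M := M) A ω (C (rho hAk z))
    rw [hk, phA_apply, Polynomial.map_C, aeval_C]
    rfl
  have hα' : ∑ j, α j = (((Nat.card (MaxPts (cur a b P₀) Q) : ℤ) - Nat.card (Comps Q) : ℤ) : ℝ) := by
    rw [hα]
    push_cast
    rfl
  refine all_models hwt (e := d + 1) htr.le hrho (g' := fam a b (pen PA QA)) hgB hgm hN
    (N' := (C s : A[X])) (C_ne_zero.2 hs0) L α hα' ?_ ?_ S
  · -- the bound
    obtain ⟨C3, hC3, g3⟩ := hom_le (R := A) (K := M) (IsFractionRing.injective A M) hd.le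
    refine ⟨C3 * (2 * c3), 1, by positivity, one_ne_zero, ?_⟩
    intro F _ _ _ ψ₀
    let _ := Fintype.ofFinite F
    have hfA : Finite (A →+* F) := inferInstance
    let _ := Fintype.ofFinite (A →+* F)
    have hfX : Finite (A[X] →+* F) := Finite.of_equiv _ (polyEquiv (A := A) (F := F)).symm
    let _ := Fintype.ofFinite (A[X] →+* F)
    show |sR (wtb a b c) (C.comp (rho hAk)) (fam a b (pen PA QA)) (C s) F ψ₀| ≤ _
    rw [sR_eq]
    have e1 := hsum F (fun ψ : A →+* F => ψ.comp (rho hAk) = ψ₀ ∧ ψ s ≠ 0)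
    have e2 : ∀ φ : A[X] →+* F, (if φ.comp ((C : A →+* A[X]).comp (rho hAk)) = ψ₀ ∧ φ (C s) ≠ 0 then
        wtb a b c F (fun j => (fam a b (pen PA QA) j).map φ) else 0) =
        (if (φ.comp C).comp (rho hAk) = ψ₀ ∧ (φ.comp C) s ≠ 0 then
        wtb a b c F (fun j => (fam a b (pen PA QA) j).map φ) else 0) := fun φ => rfl
    rw [Finset.sum_congr rfl fun φ _ => e2 φ, e1]
    set q : ℝ := (Nat.card F : ℝ) with hq
    have hq1 : 1 ≤ q := by
      rw [hq]
      exact_mod_cast Nat.card_pos (α := F)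
    have hq0 : 0 ≤ q := le_trans zero_le_one hq1
    have hterm : ∀ ψ : A →+* F, |(if ψ.comp (rho hAk) = ψ₀ ∧ ψ s ≠ 0 then (q *
        cnt2 F (PA.map (mapRingHom ψ)) (QA.map (mapRingHom ψ)) - cnt F (QA.map (mapRingHom ψ))) else 0)| ≤
        2 * c3 * q := by
      intro ψ
      split_ifs with hψ
      · have h3 : ψ s3 ≠ 0 := by
          intro h0
          apply hψ.2
          rw [hs, map_mul, h0, mul_zero]
        obtain ⟨g1, g2⟩ := a3 F ψ h3
        have g1' : cnt F (QA.map (mapRingHom ψ)) ≤ c3 * q := g1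
        have g2' : cnt2 F (PA.map (mapRingHom ψ)) (QA.map (mapRingHom ψ)) ≤ c3 := g2
        have n1 : 0 ≤ cnt F (QA.map (mapRingHom ψ)) := Nat.cast_nonneg _
        have n2 : 0 ≤ cnt2 F (PA.map (mapRingHom ψ)) (QA.map (mapRingHom ψ)) := Nat.cast_nonneg _
        have g3' := mul_le_mul_of_nonneg_left g2' hq0
        have g4' := mul_nonneg hq0 n2
        rw [abs_le]
        constructor
        · nlinarith
        · nlinarith
      · rw [abs_zero]
        positivity
    have t2 : (Fintype.card (A →+* F) : ℝ) ≤ C3 * q ^ d := by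
      have h1 := g3 F
      rw [Nat.card_eq_fintype_card] at h1
      exact h1
    calc _ ≤ ∑ ψ : A →+* F, |(if ψ.comp (rho hAk) = ψ₀ ∧ ψ s ≠ 0 then (q *
          cnt2 F (PA.map (mapRingHom ψ)) (QA.map (mapRingHom ψ)) - cnt F (QA.map (mapRingHom ψ))) else 0)| :=
          Finset.abs_sum_le_sum_abs _ _
      _ ≤ ∑ ψ : A →+* F, 2 * c3 * q := Finset.sum_le_sum fun ψ _ => hterm ψ
      _ = (Fintype.card (A →+* F) : ℝ) * (2 * c3 * q) := by
          rw [Finset.sum_const, Finset.card_univ, nsmul_eq_mul]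
      _ ≤ (C3 * q ^ d) * (2 * c3 * q) := mul_le_mul_of_nonneg_right t2 (by positivity)
      _ = C3 * (2 * c3) * q ^ (d + 1) := by ring
  · exact ⟨C0, N0, hC0, hN0, fun F _ _ hF => hasy F hF⟩

end

end Pool.Agent.T2H65.CP
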