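import Mathlib

/-!
# Project CP (MP_6090f9_nt, CabPencils): definitions

Polynomials in two variables over a ring `R` are elements of `R[X][X]`: the outer variable is `y`, the inner
variable is `x`. The curves are `y^a - x^b + g(x, y) = 0` with `gcd(a, b) = 1`, where all the monomials
`x^i y^j` of `g` satisfy `a i + b j < a b` (`C_ab` curves: exactly one place at infinity, and it is rational).
-/

set_option autoImplicit false

open Polynomial

namespace Pool.Agent.T2H65.CP

/-- `y^a - x^b` -/
noncomputable def lead (R : Type) [CommRing R] (a b : ℕ) : R[X][X] := X ^ a - C (X ^ b)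

/-- all the monomials `x^i y^j` of `g` satisfy `a i + b j < a b` -/
def Low {R : Type} [CommRing R] (a b : ℕ) (g : R[X][X]) : Prop :=
  ∀ i j, (g.coeff j).coeff i ≠ 0 → a * i + b * j < a * b

section
variable {L : Type} [Field L]

/-- the homogeneous form of degree `deg g` of `g`, at `(-P, Q)`: the member of the pencil `P + w Q` at the
closed point `g (w) = 0` -/
noncomputable def fib (P Q : L[X][X]) (g : L[X]) : L[X][X] :=
  ∑ i ∈ Finset.range (g.natDegree + 1), C (C (g.coeff i)) * (-P) ^ i * Q ^ (g.natDegree - i)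

/-- the closed points of `P = Q = 0` in the affine plane over `L` -/
abbrev MaxPts (P Q : L[X][X]) : Type := {𝔪 : Ideal L[X][X] // 𝔪.IsMaximal ∧ P ∈ 𝔪 ∧ Q ∈ 𝔪}

/-- the irreducible components of the curve `Q = 0` in the affine plane over `L` -/
abbrev Comps (Q : L[X][X]) : Type :=
  {𝔠 : Ideal L[X][X] // ∃ π : L[X][X], Irreducible π ∧ π ∣ Q ∧ 𝔠 = Ideal.span {π}}

/-- the map `A[x, y] → B[x, y]` -/
noncomputable def mm (A B : Type) [CommRing A] [CommRing B] [Algebra A B] : A[X][X] →+* B[X][X] :=
  mapRingHom (mapRingHom (algebraMap A B))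

variable {K : Type} [Field K] [Algebra L K]

/-- the member `P + w Q` of the pencil, over the field `K = L(w)` -/
noncomputable def mem (P Q : L[X][X]) (w : K) : K[X][X] := mm L K P + C (C w) * mm L K Q

/-- the coordinate ring of the member of the pencil -/
abbrev CR (P Q : L[X][X]) (w : K) : Type := AdjoinRoot (mem P Q w)

/-- the map from `L[x, y]` to the coordinate ring -/
noncomputable def io (P Q : L[X][X]) (w : K) : L[X][X] →+* CR P Q w :=
  (AdjoinRoot.mk (mem P Q w)).comp (mm L K)

/-- the curve `y^a - x^b + P₀` -/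
noncomputable def cur (a b : ℕ) (P₀ : L[X][X]) : L[X][X] := lead L a b + P₀

/-- the situation: a pencil `y^a - x^b + P₀ + w Q` over `K = L(w)` -/
structure Sit (a b : ℕ) (P₀ Q : L[X][X]) (w : K) : Prop where
  ha : 2 ≤ a
  hb : 2 ≤ b
  hab : a.Coprime b
  hP : Low a b P₀
  hQ : Low a b Q
  hQ0 : Q ≠ 0
  hw : Transcendental L w
  top : IntermediateField.adjoin L {w} = ⊤

end

section
variable {R S : Type} [CommRing R] [CommRing S] {a b : ℕ}

theorem Low.add {g h : R[X][X]} (hg : Low a b g) (hh : Low a b h) : Low a b (g + h) := by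
  intro i j hij
  rw [coeff_add, coeff_add] at hij
  by_cases h1 : (g.coeff j).coeff i = 0
  · rw [h1, zero_add] at hij
    exact hh i j hij
  · exact hg i j h1

theorem Low.map {g : R[X][X]} (hg : Low a b g) (φ : R →+* S) :
    Low a b (g.map (mapRingHom φ)) := by
  intro i j hij
  rw [coeff_map, coe_mapRingHom, coeff_map] at hij
  exact hg i j fun h => hij (by rw [h, map_zero])

theorem Low.CC {g : R[X][X]} (hg : Low a b g) (c : R) : Low a b (C (C c) * g) := by
  intro i j hij
  rw [coeff_C_mul, coeff_C_mul] at hij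
  exact hg i j (right_ne_zero_of_mul hij)

theorem lead_map (φ : R →+* S) : (lead R a b).map (mapRingHom φ) = lead S a b := by
  unfold lead
  rw [Polynomial.map_sub, Polynomial.map_pow, Polynomial.map_X, Polynomial.map_C, coe_mapRingHom,
    Polynomial.map_pow, Polynomial.map_X]

/-- the degree in `y` of a low polynomial -/
theorem Low.deg {g : R[X][X]} (hg : Low a b g) : g.degree < a := by
  rw [degree_lt_iff_coeff_zero]
  intro j hj
  by_contra h
  obtain ⟨i, hi⟩ : ∃ i, (g.coeff j).coeff i ≠ 0 := by
    by_contra h'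
    push Not at h'
    exact h (Polynomial.ext h')
  have := hg i j hi
  have h2 : a * b ≤ b * j := by rw [mul_comm]; exact Nat.mul_le_mul_left _ hj
  omega

theorem lead_deg [Nontrivial R] (ha : 1 ≤ a) : (lead R a b).Monic ∧ (lead R a b).natDegree = a := by
  unfold lead
  exact ⟨monic_X_pow_sub_C _ (by omega), natDegree_X_pow_sub_C⟩

theorem cab_monic [Nontrivial R] (ha : 1 ≤ a) {g : R[X][X]} (hg : Low a b g) :
    (lead R a b + g).Monic ∧ (lead R a b + g).natDegree = a := by
  obtain ⟨h1, h2⟩ := lead_deg (R := R) (b := b) ha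
  have h3 : g.degree < (lead R a b).degree := by
    rw [degree_eq_natDegree h1.ne_zero, h2]
    exact hg.deg
  refine ⟨h1.add_of_left h3, ?_⟩
  rw [natDegree_add_eq_left_of_degree_lt h3, h2]

end

section
variable {L : Type} [Field L] {K : Type} [Field K] [Algebra L K] {a b : ℕ} {P₀ Q : L[X][X]} {w : K}

theorem mem_eq : mem (cur a b P₀) Q w =
    lead K a b + (mm L K P₀ + C (C w) * mm L K Q) := by
  unfold mem cur mm
  rw [map_add, coe_mapRingHom, lead_map, add_assoc]

theorem Sit.low (h : Sit a b P₀ Q w) : Low a b (mm L K P₀ + C (C w) * mm L K Q) :=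
  (h.hP.map _).add ((h.hQ.map _).CC _)

/-- `w Q = - P` in the coordinate ring -/
theorem io_rel (P Q : L[X][X]) (w : K) :
    AdjoinRoot.of (mem P Q w) (C w) * io P Q w Q = - io P Q w P := by
  have h : AdjoinRoot.mk (mem P Q w) (mm L K P + C (C w) * mm L K Q) = 0 := AdjoinRoot.mk_self
  rw [map_add, map_mul, AdjoinRoot.mk_C] at h
  unfold io
  rw [RingHom.comp_apply, RingHom.comp_apply]
  linear_combination h

end

end Pool.Agent.T2H65.CP
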