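import Pool.Agent.T2H65.CP.Defs

/-!
# Project CP, package EL: elimination of `y`

`P` is monic in `y` and irreducible in `L[x][y]`, `Q ≠ 0` is of smaller degree in `y`. By the lemma of Gauss
(`Polynomial.Monic.irreducible_iff_irreducible_map_fraction_map`) `P` is irreducible in `L(x)[y]`, and `Q` is nonzero of
smaller degree, hence they are coprime there: `u P + v Q = 1` with `u, v ∈ L(x)[y]`; clear the denominators
(`IsLocalization.integerNormalization` or `IsLocalization.exist_integer_multiples_of_finset`).
For `elimA` clear the denominators again: the equation `u P + v Q = C r` over `L = Frac A` is multiplied with a nonzero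
element of `A` (`mm A L` is injective).
-/

set_option autoImplicit false

open Polynomial

namespace Pool.Agent.T2H65.CP

theorem elim {L : Type} [Field L] {P Q : L[X][X]} (hP : P.Monic) (hirr : Irreducible P) (hQ : Q ≠ 0)
    (hd : Q.degree < P.degree) : ∃ (u v : L[X][X]) (r : L[X]), r ≠ 0 ∧ u * P + v * Q = C r := by
  let F := FractionRing L[X]
  have hinj : Function.Injective (algebraMap L[X] F) := IsFractionRing.injective L[X] F
  have hirr' : Irreducible (P.map (algebraMap L[X] F)) :=
    (Polynomial.Monic.irreducible_iff_irreducible_map_fraction_map hP).1 hirr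
  have hQ' : Q.map (algebraMap L[X] F) ≠ 0 := by
    rwa [Ne, Polynomial.map_eq_zero_iff hinj]
  have hnd : ¬ P.map (algebraMap L[X] F) ∣ Q.map (algebraMap L[X] F) := by
    intro h
    have h1 := Polynomial.degree_le_of_dvd h hQ'
    rw [Polynomial.degree_map_eq_of_injective hinj, Polynomial.degree_map_eq_of_injective hinj] at h1
    exact absurd h1 (not_le.2 hd)
  obtain ⟨u, v, huv⟩ := (hirr'.coprime_iff_not_dvd).2 hnd
  obtain ⟨b1, hb1, hu⟩ := IsLocalization.integerNormalization_spec (nonZeroDivisors L[X]) u
  obtain ⟨b2, hb2, hv⟩ := IsLocalization.integerNormalization_spec (nonZeroDivisors L[X]) v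
  refine ⟨C b2 * IsLocalization.integerNormalization (nonZeroDivisors L[X]) u,
    C b1 * IsLocalization.integerNormalization (nonZeroDivisors L[X]) v, b1 * b2,
    mul_ne_zero (nonZeroDivisors.ne_zero hb1) (nonZeroDivisors.ne_zero hb2), ?_⟩
  apply Polynomial.map_injective _ hinj
  have e : ∀ (c : L[X]) (p : F[X]), c • p = C (algebraMap L[X] F c) * p := by
    intro c p
    rw [← Polynomial.smul_eq_C_mul, algebraMap_smul]
  rw [Polynomial.map_add, Polynomial.map_mul, Polynomial.map_mul, Polynomial.map_mul,
    Polynomial.map_mul, hu, hv, Polynomial.map_C, Polynomial.map_C, Polynomial.map_C, e, e, map_mul,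
    C_mul]
  linear_combination (C (algebraMap L[X] F b1) * C (algebraMap L[X] F b2)) * huv

/-- a common denominator of the coefficients -/
theorem clear {A L : Type} [CommRing A] [IsDomain A] [Field L] [Algebra A L] [IsFractionRing A L]
    (u : L[X][X]) : ∃ (N : A) (u₀ : A[X][X]), N ≠ 0 ∧ mm A L u₀ = C (C (algebraMap A L N)) * u := by
  induction u using Polynomial.induction_on' with
  | add p q hp hq =>
    obtain ⟨N, p₀, hN, hp⟩ := hp
    obtain ⟨M, q₀, hM, hq⟩ := hq
    refine ⟨N * M, C (C M) * p₀ + C (C N) * q₀, mul_ne_zero hN hM, ?_⟩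
    have h1 : ∀ c : A, mm A L (C (C c)) = C (C (algebraMap A L c)) := by
      intro c
      simp [mm]
    rw [map_add, map_mul, map_mul, hp, hq, h1, h1, map_mul, C_mul, C_mul]
    ring
  | monomial n f =>
    obtain ⟨b, hb, hf⟩ := IsLocalization.integerNormalization_spec (nonZeroDivisors A) f
    refine ⟨b, monomial n (IsLocalization.integerNormalization (nonZeroDivisors A) f),
      nonZeroDivisors.ne_zero hb, ?_⟩
    unfold mm
    rw [coe_mapRingHom, Polynomial.map_monomial, coe_mapRingHom, hf, C_mul_monomial,
      ← Polynomial.smul_eq_C_mul, algebraMap_smul]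

theorem elimA {A L : Type} [CommRing A] [IsDomain A] [Field L] [Algebra A L] [IsFractionRing A L]
    {P Q : A[X][X]} (hP : P.Monic) (hirr : Irreducible (mm A L P)) (hQ : Q ≠ 0)
    (hd : Q.degree < P.degree) : ∃ (u v : A[X][X]) (r : A[X]), r ≠ 0 ∧ u * P + v * Q = C r := by
  have hinj0 : Function.Injective (algebraMap A L) := IsFractionRing.injective A L
  have hinj1 : Function.Injective (mapRingHom (algebraMap A L)) := by
    rw [coe_mapRingHom]; exact Polynomial.map_injective _ hinj0
  have hinj : Function.Injective (mm A L) := by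
    unfold mm
    rw [coe_mapRingHom]
    exact Polynomial.map_injective _ hinj1
  have hd' : (mm A L Q).degree < (mm A L P).degree := by
    unfold mm
    rw [coe_mapRingHom, Polynomial.degree_map_eq_of_injective hinj1,
      Polynomial.degree_map_eq_of_injective hinj1]
    exact hd
  have hP' : (mm A L P).Monic := by
    unfold mm
    rw [coe_mapRingHom]
    exact hP.map _
  have hQ' : mm A L Q ≠ 0 := by
    intro h
    exact hQ (hinj (by rw [h, map_zero]))
  obtain ⟨u, v, r, hr, huv⟩ := elim hP' hirr hQ' hd'
  obtain ⟨N, u₀, hN, hu⟩ := clear (A := A) u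
  obtain ⟨M, v₀, hM, hv⟩ := clear (A := A) v
  obtain ⟨T, r₀, hT, hr'⟩ := clear (A := A) (C r)
  -- the constant term of `r₀`
  have h1 : ∀ c : A, mm A L (C (C c)) = C (C (algebraMap A L c)) := by
    intro c
    simp [mm]
  have hr0 : r₀ = C (r₀.coeff 0) := by
    apply hinj
    rw [hr', ← C_mul]
    have h2 : (mm A L r₀).coeff 0 = (C (algebraMap A L T) * r) := by
      rw [hr', ← C_mul, coeff_C_zero]
    have h3 : mm A L (C (r₀.coeff 0)) = C ((mm A L r₀).coeff 0) := by
      unfold mm
      rw [coe_mapRingHom, Polynomial.map_C, coeff_map]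
    rw [h3, h2]
  refine ⟨C (C (M * T)) * u₀, C (C (N * T)) * v₀, C (N * M) * r₀.coeff 0, ?_, ?_⟩
  · intro h
    rcases mul_eq_zero.1 h with h | h
    · rw [C_eq_zero] at h
      exact mul_ne_zero hN hM h
    · rw [h, C_0] at hr0
      rw [hr0, map_zero] at hr'
      have h2 : C (C (algebraMap A L T)) * (C r : L[X][X]) ≠ 0 := by
        refine mul_ne_zero ?_ (by rwa [Ne, C_eq_zero])
        rw [Ne, C_eq_zero, C_eq_zero]
        exact fun h' => hT (hinj0 (by rw [h', map_zero]))
      exact h2 hr'.symm
  · apply hinj
    have h4 : mm A L (C (C (N * M) * r₀.coeff 0)) = C (C (algebraMap A L (N * M))) * mm A L r₀ := by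
      rw [C_mul, map_mul, ← hr0, h1]
    have e1 : mm A L (C (C (M * T)) * u₀ * P) =
        C (C (algebraMap A L (M * T))) * (C (C (algebraMap A L N)) * u) * mm A L P := by
      rw [map_mul, map_mul, hu, h1]
    have e2 : mm A L (C (C (N * T)) * v₀ * Q) =
        C (C (algebraMap A L (N * T))) * (C (C (algebraMap A L M)) * v) * mm A L Q := by
      rw [map_mul, map_mul, hv, h1]
    rw [map_add, e1, e2, h4, hr']
    simp only [map_mul]
    linear_combination (C (C (algebraMap A L N)) * C (C (algebraMap A L M)) *
      C (C (algebraMap A L T))) * huv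

end Pool.Agent.T2H65.CP
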