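import Mathlib

/-!
# Project CP: the number of the points of a variety fibred over the projective space
-/

set_option autoImplicit false

namespace Pool.Agent.T2H65.CP

theorem est_real {s : ℕ} {q W e c : ℝ} (hq : 2 ≤ q) (hc : 0 ≤ c) (he : |e| ≤ c * √q)
    (hW : |W| ≤ q ^ (s + 2) * (c * √q)) :
    |(q ^ s)⁻¹ * ((q * (q ^ (s + 2) - 1) + W - e + q ^ (s + 2) - 1) / (q - 1) - q ^ (s + 2)) -
      (2 * q + (q ^ (s + 1))⁻¹ * W)| ≤ (4 + 3 * c) * √q := by
  have hq0 : 0 < q := by linarith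
  have hq1 : 0 < q - 1 := by linarith
  have hs1 : 1 ≤ √q := Real.one_le_sqrt.2 (by linarith)
  have hs0 : 0 < q ^ s := by positivity
  have hs : 1 ≤ q ^ s := one_le_pow₀ (by linarith)
  have e1 : (q ^ s)⁻¹ * ((q * (q ^ (s + 2) - 1) + W - e + q ^ (s + 2) - 1) / (q - 1) - q ^ (s + 2)) -
      (2 * q + (q ^ (s + 1))⁻¹ * W) =
      (2 * q ^ (s + 2) - q ^ 2 - q - q * e + W) / ((q - 1) * q ^ (s + 1)) := by
    field_simp
    ring
  rw [e1, abs_div, abs_of_pos (by positivity : (0 : ℝ) < (q - 1) * q ^ (s + 1)),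
    div_le_iff₀ (by positivity)]
  have h1 : |2 * q ^ (s + 2) - q ^ 2 - q - q * e + W| ≤
      2 * q ^ (s + 2) + q * (c * √q) + q ^ (s + 2) * (c * √q) := by
    have a1 : q ^ 2 ≤ q ^ (s + 2) := by
      rw [pow_add]
      exact le_mul_of_one_le_left (by positivity) hs
    have a2 : q ≤ q ^ 2 := by nlinarith
    have a3 : |q * e| ≤ q * (c * √q) := by
      rw [abs_mul, abs_of_pos hq0]
      exact mul_le_mul_of_nonneg_left he hq0.le
    rw [abs_le] at a3 hW ⊢
    have a4 : 0 ≤ q ^ (s + 2) := by positivity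
    constructor
    · nlinarith [a3.1, a3.2, hW.1, hW.2]
    · nlinarith [a3.1, a3.2, hW.1, hW.2]
  refine h1.trans ?_
  have hp : q ^ (s + 2) = q ^ s * q ^ 2 := by rw [pow_add]
  have hp1 : q ^ (s + 1) = q ^ s * q := by rw [pow_succ]
  have hcs : 0 ≤ c * √q := by positivity
  -- `(4 + 3 c) √q (q - 1) q ≥ (2 q² + c √q + q² c √q)`, times `q^s`
  have k1 : 2 * q ^ 2 ≤ 4 * √q * ((q - 1) * q) := by nlinarith [mul_nonneg hq0.le hq1.le]
  have k2 : q * (c * √q) ≤ c * √q * ((q - 1) * q) := by nlinarith [mul_nonneg hcs hq0.le]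
  have k3 : q ^ 2 * (c * √q) ≤ 2 * (c * √q) * ((q - 1) * q) := by nlinarith [mul_nonneg hcs hq0.le]
  calc 2 * q ^ (s + 2) + q * (c * √q) + q ^ (s + 2) * (c * √q)
      ≤ q ^ s * (2 * q ^ 2) + q ^ s * (q * (c * √q)) + q ^ s * (q ^ 2 * (c * √q)) := by
        rw [hp]
        have : q * (c * √q) ≤ q ^ s * (q * (c * √q)) := le_mul_of_one_le_left (by positivity) hs
        linarith
    _ ≤ q ^ s * (4 * √q * ((q - 1) * q)) + q ^ s * (c * √q * ((q - 1) * q)) +
        q ^ s * (2 * (c * √q) * ((q - 1) * q)) :=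
        add_le_add (add_le_add (mul_le_mul_of_nonneg_left k1 hs0.le)
          (mul_le_mul_of_nonneg_left k2 hs0.le)) (mul_le_mul_of_nonneg_left k3 hs0.le)
    _ = (4 + 3 * c) * √q * ((q - 1) * q ^ (s + 1)) := by
        rw [hp1]
        ring

open Classical in
theorem est {s : ℕ} {F : Type} [Field F] [Fintype F] {N : (Fin (s + 2) → F) → ℝ} {c : ℝ} (hc : 0 ≤ c)
    (hN : ∀ t, |N t - Nat.card F| ≤ c * √(Nat.card F : ℝ)) :
    |((Nat.card F : ℝ) ^ s)⁻¹ * (((∑ t, if t ≠ 0 then N t else 0) + (Nat.card F : ℝ) ^ (s + 2) - 1) /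
        ((Nat.card F : ℝ) - 1) - (Nat.card F : ℝ) ^ (s + 2)) -
      (2 * (Nat.card F : ℝ) + ((Nat.card F : ℝ) ^ (s + 1))⁻¹ * ∑ t, (N t - Nat.card F))| ≤
        (4 + 3 * c) * √(Nat.card F : ℝ) := by
  set q : ℝ := (Nat.card F : ℝ) with hq
  have hq2 : 2 ≤ q := by
    rw [hq]
    exact_mod_cast Finite.one_lt_card (α := F)
  have hcard : (Fintype.card (Fin (s + 2) → F) : ℝ) = q ^ (s + 2) := by
    rw [Fintype.card_fun, Fintype.card_fin, hq, Nat.card_eq_fintype_card]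
    push_cast
    rfl
  set W : ℝ := ∑ t, (N t - q) with hW
  have h1 : (∑ t : Fin (s + 2) → F, if t ≠ 0 then N t else 0) = W + q * q ^ (s + 2) - N 0 := by
    have h2 : ∀ t : Fin (s + 2) → F, (if t ≠ 0 then N t else 0) = N t - if t = 0 then N 0 else 0 := by
      intro t
      by_cases h : t = 0
      · rw [if_neg (not_not.2 h), if_pos h, h, sub_self]
      · rw [if_pos h, if_neg h, sub_zero]
    rw [Finset.sum_congr rfl fun t _ => h2 t, Finset.sum_sub_distrib, Finset.sum_ite_eq',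
      if_pos (Finset.mem_univ _), hW, Finset.sum_sub_distrib, Finset.sum_const, Finset.card_univ,
      nsmul_eq_mul, hcard]
    ring
  have h3 : (∑ t : Fin (s + 2) → F, if t ≠ 0 then N t else 0) + q ^ (s + 2) - 1 =
      q * (q ^ (s + 2) - 1) + W - (N 0 - q) + q ^ (s + 2) - 1 := by
    rw [h1]
    ring
  rw [h3]
  refine est_real hq2 hc (hN 0) ?_
  calc |W| ≤ ∑ t, |N t - q| := Finset.abs_sum_le_sum_abs _ _
    _ ≤ ∑ t : Fin (s + 2) → F, c * √q := Finset.sum_le_sum fun t _ => hN t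
    _ = q ^ (s + 2) * (c * √q) := by rw [Finset.sum_const, Finset.card_univ, nsmul_eq_mul, hcard]

end Pool.Agent.T2H65.CP
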