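import Pool.Agent.T2H65.CP.Defs

/-!
# Project CP, package FB: the forms `fib P Q g`

`fib P Q g = ∑_{i ≤ deg g} g_i (-P)^i Q^(deg g - i)`, see Defs.lean. All statements are formal.

* `fib_mul`: both sides are `∑ (coefficients of g h) (-P)^k Q^(deg g + deg h - k)`, as `deg (g h) = deg g + deg h`. One
  may use: for a field `Ω` and `p, q ∈ Ω`, `q ≠ 0`: `fib P Q g` goes to `q^(deg g) g(-p/q)` under a map `L[x, y] → Ω` with
  `P ↦ p`, `Q ↦ q` (this is `fib_val`); for `Q ≠ 0` take `Ω` = the field of fractions of `L[x, y]`.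
* `io_fib`: in the coordinate ring `-P = w Q` (`io_rel` in Defs.lean), hence `io (fib P Q g) = Q^(deg g) g(w)`.
* `fib_deg`: for `P` = `y^a - x^b + P₀` (monic in `y` of degree `a`) and `Q` low (of `y`-degree `< a`) the term with
  `i = deg g` dominates: `(-P)^i` is of `y`-degree `a i` with the leading coefficient `(-1)^i`.
-/

set_option autoImplicit false

open Polynomial

namespace Pool.Agent.T2H65.CP

section
variable {L : Type} [Field L]

theorem fib_C (P Q : L[X][X]) (c : L) : fib P Q (C c) = C (C c) := by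
  unfold fib
  simp

/-- the value of the form at a point -/
theorem fib_val {Ω : Type} [Field Ω] (θ : L[X][X] →+* Ω) {P Q : L[X][X]} (hQ : θ Q ≠ 0) (g : L[X]) :
    θ (fib P Q g) = θ Q ^ g.natDegree * eval₂ (θ.comp (C.comp C)) (- θ P / θ Q) g := by
  unfold fib
  rw [eval₂_eq_sum_range, map_sum, Finset.mul_sum]
  refine Finset.sum_congr rfl fun i hi => ?_
  have hi' : i ≤ g.natDegree := Nat.lt_succ_iff.1 (Finset.mem_range.1 hi)
  have h1 : θ Q ^ g.natDegree = θ Q ^ (g.natDegree - i) * θ Q ^ i := by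
    rw [← pow_add, Nat.sub_add_cancel hi']
  rw [map_mul, map_mul, map_pow, map_pow, map_neg, h1, div_pow]
  show θ (C (C (g.coeff i))) * (-θ P) ^ i * θ Q ^ (g.natDegree - i) =
    θ Q ^ (g.natDegree - i) * θ Q ^ i * (θ (C (C (g.coeff i))) * ((-θ P) ^ i / θ Q ^ i))
  have h2 : θ Q ^ i ≠ 0 := pow_ne_zero _ hQ
  field_simp

theorem fib_mul {P Q : L[X][X]} (hQ : Q ≠ 0) {g h : L[X]} (hg : g ≠ 0) (hh : h ≠ 0) :
    fib P Q (g * h) = fib P Q g * fib P Q h := by
  have hinj : Function.Injective (algebraMap L[X][X] (FractionRing L[X][X])) :=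
    IsFractionRing.injective _ _
  have hQ' : algebraMap L[X][X] (FractionRing L[X][X]) Q ≠ 0 := fun h0 =>
    hQ (hinj (by rw [h0, map_zero]))
  apply hinj
  rw [map_mul, fib_val _ hQ', fib_val _ hQ', fib_val _ hQ', natDegree_mul hg hh, eval₂_mul, pow_add]
  ring

theorem fib_deg {a b : ℕ} (ha : 1 ≤ a) {P₀ Q : L[X][X]} (hP : Low a b P₀) (hQ : Low a b Q) {g : L[X]}
    (hg : g ≠ 0) : (fib (cur a b P₀) Q g).natDegree = a * g.natDegree ∧
      (fib (cur a b P₀) Q g).leadingCoeff = C ((-1) ^ g.natDegree * g.leadingCoeff) := by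
  obtain ⟨hm, hd⟩ := cab_monic (R := L) (b := b) ha hP
  set P : L[X][X] := cur a b P₀ with hPdef
  have hm : P.Monic := hm
  have hd : P.natDegree = a := hd
  set n := g.natDegree with hn
  have hc : (-1 : L) ^ n * g.leadingCoeff ≠ 0 :=
    mul_ne_zero (pow_ne_zero _ (by norm_num)) (leadingCoeff_ne_zero.2 hg)
  have hT : C (C (g.coeff n)) * (-P) ^ n * Q ^ (n - n) =
      C (C ((-1) ^ n * g.leadingCoeff)) * P ^ n := by
    rw [Nat.sub_self, pow_zero, mul_one, neg_pow P n]
    simp only [map_mul, map_pow, map_neg, map_one]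
    rw [Polynomial.leadingCoeff]
    ring
  have hTd : (C (C ((-1) ^ n * g.leadingCoeff)) * P ^ n).natDegree = a * n := by
    rw [natDegree_C_mul (C_ne_zero.2 hc), hm.natDegree_pow, hd, mul_comm]
  have hTl : (C (C ((-1) ^ n * g.leadingCoeff)) * P ^ n).leadingCoeff =
      C ((-1) ^ n * g.leadingCoeff) := by
    rw [leadingCoeff_mul, leadingCoeff_C, (hm.pow n).leadingCoeff, mul_one]
  have hT0 : C (C ((-1) ^ n * g.leadingCoeff)) * P ^ n ≠ 0 :=
    mul_ne_zero (C_ne_zero.2 (C_ne_zero.2 hc)) (hm.pow n).ne_zero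
  have hlow : (∑ i ∈ Finset.range n, C (C (g.coeff i)) * (-P) ^ i * Q ^ (n - i)).degree <
      (C (C ((-1) ^ n * g.leadingCoeff)) * P ^ n).degree := by
    rw [degree_eq_natDegree hT0, hTd, ← mem_degreeLT]
    refine Submodule.sum_mem _ fun i hi => ?_
    have hi' : i < n := Finset.mem_range.1 hi
    rw [mem_degreeLT]
    by_cases hQ0 : Q = 0
    · rw [hQ0, zero_pow (by omega), mul_zero, degree_zero]
      exact WithBot.bot_lt_coe _
    · refine degree_le_natDegree.trans_lt (Nat.cast_lt.2 ?_)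
      have h1 : Q.natDegree < a := by
        have := hQ.deg
        rw [degree_eq_natDegree hQ0] at this
        exact WithBot.coe_lt_coe.1 this
      have h2 : (C (C (g.coeff i)) * (-P) ^ i * Q ^ (n - i)).natDegree ≤
          0 + i * a + (n - i) * Q.natDegree := by
        refine natDegree_mul_le.trans (add_le_add (natDegree_mul_le.trans (add_le_add ?_ ?_)) ?_)
        · rw [natDegree_C]
        · refine natDegree_pow_le.trans ?_
          rw [natDegree_neg, hd]
        · exact natDegree_pow_le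
      refine h2.trans_lt ?_
      have h3 : (n - i) * Q.natDegree < (n - i) * a := Nat.mul_lt_mul_of_pos_left h1 (by omega)
      have h4 : i * a + (n - i) * a = a * n := by
        rw [← add_mul, Nat.add_sub_cancel' hi'.le, mul_comm]
      omega
  have hsum : fib P Q g = (∑ i ∈ Finset.range n, C (C (g.coeff i)) * (-P) ^ i * Q ^ (n - i)) +
      C (C ((-1) ^ n * g.leadingCoeff)) * P ^ n := by
    unfold fib
    rw [Finset.sum_range_succ, ← hn, hT]
  rw [hsum]
  constructor
  · rw [natDegree_add_eq_right_of_degree_lt hlow, hTd]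
  · rw [leadingCoeff_add_of_degree_lt hlow, hTl]

theorem fib_ne {a b : ℕ} (ha : 1 ≤ a) {P₀ Q : L[X][X]} (hP : Low a b P₀) (hQ : Low a b Q) {g : L[X]}
    (hg : g ≠ 0) : fib (cur a b P₀) Q g ≠ 0 := by
  intro h
  have h1 := (fib_deg ha hP hQ hg).2
  rw [h, leadingCoeff_zero] at h1
  have hc : (-1 : L) ^ g.natDegree * g.leadingCoeff ≠ 0 :=
    mul_ne_zero (pow_ne_zero _ (by norm_num)) (leadingCoeff_ne_zero.2 hg)
  exact C_ne_zero.2 hc h1.symm

variable {K : Type} [Field K] [Algebra L K]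

theorem io_fib (P Q : L[X][X]) (w : K) (g : L[X]) :
    io P Q w (fib P Q g) = io P Q w Q ^ g.natDegree * AdjoinRoot.of (mem P Q w) (C (aeval w g)) := by
  have hcc : ∀ c : L, io P Q w (C (C c)) =
      AdjoinRoot.of (mem P Q w) (C (algebraMap L K c)) := by
    intro c
    unfold io mm
    rw [RingHom.comp_apply, coe_mapRingHom, map_C, coe_mapRingHom, map_C, AdjoinRoot.mk_C]
  have hrel : - io P Q w P = AdjoinRoot.of (mem P Q w) (C w) * io P Q w Q := (io_rel P Q w).symm
  have hev : AdjoinRoot.of (mem P Q w) (C (aeval w g)) = ∑ i ∈ Finset.range (g.natDegree + 1),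
      AdjoinRoot.of (mem P Q w) (C (algebraMap L K (g.coeff i))) *
        AdjoinRoot.of (mem P Q w) (C w) ^ i := by
    rw [aeval_eq_sum_range, map_sum, map_sum]
    refine Finset.sum_congr rfl fun i _ => ?_
    rw [Algebra.smul_def, map_mul, map_mul, map_pow, map_pow]
  rw [hev, Finset.mul_sum]
  unfold fib
  rw [map_sum]
  refine Finset.sum_congr rfl fun i hi => ?_
  have hi' : i ≤ g.natDegree := Nat.lt_succ_iff.1 (Finset.mem_range.1 hi)
  have h1 : io P Q w Q ^ g.natDegree = io P Q w Q ^ (g.natDegree - i) * io P Q w Q ^ i := by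
    rw [← pow_add, Nat.sub_add_cancel hi']
  rw [map_mul, map_mul, map_pow, map_pow, map_neg, hcc, hrel, h1, mul_pow]
  ring

end

end Pool.Agent.T2H65.CP
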