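import Mathlib

/-!
# Project CP, wave 2, package MV1: the field of the affine space over `K = M(w)`

`L = M(t_1, ..., t_m)` and `K₁ = K(t_1, ..., t_m)`. The map `M[t] → K[t] → K₁` is injective, so it extends to `L → K₁`
(`IsFractionRing.lift`).

Transcendental: let `0 ≠ f ∈ L[X]`, `f(w) = 0`. Multiply with a common denominator of the coefficients: we may suppose
that `f` has coefficients `f_i` in `M[t]`, not all zero (`IsLocalization.exist_integer_multiples_of_finset`, or
`IsFractionRing.isAlgebraic_iff` / `isAlgebraic_iff'`: algebraic over `L = Frac M[t]` is the same as algebraic over `M[t]`).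
Then `∑ f_i w^i = 0` in `K₁`, hence in `K[t]`; compare the coefficients of each monomial `t^α`:
`∑_i (coefficient of t^α in f_i) w^i = 0` in `K`, so all coefficients are `0`, as `w` is transcendental over `M`.

Generators: let `E = L(w)` in `K₁`. `E` contains the image of `M` and `w`, hence the image of `K = M(w)`
(`IntermediateField.adjoin_induction`, as in `sf_line` in Pool/Agent/R410/NG/Sg.lean), and the `t_i`, hence the image of
`K[t]` (`MvPolynomial.induction_on`), hence all quotients (`IsFractionRing.div_surjective`).
-/

set_option autoImplicit false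

namespace Pool.Agent.T2H65.CP

theorem line_mv {m : ℕ} {M K L K₁ : Type} [Field M] [Field K] [Field L] [Field K₁] [Algebra M K]
    [Algebra (MvPolynomial (Fin m) M) L] [IsFractionRing (MvPolynomial (Fin m) M) L]
    [Algebra (MvPolynomial (Fin m) K) K₁] [IsFractionRing (MvPolynomial (Fin m) K) K₁] {w : K}
    (hw : Transcendental M w) (hK : IntermediateField.adjoin M {w} = ⊤) :
    ∃ _ : Algebra L K₁,
      (∀ p : MvPolynomial (Fin m) M, algebraMap L K₁ (algebraMap (MvPolynomial (Fin m) M) L p) =
        algebraMap (MvPolynomial (Fin m) K) K₁ (MvPolynomial.map (algebraMap M K) p)) ∧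
      Transcendental L (algebraMap (MvPolynomial (Fin m) K) K₁ (MvPolynomial.C w)) ∧
      IntermediateField.adjoin L {algebraMap (MvPolynomial (Fin m) K) K₁ (MvPolynomial.C w)} = ⊤ := by
  classical
  have hinj0 : Function.Injective (MvPolynomial.map (σ := Fin m) (algebraMap M K)) :=
    MvPolynomial.map_injective _ (algebraMap M K).injective
  have hinj1 : Function.Injective (algebraMap (MvPolynomial (Fin m) K) K₁) :=
    IsFractionRing.injective _ _
  let g : MvPolynomial (Fin m) M →+* K₁ :=
    (algebraMap (MvPolynomial (Fin m) K) K₁).comp (MvPolynomial.map (algebraMap M K))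
  have hg : Function.Injective g := hinj1.comp hinj0
  let j : L →+* K₁ := IsFractionRing.lift hg
  letI algL : Algebra L K₁ := j.toAlgebra
  letI algA : Algebra (MvPolynomial (Fin m) M) K₁ := g.toAlgebra
  have hjg : ∀ p : MvPolynomial (Fin m) M, algebraMap L K₁ (algebraMap (MvPolynomial (Fin m) M) L p) =
      algebraMap (MvPolynomial (Fin m) K) K₁ (MvPolynomial.map (algebraMap M K) p) := fun p =>
    IsFractionRing.lift_algebraMap hg p
  haveI tow : IsScalarTower (MvPolynomial (Fin m) M) L K₁ :=
    IsScalarTower.of_algebraMap_eq fun p => (hjg p).symm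
  refine ⟨algL, hjg, ?_, ?_⟩
  · intro halg
    have h1 : IsAlgebraic (MvPolynomial (Fin m) M)
        (algebraMap (MvPolynomial (Fin m) K) K₁ (MvPolynomial.C w)) :=
      (IsFractionRing.isAlgebraic_iff (MvPolynomial (Fin m) M) L K₁).2 halg
    obtain ⟨f, hf0, hf⟩ := h1
    have h2 : ∑ i ∈ Finset.range (f.natDegree + 1),
        MvPolynomial.map (algebraMap M K) (f.coeff i) * MvPolynomial.C (w ^ i) = 0 := by
      apply hinj1
      rw [map_zero, ← hf, Polynomial.aeval_eq_sum_range, map_sum]
      refine Finset.sum_congr rfl fun i _ => ?_
      rw [map_mul, Algebra.smul_def, map_pow, map_pow]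
      rfl
    have h3 : ∀ (α : Fin m →₀ ℕ), ∑ i ∈ Finset.range (f.natDegree + 1),
        Polynomial.monomial i (MvPolynomial.coeff α (f.coeff i)) = 0 := by
      intro α
      by_contra hne
      refine hw ⟨_, hne, ?_⟩
      have h4 := congrArg (MvPolynomial.coeff α) h2
      rw [MvPolynomial.coeff_sum, MvPolynomial.coeff_zero] at h4
      rw [map_sum, ← h4]
      refine Finset.sum_congr rfl fun i _ => ?_
      rw [mul_comm, MvPolynomial.coeff_C_mul, MvPolynomial.coeff_map, Polynomial.aeval_monomial, mul_comm]
    apply hf0
    ext i α
    rw [Polynomial.coeff_zero, MvPolynomial.coeff_zero]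
    rcases lt_or_ge f.natDegree i with hi | hi
    · rw [Polynomial.coeff_eq_zero_of_natDegree_lt hi, MvPolynomial.coeff_zero]
    · have h5 := congrArg (fun q : Polynomial M => q.coeff i) (h3 α)
      simp only [Polynomial.finset_sum_coeff, Polynomial.coeff_monomial, Polynomial.coeff_zero] at h5
      rwa [Finset.sum_ite_eq' (Finset.range (f.natDegree + 1)) i, if_pos (by
        rw [Finset.mem_range]; omega)] at h5
  · rw [eq_top_iff]
    intro z _
    set E := IntermediateField.adjoin L {algebraMap (MvPolynomial (Fin m) K) K₁ (MvPolynomial.C w)}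
      with hE
    have ha : ∀ c : K, algebraMap (MvPolynomial (Fin m) K) K₁ (MvPolynomial.C c) ∈ E := by
      intro c
      have hc : c ∈ IntermediateField.adjoin M {w} := by rw [hK]; trivial
      induction hc using IntermediateField.adjoin_induction with
      | mem x hx =>
        rw [Set.mem_singleton_iff] at hx
        rw [hx]
        exact IntermediateField.subset_adjoin _ _ rfl
      | algebraMap x =>
        have h1 := hjg (MvPolynomial.C x)
        rw [MvPolynomial.map_C] at h1
        rw [← h1]
        exact E.algebraMap_mem _
      | add x y _ _ hx hy =>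
        rw [map_add, map_add]
        exact add_mem hx hy
      | inv x _ hx =>
        have h1 : algebraMap (MvPolynomial (Fin m) K) K₁ (MvPolynomial.C x⁻¹) =
            (algebraMap (MvPolynomial (Fin m) K) K₁ (MvPolynomial.C x))⁻¹ :=
          map_inv₀ ((algebraMap (MvPolynomial (Fin m) K) K₁).comp MvPolynomial.C) x
        rw [h1]
        exact inv_mem hx
      | mul x y _ _ hx hy =>
        rw [map_mul, map_mul]
        exact mul_mem hx hy
    have hb : ∀ p : MvPolynomial (Fin m) K, algebraMap (MvPolynomial (Fin m) K) K₁ p ∈ E := by
      intro p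
      induction p using MvPolynomial.induction_on with
      | C c => exact ha c
      | add p q hp hq =>
        rw [map_add]
        exact add_mem hp hq
      | mul_X p i hp =>
        rw [map_mul]
        refine mul_mem hp ?_
        have h1 := hjg (MvPolynomial.X i)
        rw [MvPolynomial.map_X] at h1
        rw [← h1]
        exact E.algebraMap_mem _
    obtain ⟨p, q, _, rfl⟩ := IsFractionRing.div_surjective (A := MvPolynomial (Fin m) K) z
    exact div_mem (hb p) (hb q)

end Pool.Agent.T2H65.CP
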