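import Pool.Agent.R410.LW.Fg

/-!
# Project CP, wave 2, package MV2: the field `L = M(t_1, ..., t_m)`

`fg_mv`: generated by the images of the generators of `M` and by the `t_i`.
`trdeg_mv`: `trdeg ℚ L = trdeg ℚ M + m`.
-/

set_option autoImplicit false

namespace Pool.Agent.T2H65.CP

open Pool.Agent.R410.LW (FG)

theorem fg_mv {m : ℕ} {M L : Type} [Field M] [Field L] [Algebra (MvPolynomial (Fin m) M) L]
    [IsFractionRing (MvPolynomial (Fin m) M) L] (hM : FG M) : FG L := by
  classical
  obtain ⟨S, hS⟩ := hM
  let ψ : MvPolynomial (Fin m) M →+* L := algebraMap (MvPolynomial (Fin m) M) L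
  let φ : M →+* L := ψ.comp MvPolynomial.C
  refine ⟨S.image φ ∪ Finset.univ.image fun i : Fin m => ψ (MvPolynomial.X i), ?_⟩
  set Cf := Subfield.closure ((S.image φ ∪ Finset.univ.image fun i : Fin m => ψ (MvPolynomial.X i) :
    Finset L) : Set L) with hCf
  have hX : ∀ i, ψ (MvPolynomial.X i) ∈ Cf := fun i => Subfield.subset_closure (by
    rw [Finset.mem_coe]
    exact Finset.mem_union_right _ (Finset.mem_image_of_mem _ (Finset.mem_univ i)))
  have hMC : ∀ a : M, φ a ∈ Cf := by
    intro a
    have ha : a ∈ Subfield.closure (S : Set M) := by rw [hS]; trivial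
    have h1 : Subfield.closure (S : Set M) ≤ Cf.comap φ := by
      rw [Subfield.closure_le]
      intro s hs
      apply Subfield.subset_closure
      rw [Finset.mem_coe]
      exact Finset.mem_union_left _ (Finset.mem_image_of_mem _ hs)
    exact h1 ha
  have hP : ∀ p : MvPolynomial (Fin m) M, ψ p ∈ Cf := by
    intro p
    induction p using MvPolynomial.induction_on with
    | C a => exact hMC a
    | add p q hp hq =>
      rw [map_add]
      exact add_mem hp hq
    | mul_X p i hp =>
      rw [map_mul]
      exact mul_mem hp (hX i)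
  rw [eq_top_iff]
  intro z _
  obtain ⟨a, b, -, rfl⟩ := IsFractionRing.div_surjective (A := MvPolynomial (Fin m) M) z
  exact div_mem (hP a) (hP b)

theorem trdeg_mv {m : ℕ} {M L : Type} [Field M] [CharZero M] [Field L] [CharZero L]
    [Algebra (MvPolynomial (Fin m) M) L] [IsFractionRing (MvPolynomial (Fin m) M) L] {d : ℕ}
    (hd : Algebra.trdeg ℚ M = d) : Algebra.trdeg ℚ L = (d + m : ℕ) := by
  have h1 := _root_.trdeg_add_eq ℚ M (A := MvPolynomial (Fin m) M)
  rw [MvPolynomial.trdeg_of_isDomain, hd] at h1
  have ht : IsScalarTower ℚ (MvPolynomial (Fin m) M) L :=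
    IsScalarTower.of_algebraMap_eq' (Subsingleton.elim _ _)
  have hinj : Function.Injective (algebraMap (MvPolynomial (Fin m) M) L) := IsFractionRing.injective _ _
  have : FaithfulSMul (MvPolynomial (Fin m) M) L := (faithfulSMul_iff_algebraMap_injective _ _).2 hinj
  have : Algebra.IsAlgebraic (MvPolynomial (Fin m) M) L :=
    IsLocalization.isAlgebraic (R := MvPolynomial (Fin m) M) (S := L) (nonZeroDivisors (MvPolynomial (Fin m) M))
  have h2 := _root_.trdeg_add_eq ℚ (MvPolynomial (Fin m) M) (A := L)
  rw [_root_.trdeg_eq_zero (R := MvPolynomial (Fin m) M) (A := L), add_zero, ← h1] at h2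
  rw [← h2]
  simp

end Pool.Agent.T2H65.CP
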