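import Mathlib

/-!
# Project CP, wave 2, package MV3: the models of `K(t_1, ..., t_m)`, and the points of the affine space

`frac_mv`: `R[t]` is a model of `K₁ = K(t)`: the map `R[t] → K[t] → K₁` is injective; every element of `K₁` is a quotient
of two elements of `K[t]`, and every element of `K[t]` becomes an element of `R[t]` after multiplication with a nonzero
element of `R` (e.g. `IsFractionRing.of_field`, `MvPolynomial.isLocalization` + `IsFractionRing.isFractionRing_of_isDomain_of_isLocalization`,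
or `Pool.Agent.R410.LW.frac_of_closure` as in `phA_frac` in R410/NG/CBr.lean).
`sum_mv`: a homomorphism `R[t] → F` is a homomorphism `R → F` together with a point `t ∈ F^m` (template: `sum_line` in
R410/NG/Sh.lean and `polyEquiv` in R410/NG/CBs.lean).
-/

set_option autoImplicit false

namespace Pool.Agent.T2H65.CP

namespace MV3aux

/-- clearing denominators -/
theorem clear {m : ℕ} {R K : Type} [CommRing R] [IsDomain R] [Field K] [Algebra R K]
    [IsFractionRing R K] (p : MvPolynomial (Fin m) K) :
    ∃ (d : R) (P : MvPolynomial (Fin m) R), d ≠ 0 ∧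
      MvPolynomial.map (algebraMap R K) (MvPolynomial.C d) * p = MvPolynomial.map (algebraMap R K) P := by
  induction p using MvPolynomial.induction_on with
  | C a =>
    obtain ⟨x, y, hy, rfl⟩ := IsFractionRing.div_surjective (A := R) a
    have hy0 : y ≠ 0 := nonZeroDivisors.ne_zero hy
    have hy1 : algebraMap R K y ≠ 0 := by
      intro h
      exact hy0 ((IsFractionRing.injective R K) (by rw [h, map_zero]))
    refine ⟨y, MvPolynomial.C x, hy0, ?_⟩
    rw [MvPolynomial.map_C, MvPolynomial.map_C, ← MvPolynomial.C_mul, mul_div_cancel₀ _ hy1]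
  | add p q hp hq =>
    obtain ⟨d, P, hd, hP⟩ := hp
    obtain ⟨e, Q, he, hQ⟩ := hq
    refine ⟨d * e, P * MvPolynomial.C e + Q * MvPolynomial.C d, mul_ne_zero hd he, ?_⟩
    rw [map_add (MvPolynomial.map (algebraMap R K)) (P * _), map_mul _ P, map_mul _ Q, ← hP, ← hQ,
      MvPolynomial.C_mul, map_mul]
    ring
  | mul_X p i hp =>
    obtain ⟨d, P, hd, hP⟩ := hp
    refine ⟨d, P * MvPolynomial.X i, hd, ?_⟩
    rw [map_mul, ← hP, MvPolynomial.map_X, mul_assoc]

/-- the points of the affine space -/
noncomputable def mvEquiv (m : ℕ) (R F : Type) [CommRing R] [CommRing F] :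
    (MvPolynomial (Fin m) R →+* F) ≃ (R →+* F) × (Fin m → F) where
  toFun φ := (φ.comp MvPolynomial.C, fun i => φ (MvPolynomial.X i))
  invFun w := MvPolynomial.eval₂Hom w.1 w.2
  left_inv φ := by
    apply MvPolynomial.ringHom_ext
    · intro a
      rw [MvPolynomial.coe_eval₂Hom, MvPolynomial.eval₂_C]
      rfl
    · intro i
      rw [MvPolynomial.coe_eval₂Hom, MvPolynomial.eval₂_X]
  right_inv w := by
    refine Prod.ext ?_ ?_
    · refine RingHom.ext fun a => ?_
      show MvPolynomial.eval₂ w.1 w.2 (MvPolynomial.C a) = _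
      rw [MvPolynomial.eval₂_C]
    · funext i
      show MvPolynomial.eval₂ w.1 w.2 (MvPolynomial.X i) = _
      rw [MvPolynomial.eval₂_X]

end MV3aux

open MV3aux

theorem frac_mv {m : ℕ} {R K K₁ : Type} [CommRing R] [IsDomain R] [Field K] [Algebra R K]
    [IsFractionRing R K] [Field K₁] [Algebra (MvPolynomial (Fin m) K) K₁]
    [IsFractionRing (MvPolynomial (Fin m) K) K₁] :
    letI : Algebra (MvPolynomial (Fin m) R) K₁ :=
      ((algebraMap (MvPolynomial (Fin m) K) K₁).comp (MvPolynomial.map (algebraMap R K))).toAlgebra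
    IsFractionRing (MvPolynomial (Fin m) R) K₁ := by
  let _ : Algebra (MvPolynomial (Fin m) R) K₁ :=
      ((algebraMap (MvPolynomial (Fin m) K) K₁).comp (MvPolynomial.map (algebraMap R K))).toAlgebra
  have hmap : ∀ P : MvPolynomial (Fin m) R, algebraMap (MvPolynomial (Fin m) R) K₁ P =
      algebraMap (MvPolynomial (Fin m) K) K₁ (MvPolynomial.map (algebraMap R K) P) := fun _ => rfl
  have hinj : Function.Injective (algebraMap (MvPolynomial (Fin m) R) K₁) := by
    intro P Q h
    rw [hmap, hmap] at h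
    exact MvPolynomial.map_injective _ (IsFractionRing.injective R K)
      (IsFractionRing.injective (MvPolynomial (Fin m) K) K₁ h)
  have : FaithfulSMul (MvPolynomial (Fin m) R) K₁ :=
    (faithfulSMul_iff_algebraMap_injective _ _).2 hinj
  apply IsFractionRing.of_field
  intro z
  obtain ⟨p, q, hq, rfl⟩ := IsFractionRing.div_surjective (A := MvPolynomial (Fin m) K) z
  obtain ⟨d, P, hd, hP⟩ := clear (R := R) p
  obtain ⟨e, Q, he, hQ⟩ := clear (R := R) q
  have hne : ∀ d : R, d ≠ 0 → algebraMap (MvPolynomial (Fin m) R) K₁ (MvPolynomial.C d) ≠ 0 := by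
    intro d hd h
    have h1 : MvPolynomial.C d = (0 : MvPolynomial (Fin m) R) := hinj (by rw [h, map_zero])
    exact hd (MvPolynomial.C_injective (Fin m) R (by rw [h1, MvPolynomial.C_0]))
  have h1 : algebraMap (MvPolynomial (Fin m) K) K₁ p =
      algebraMap (MvPolynomial (Fin m) R) K₁ P / algebraMap (MvPolynomial (Fin m) R) K₁ (MvPolynomial.C d) := by
    rw [eq_div_iff (hne d hd), mul_comm, hmap, hmap, ← hP, map_mul]
  have h2 : algebraMap (MvPolynomial (Fin m) K) K₁ q =
      algebraMap (MvPolynomial (Fin m) R) K₁ Q / algebraMap (MvPolynomial (Fin m) R) K₁ (MvPolynomial.C e) := by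
    rw [eq_div_iff (hne e he), mul_comm, hmap, hmap, ← hQ, map_mul]
  refine ⟨P * MvPolynomial.C e, MvPolynomial.C d * Q, ?_⟩
  rw [h1, h2, div_div_div_eq, map_mul, map_mul]

theorem finite_mv {m : ℕ} {R F : Type} [CommRing R] [Field F] [Finite F] [Finite (R →+* F)] :
    Finite (MvPolynomial (Fin m) R →+* F) :=
  Finite.of_equiv _ (mvEquiv m R F).symm

theorem sum_mv {m : ℕ} {R F : Type} [CommRing R] [Field F] [Fintype F] [Fintype (R →+* F)]
    [Fintype (MvPolynomial (Fin m) R →+* F)] (P : (R →+* F) → Prop) [DecidablePred P]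
    (f : (MvPolynomial (Fin m) R →+* F) → ℝ) :
    ∑ Φ : MvPolynomial (Fin m) R →+* F, (if P (Φ.comp MvPolynomial.C) then f Φ else 0) =
      ∑ φ : R →+* F, if P φ then ∑ t : Fin m → F, f (MvPolynomial.eval₂Hom φ t) else 0 := by
  refine (Fintype.sum_equiv (mvEquiv m R F) _ (fun w => if P w.1 then
      f (MvPolynomial.eval₂Hom w.1 w.2) else 0) fun Φ => ?_).trans ?_
  · have e : MvPolynomial.eval₂Hom (mvEquiv m R F Φ).1 (mvEquiv m R F Φ).2 = Φ :=
      (mvEquiv m R F).left_inv Φ
    rw [e]
    rfl
  · rw [Fintype.sum_prod_type]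
    refine Finset.sum_congr rfl fun φ _ => ?_
    by_cases h : P φ
    · simp only [if_pos h]
    · simp only [if_neg h, Finset.sum_const_zero]

end Pool.Agent.T2H65.CP
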