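import Pool.Agent.T2H65.CP.Wb
import Pool.Agent.R410.NG.Sh

/-!
# Project CP: the points of the plane, and the sums of the weights over the points of the line
-/

set_option autoImplicit false

open Polynomial

namespace Pool.Agent.T2H65.CP

open Pool.Agent.R410.NG (Wt IsWt sT sR sT_eq sR_eq polyEquiv)

section
variable {A F : Type} [CommRing A] [Field F]

theorem plane_apply (φ : A[X][X] →+* F) (f : A[X][X]) :
    φ f = evalEval (φ (C X)) (φ X) (f.map (mapRingHom ((φ.comp C).comp C))) := by
  have h : φ = (evalEvalRingHom (φ (C X)) (φ X)).comp (mapRingHom (mapRingHom ((φ.comp C).comp C))) := by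
    apply Polynomial.ringHom_ext
    · intro p
      have h1 : φ.comp C = ((evalEvalRingHom (φ (C X)) (φ X)).comp
          (mapRingHom (mapRingHom ((φ.comp C).comp C)))).comp C := by
        apply Polynomial.ringHom_ext
        · intro z
          simp
        · simp
      exact congrArg (fun θ : A[X] →+* F => θ p) h1
    · simp
  exact congrArg (fun θ : A[X][X] →+* F => θ f) h

/-- the points of the plane -/
noncomputable def planeEquiv : (A[X][X] →+* F) ≃ (A →+* F) × (F × F) where
  toFun φ := ((φ.comp C).comp C, (φ (C X), φ X))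
  invFun w := (evalEvalRingHom w.2.1 w.2.2).comp (mapRingHom (mapRingHom w.1))
  left_inv φ := by
    refine RingHom.ext fun f => ?_
    exact (plane_apply φ f).symm
  right_inv w := by
    refine Prod.ext ?_ (Prod.ext ?_ ?_)
    · refine RingHom.ext fun z => ?_
      simp
    · simp
    · simp

open Classical in
/-- the number of the points of the plane with a property, as a sum over the points of the base -/
theorem plane_count [Finite F] [Fintype (A →+* F)] (T : Finset A[X][X]) (s : A) :
    (Nat.card {φ : A[X][X] →+* F // (∀ f ∈ T, φ f = 0) ∧ φ (C (C s)) ≠ 0} : ℝ) =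
      ∑ ψ : A →+* F, if ψ s ≠ 0 then
        (Nat.card {z : F × F // ∀ f ∈ T, evalEval z.1 z.2 (f.map (mapRingHom ψ)) = 0} : ℝ) else 0 := by
  let _ := Fintype.ofFinite F
  have e1 : {φ : A[X][X] →+* F // (∀ f ∈ T, φ f = 0) ∧ φ (C (C s)) ≠ 0} ≃
      Σ ψ : A →+* F, {z : F × F // (∀ f ∈ T, evalEval z.1 z.2 (f.map (mapRingHom ψ)) = 0) ∧ ψ s ≠ 0} := by
    refine (Equiv.subtypeEquiv (planeEquiv (A := A) (F := F)) (q := fun w =>
      (∀ f ∈ T, evalEval w.2.1 w.2.2 (f.map (mapRingHom w.1)) = 0) ∧ w.1 s ≠ 0) fun φ => ?_).trans ?_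
    · have h1 : ∀ f, evalEval ((planeEquiv φ).2.1) ((planeEquiv φ).2.2)
          (f.map (mapRingHom (planeEquiv φ).1)) = φ f := fun f => (plane_apply φ f).symm
      simp only [h1]
      rfl
    · exact
      { toFun := fun w => ⟨w.1.1, w.1.2, w.2⟩
        invFun := fun w => ⟨(w.1, w.2.1), w.2.2⟩
        left_inv := fun w => rfl
        right_inv := fun w => rfl }
  rw [Nat.card_congr e1, Nat.card_sigma]
  push_cast
  refine Finset.sum_congr rfl fun ψ _ => ?_
  by_cases h : ψ s ≠ 0
  · rw [if_pos h]
    congr 1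
    refine Nat.card_congr (Equiv.subtypeEquivRight fun z => ?_)
    simp [h]
  · rw [if_neg h]
    have : IsEmpty {z : F × F // (∀ f ∈ T, evalEval z.1 z.2 (f.map (mapRingHom ψ)) = 0) ∧ ψ s ≠ 0} :=
      ⟨fun z => h z.2.2⟩
    rw [Nat.card_of_isEmpty, Nat.cast_zero]

end

section
variable {A F : Type} [CommRing A] [Field F] {a b : ℕ} {c : ℝ}

/-- the pencil over the line over `A` -/
noncomputable def pen (P Q : A[X][X]) : A[X][X][X] :=
  P.map (mapRingHom C) + C (C X) * Q.map (mapRingHom C)

theorem pen_map {B : Type} [CommRing B] (P Q : A[X][X]) (φ : A[X] →+* B) : (pen P Q).map (mapRingHom φ) =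
    P.map (mapRingHom (φ.comp C)) + C (C (φ X)) * Q.map (mapRingHom (φ.comp C)) := by
  unfold pen
  rw [Polynomial.map_add, Polynomial.map_mul, Polynomial.map_C, Polynomial.map_map, Polynomial.map_map,
    coe_mapRingHom, Polynomial.map_C]
  have h : (mapRingHom φ).comp (mapRingHom (C : A →+* A[X])) = mapRingHom (φ.comp C) := by
    rw [mapRingHom_comp]
  rw [h]

/-- the number of the points of the curve is close to `q` for all members of the family -/
def WB (a b : ℕ) (c : ℝ) : Prop := ∀ (F : Type) [Field F] [Finite F] (g : F[X][X]), Low a b g →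
  |cnt F (lead F a b + g) - Nat.card F| ≤ c * √(Nat.card F : ℝ)

theorem wtb_fam (hw : WB a b c) [Finite F] (ha : 1 ≤ a) {g : F[X][X]} (hg : Low a b g) :
    wtb a b c F (fam a b (lead F a b + g)) = cnt F (lead F a b + g) - Nat.card F := by
  unfold wtb
  rw [crv_fam (cab_monic ha hg).1 (cab_monic ha hg).2, if_pos (hw F g hg)]

theorem wtb_map (hw : WB a b c) [Finite F] (ha : 1 ≤ a) {g : A[X][X]} (hg : Low a b g) (φ : A →+* F) :
    wtb a b c F (fun j => (fam a b (lead A a b + g) j).map φ) =
      cnt F ((lead A a b + g).map (mapRingHom φ)) - Nat.card F := by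
  have h1 : (fun j => (fam a b (lead A a b + g) j).map φ) =
      fam a b (lead F a b + g.map (mapRingHom φ)) := by
    funext j
    rw [fam_map, Polynomial.map_add, lead_map]
  rw [h1, wtb_fam hw ha (hg.map φ), Polynomial.map_add, lead_map]

theorem pen_lead (pA QA : A[X][X]) : pen (lead A a b + pA) QA =
    lead A[X] a b + (pA.map (mapRingHom C) + C (C X) * QA.map (mapRingHom C)) := by
  unfold pen
  rw [Polynomial.map_add, lead_map, add_assoc]

theorem pen_low {pA QA : A[X][X]} (hp : Low a b pA) (hq : Low a b QA) :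
    Low a b (pA.map (mapRingHom (C : A →+* A[X])) + C (C X) * QA.map (mapRingHom C)) :=
  (hp.map _).add ((hq.map _).CC _)

/-- the sum of the weights over the points of the line above a set of points of the base -/
theorem sum_pen (hw : WB a b c) [Fintype F] [Fintype (A →+* F)] [Fintype (A[X] →+* F)] (ha : 1 ≤ a)
    {pA QA : A[X][X]} (hp : Low a b pA) (hq : Low a b QA) (H : (A →+* F) → Prop) [DecidablePred H] :
    ∑ φ : A[X] →+* F, (if H (φ.comp C) then
        wtb a b c F (fun j => (fam a b (pen (lead A a b + pA) QA) j).map φ) else 0) =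
      ∑ ψ : A →+* F, if H ψ then ((Nat.card F : ℝ) *
        cnt2 F ((lead A a b + pA).map (mapRingHom ψ)) (QA.map (mapRingHom ψ)) -
        cnt F (QA.map (mapRingHom ψ))) else 0 := by
  rw [Pool.Agent.R410.NG.sum_line H
    (fun φ => wtb a b c F (fun j => (fam a b (pen (lead A a b + pA) QA) j).map φ))]
  refine Finset.sum_congr rfl fun ψ _ => ?_
  by_cases h : H ψ
  · rw [if_pos h, if_pos h, ← pencil_sum]
    refine Finset.sum_congr rfl fun τ _ => ?_
    rw [pen_lead, wtb_map hw ha (pen_low hp hq), ← pen_lead, pen_map]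
    have h1 : (eval₂RingHom ψ τ).comp C = ψ := by
      refine RingHom.ext fun z => ?_
      rw [RingHom.comp_apply, coe_eval₂RingHom, eval₂_C]
    rw [h1, coe_eval₂RingHom, eval₂_X]
  · rw [if_neg h, if_neg h]

end

end Pool.Agent.T2H65.CP
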