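import Pool.Agent.T2H65.CP.RG

/-!
# Project CP, package RA: the rank of the class group of a Dedekind domain which is outside `q` factorial

Formal. `R` is a Dedekind domain, `A` a factorial domain, `j : A → R` injective, `0 ≠ q ∈ A`; the primes of `R` which contain
`j q` are the `𝔭 i`, `i ∈ ι` (finite, different).
(1) generators: the classes `g i` of the `𝔭 i` (`ClassGroup.mk0`) generate `G = Additive (ClassGroup R)`: every class is the class of
    an integral ideal, a product of primes (`ClassGroup.mk0_surjective`, induction on prime factors); a prime `𝔮 ∌ j q` has the class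
    `- (class of J)` by `hcls`, with `j q^N ∈ J`: all prime factors of `J` contain `j q`.
(2) for an ideal `I ∋ j q^N` let `v I ∈ ℤ^ι` be the vector of the multiplicities (`normalizedFactors I).count (𝔭 i)`); `I = ∏ 𝔭_i^(v_i)`,
    `v (I J) = v I + v J`. For `π ∣ q` irreducible, `j π ∣ j q`, so `M π := v (span {j π})` is defined; `M` depends only on the ideal
    `span {π}`: `κ :=` the type of the ideals `span {π}` in the statement, which is finite as `q ≠ 0` has finitely many factors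
    up to units (`UniqueFactorizationMonoid.fintypeSubtypeDvd` or `normalizedFactors`).
(3) relations: let `∑ c_i g_i = 0`; `I = ∏_{c_i > 0} 𝔭_i^(c_i)`, `J = ∏_{c_i < 0} 𝔭_i^(-c_i)`: `(x) I = (y) J` with `x, y ≠ 0`
    (`ClassGroup.mk0_eq_mk0_iff`); both contain a power of `j q` (which is in every `𝔭_i`). `hfac`: `(j u) I = (j v) J`, so
    `c = v I - v J = v (j v) - v (j u)`, and `v (j u)` is a sum of the `M π`, `π` in the factorization of `u`. Conversely `M π` is a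
    relation, as `span {j π}` is principal.
(4) independence: `∑ n_π M_π = 0`, `u = ∏_{n > 0} π^n`, `v = ∏_{n < 0} π^(-n)`: relatively prime, and `v (j u) = v (j v)`, so
    `(j u) = (j v)` (both are products of the `𝔭_i`); `hind`: `u` and `v` are units, so all `n_π = 0`.
(5) `rank_group`.
-/

set_option autoImplicit false

open Polynomial

namespace Pool.Agent.T2H65.CP

set_option linter.unusedSectionVars false

namespace RA

open nonZeroDivisors

section
variable {R : Type} [CommRing R] [IsDedekindDomain R] {ι : Type} [Fintype ι]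

/-- the product of the powers of the `𝔭 i` -/
noncomputable def ph (𝔭 : ι → Ideal R) (c : ι → ℕ) : Ideal R := ∏ i, 𝔭 i ^ c i

theorem ph_add (𝔭 : ι → Ideal R) (c d : ι → ℕ) : ph 𝔭 (c + d) = ph 𝔭 c * ph 𝔭 d := by
  unfold ph
  rw [← Finset.prod_mul_distrib]
  exact Finset.prod_congr rfl fun i _ => by rw [Pi.add_apply, pow_add]

theorem ph_zero (𝔭 : ι → Ideal R) : ph 𝔭 0 = 1 := by
  unfold ph
  exact Finset.prod_eq_one fun i _ => by rw [Pi.zero_apply, pow_zero]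

theorem ph_single [DecidableEq ι] (𝔭 : ι → Ideal R) (i : ι) : ph 𝔭 (Pi.single i 1) = 𝔭 i := by
  unfold ph
  rw [Finset.prod_eq_single i]
  · rw [Pi.single_eq_same, pow_one]
  · intro j _ hj
    rw [Pi.single_eq_of_ne hj, pow_zero]
  · intro h
    exact absurd (Finset.mem_univ i) h

theorem ph_pow (𝔭 : ι → Ideal R) (c : ι → ℕ) (n : ℕ) : ph 𝔭 (n • c) = ph 𝔭 c ^ n := by
  induction n with
  | zero => rw [zero_smul, pow_zero, ph_zero]
  | succ n ih => rw [succ_nsmul, ph_add, ih, pow_succ]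

theorem ph_sum {κ : Type} (s : Finset κ) (𝔭 : ι → Ideal R) (c : κ → ι → ℕ) :
    ph 𝔭 (∑ x ∈ s, c x) = ∏ x ∈ s, ph 𝔭 (c x) := by
  classical
  induction s using Finset.induction_on with
  | empty => rw [Finset.sum_empty, Finset.prod_empty, ph_zero]
  | insert a s ha ih => rw [Finset.sum_insert ha, Finset.prod_insert ha, ph_add, ih]

theorem ph_ne {𝔭 : ι → Ideal R} (hp : ∀ i, 𝔭 i ≠ 0) (c : ι → ℕ) : ph 𝔭 c ≠ 0 := by
  unfold ph
  exact Finset.prod_ne_zero_iff.2 fun i _ => pow_ne_zero _ (hp i)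

theorem ph_inj {𝔭 : ι → Ideal R} (hp : ∀ i, Prime (𝔭 i)) (hpi : Function.Injective 𝔭) :
    Function.Injective (ph 𝔭) := by
  classical
  have key : ∀ c : ι → ℕ, UniqueFactorizationMonoid.normalizedFactors (ph 𝔭 c) =
      ∑ i, c i • ({𝔭 i} : Multiset (Ideal R)) := by
    intro c
    have h1 : ph 𝔭 c = (∑ i, c i • ({𝔭 i} : Multiset (Ideal R))).prod := by
      rw [Multiset.prod_sum]
      unfold ph
      exact Finset.prod_congr rfl fun i _ => by rw [Multiset.prod_nsmul, Multiset.prod_singleton]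
    rw [h1, UniqueFactorizationMonoid.normalizedFactors_prod_of_prime]
    intro P hP
    rw [Multiset.mem_sum] at hP
    obtain ⟨i, _, hi⟩ := hP
    have := Multiset.mem_of_mem_nsmul hi
    rw [Multiset.mem_singleton] at this
    rw [this]
    exact hp i
  intro c d hcd
  have h1 := key c
  rw [hcd, key d] at h1
  funext i
  have h2 : ∀ c : ι → ℕ, Multiset.count (𝔭 i) (∑ i, c i • ({𝔭 i} : Multiset (Ideal R))) = c i := by
    intro c
    rw [Multiset.count_sum', Finset.sum_eq_single i]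
    · rw [Multiset.count_nsmul, Multiset.count_singleton_self, mul_one]
    · intro j _ hj
      rw [Multiset.count_nsmul, Multiset.count_singleton, if_neg (fun h => hj (hpi h).symm), mul_zero]
    · intro h
      exact absurd (Finset.mem_univ i) h
  rw [← h2 c, ← h1, h2 d]

theorem exists_ph {𝔭 : ι → Ideal R} {a : R} (ha : a ≠ 0)
    (hp : ∀ 𝔮 : Ideal R, (𝔮.IsPrime ∧ a ∈ 𝔮) ↔ ∃ i, 𝔮 = 𝔭 i) (I : Ideal R) :
    (∃ N : ℕ, a ^ N ∈ I) → ∃ c : ι → ℕ, I = ph 𝔭 c := by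
  classical
  induction I using UniqueFactorizationMonoid.induction_on_prime with
  | h₁ =>
    rintro ⟨N, hN⟩
    exact absurd (Submodule.mem_bot R |>.1 hN) (pow_ne_zero _ ha)
  | h₂ I hI =>
    intro _
    refine ⟨0, ?_⟩
    rw [ph_zero, Ideal.one_eq_top]
    exact Ideal.isUnit_iff.1 hI
  | h₃ I P hI hP ih =>
    rintro ⟨N, hN⟩
    have h1 : P.IsPrime := Ideal.isPrime_of_prime hP
    have h3 : a ^ N ∈ P := (Ideal.mul_le_left : P * I ≤ P) hN
    have h4 : a ^ N ∈ I := (Ideal.mul_le_right : P * I ≤ I) hN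
    have h2 : a ∈ P := h1.mem_of_pow_mem N h3
    obtain ⟨i, hi⟩ := (hp P).1 ⟨h1, h2⟩
    obtain ⟨c, hc⟩ := ih ⟨N, h4⟩
    refine ⟨Pi.single i 1 + c, ?_⟩
    rw [ph_add, ph_single, ← hi, ← hc]

theorem mem_ph {𝔭 : ι → Ideal R} {a : R} (h : ∀ i, a ∈ 𝔭 i) (c : ι → ℕ) :
    a ^ (∑ i, c i) ∈ ph 𝔭 c := by
  unfold ph
  rw [← Finset.prod_pow_eq_pow_sum]
  exact Ideal.prod_mem_prod fun i _ => Ideal.pow_mem_pow (h i) _

/-- the class of the product -/
theorem class_ph {𝔭 : ι → Ideal R} (hp : ∀ i, 𝔭 i ≠ 0) (c : ι → ℕ)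
    (h : ph 𝔭 c ∈ (Ideal R)⁰) :
    ∑ i, c i • (Additive.ofMul (ClassGroup.mk0 ⟨𝔭 i, mem_nonZeroDivisors_of_ne_zero (hp i)⟩) :
      Additive (ClassGroup R)) = Additive.ofMul (ClassGroup.mk0 ⟨ph 𝔭 c, h⟩) := by
  have h1 : (⟨ph 𝔭 c, h⟩ : (Ideal R)⁰) =
      ∏ i, (⟨𝔭 i, mem_nonZeroDivisors_of_ne_zero (hp i)⟩ : (Ideal R)⁰) ^ c i := by
    apply Subtype.ext
    rw [Submonoid.coe_finsetProd]
    unfold ph
    exact Finset.prod_congr rfl fun i _ => by rw [SubmonoidClass.coe_pow]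
  rw [h1, map_prod, ofMul_prod]
  exact Finset.sum_congr rfl fun i _ => by rw [map_pow, ofMul_pow]

end

end RA

theorem rank_abs {A R : Type} [CommRing A] [IsDomain A] [UniqueFactorizationMonoid A] [CommRing R]
    [IsDedekindDomain R] (j : A →+* R) (hj : Function.Injective j) (q : A) (hq : q ≠ 0)
    {ι : Type} [Finite ι] (𝔭 : ι → Ideal R) (hpi : Function.Injective 𝔭)
    (hp : ∀ 𝔮 : Ideal R, (𝔮.IsPrime ∧ j q ∈ 𝔮) ↔ ∃ i, 𝔮 = 𝔭 i)
    (hcls : ∀ 𝔮 : Ideal R, 𝔮.IsPrime → 𝔮 ≠ ⊥ → j q ∉ 𝔮 → ∃ x : R, x ≠ 0 ∧ ∃ J : Ideal R,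
      Ideal.span {x} = 𝔮 * J ∧ ∃ N : ℕ, j q ^ N ∈ J)
    (hfac : ∀ (x y : R) (I J : Ideal R) (N : ℕ), x ≠ 0 → y ≠ 0 → j q ^ N ∈ I → j q ^ N ∈ J →
      Ideal.span {x} * I = Ideal.span {y} * J → ∃ u v : A, u ≠ 0 ∧ v ≠ 0 ∧
        (∀ π, Irreducible π → π ∣ u → π ∣ q) ∧ (∀ π, Irreducible π → π ∣ v → π ∣ q) ∧
        Ideal.span {j u} * I = Ideal.span {j v} * J)
    (hind : ∀ u v : A, u ≠ 0 → v ≠ 0 → IsRelPrime u v → (∀ π, Irreducible π → π ∣ u → π ∣ q) →
      (∀ π, Irreducible π → π ∣ v → π ∣ q) → Ideal.span {j u} = Ideal.span {j v} →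
        IsUnit u ∧ IsUnit v) :
    Finite {𝔠 : Ideal A // ∃ π : A, Irreducible π ∧ π ∣ q ∧ 𝔠 = Ideal.span {π}} ∧
    Nat.card {𝔠 : Ideal A // ∃ π : A, Irreducible π ∧ π ∣ q ∧ 𝔠 = Ideal.span {π}} ≤ Nat.card ι ∧
    Module.rank ℤ (Additive (ClassGroup R)) = ((Nat.card ι -
      Nat.card {𝔠 : Ideal A // ∃ π : A, Irreducible π ∧ π ∣ q ∧ 𝔠 = Ideal.span {π}} : ℕ) : Cardinal) := by
  classical
  have : Fintype ι := Fintype.ofFinite ι
  set κ := {𝔠 : Ideal A // ∃ π : A, Irreducible π ∧ π ∣ q ∧ 𝔠 = Ideal.span {π}} with hκ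
  have hjq : j q ≠ 0 := fun h => hq (hj (by rw [h, map_zero]))
  have hpp : ∀ i, (𝔭 i).IsPrime ∧ j q ∈ 𝔭 i := fun i => (hp (𝔭 i)).2 ⟨i, rfl⟩
  have hpb : ∀ i, 𝔭 i ≠ ⊥ := fun i h => hjq ((Submodule.mem_bot R).1 (h ▸ (hpp i).2))
  have hp0 : ∀ i, 𝔭 i ≠ 0 := hpb
  have hpP : ∀ i, Prime (𝔭 i) := fun i => Ideal.prime_of_isPrime (hpb i) (hpp i).1
  have inj := RA.ph_inj hpP hpi
  -- finiteness of the components
  have fin : Finite κ := by
    refine Set.Finite.subset (s := ((fun p : A => Ideal.span {p}) ''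
      {p | p ∈ UniqueFactorizationMonoid.factors q})) ?_ ?_
    · apply Set.Finite.image
      exact (UniqueFactorizationMonoid.factors q).finite_toSet
    · rintro 𝔠 ⟨π, h1, h2, rfl⟩
      obtain ⟨p, hp1, hp2⟩ := UniqueFactorizationMonoid.exists_mem_factors_of_dvd hq h1 h2
      exact ⟨p, hp1, (Ideal.span_singleton_eq_span_singleton.2 hp2.symm)⟩
  have : Fintype κ := Fintype.ofFinite κ
  -- the generators
  set g : ι → Additive (ClassGroup R) := fun i =>
    Additive.ofMul (ClassGroup.mk0 ⟨𝔭 i, mem_nonZeroDivisors_of_ne_zero (hp0 i)⟩) with hg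
  have phN : ∀ c : ι → ℕ, RA.ph 𝔭 c ∈ nonZeroDivisors (Ideal R) := fun c =>
    mem_nonZeroDivisors_of_ne_zero (RA.ph_ne hp0 c)
  have hcl : ∀ c : ι → ℕ, ∑ i, c i • g i = Additive.ofMul (ClassGroup.mk0 ⟨RA.ph 𝔭 c, phN c⟩) :=
    fun c => RA.class_ph hp0 c (phN c)
  have hgen : AddSubgroup.closure (Set.range g) = ⊤ := by
    rw [eq_top_iff]
    intro x _
    have kph : ∀ c : ι → ℕ, (Additive.ofMul (ClassGroup.mk0 ⟨RA.ph 𝔭 c, phN c⟩) :
        Additive (ClassGroup R)) ∈ AddSubgroup.closure (Set.range g) := by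
      intro c
      rw [← hcl c]
      refine sum_mem fun i _ => nsmul_mem (AddSubgroup.subset_closure ?_) _
      exact ⟨i, rfl⟩
    have key : ∀ I : Ideal R, ∀ h : I ∈ nonZeroDivisors (Ideal R),
        (Additive.ofMul (ClassGroup.mk0 ⟨I, h⟩) : Additive (ClassGroup R)) ∈
          AddSubgroup.closure (Set.range g) := by
      intro I
      induction I using UniqueFactorizationMonoid.induction_on_prime with
      | h₁ =>
        intro h
        exact absurd rfl (nonZeroDivisors.ne_zero h)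
      | h₂ I hI =>
        intro h
        have h1 : (⟨I, h⟩ : nonZeroDivisors (Ideal R)) = 1 := Subtype.ext ((Ideal.isUnit_iff.1 hI).trans Ideal.one_eq_top.symm)
        rw [h1, map_one, ofMul_one]
        exact zero_mem _
      | h₃ I P hI hP ih =>
        intro h
        have hP' : P ∈ nonZeroDivisors (Ideal R) := mem_nonZeroDivisors_of_ne_zero hP.ne_zero
        have hI' : I ∈ nonZeroDivisors (Ideal R) := mem_nonZeroDivisors_of_ne_zero hI
        have e : (⟨P * I, h⟩ : nonZeroDivisors (Ideal R)) = ⟨P, hP'⟩ * ⟨I, hI'⟩ := rfl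
        rw [e, map_mul, ofMul_mul]
        refine add_mem ?_ (ih hI')
        by_cases hqP : j q ∈ P
        · obtain ⟨i, hi⟩ := (hp P).1 ⟨Ideal.isPrime_of_prime hP, hqP⟩
          subst hi
          exact AddSubgroup.subset_closure ⟨i, rfl⟩
        · obtain ⟨x, hx, J, hJ, N, hN⟩ := hcls P (Ideal.isPrime_of_prime hP) hP.ne_zero hqP
          obtain ⟨c, hc⟩ := RA.exists_ph hjq hp J ⟨N, hN⟩
          have h1 : (ClassGroup.mk0 ⟨P, hP'⟩ : ClassGroup R) =
              (ClassGroup.mk0 ⟨RA.ph 𝔭 c, phN c⟩)⁻¹ :=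
            ClassGroup.mk0_eq_mk0_inv_iff.2 ⟨x, hx, by rw [hJ, hc]⟩
          rw [h1, ofMul_inv]
          exact neg_mem (kph c)
    obtain ⟨I, hI⟩ := ClassGroup.mk0_surjective x.toMul
    rw [← ofMul_toMul x, ← hI]
    exact key I.1 I.2
  -- the relations
  choose π hπ1 hπ2 hπ3 using fun 𝔠 : κ => 𝔠.2
  have hspan : ∀ u : A, u ∣ q → ∃ c : ι → ℕ, Ideal.span {j u} = RA.ph 𝔭 c := by
    intro u hu
    apply RA.exists_ph hjq hp
    exact ⟨1, by rw [pow_one]; exact Ideal.mem_span_singleton.2 (map_dvd j hu)⟩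
  choose cc hcc using fun 𝔠 : κ => hspan (π 𝔠) (hπ2 𝔠)
  set M : κ → ι → ℤ := fun 𝔠 i => (cc 𝔠 i : ℤ) with hM
  have hMrel : ∀ 𝔠, ∑ i, M 𝔠 i • g i = 0 := by
    intro 𝔠
    have h1 : ∑ i, M 𝔠 i • g i = ∑ i, cc 𝔠 i • g i :=
      Finset.sum_congr rfl fun i _ => natCast_zsmul _ _
    rw [h1, hcl, (ClassGroup.mk0_eq_one_iff (phN (cc 𝔠))).2 ⟨j (π 𝔠), (hcc 𝔠).symm⟩, ofMul_one]
  have hassoc : ∀ (p p' : A), Ideal.span {p} = Ideal.span {p'} →
      Ideal.span {j p} = Ideal.span {j p'} := by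
    intro p p' h
    have h1 := congrArg (Ideal.map j) h
    rwa [Ideal.map_span, Ideal.map_span, Set.image_singleton, Set.image_singleton] at h1
  have hfact : ∀ u : A, u ≠ 0 → (∀ p, Irreducible p → p ∣ u → p ∣ q) →
      ∃ c : ι → ℕ, Ideal.span {j u} = RA.ph 𝔭 c ∧
        (fun i => (c i : ℤ)) ∈ Submodule.span ℤ (Set.range M) := by
    intro u
    induction u using UniqueFactorizationMonoid.induction_on_prime with
    | h₁ => exact fun h => absurd rfl h
    | h₂ u hu =>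
      intro _ _
      refine ⟨0, ?_, ?_⟩
      · rw [RA.ph_zero, Ideal.one_eq_top]
        exact Ideal.span_singleton_eq_top.2 (hu.map j)
      · have : (fun i => (((0 : ι → ℕ) i : ℕ) : ℤ)) = 0 := by
          funext i
          rfl
        rw [this]
        exact Submodule.zero_mem _
    | h₃ a p ha hp' ih =>
      intro _ hdiv
      obtain ⟨c, hc1, hc2⟩ := ih ha fun p' h1 h2 => hdiv p' h1 (Dvd.dvd.mul_left h2 p)
      set 𝔠 : κ := ⟨Ideal.span {p}, p, hp'.irreducible,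
        hdiv p hp'.irreducible (dvd_mul_right p a), rfl⟩ with h𝔠
      refine ⟨cc 𝔠 + c, ?_, ?_⟩
      · rw [RA.ph_add, ← hc1, ← hcc 𝔠, ← hassoc p (π 𝔠) (hπ3 𝔠), Ideal.span_singleton_mul_span_singleton,
          map_mul]
      · have h1 : (fun i => (((cc 𝔠 + c) i : ℕ) : ℤ)) = M 𝔠 + fun i => (c i : ℤ) := by
          funext i
          rw [Pi.add_apply, Pi.add_apply, Nat.cast_add]
        rw [h1]
        exact Submodule.add_mem _ (Submodule.subset_span ⟨𝔠, rfl⟩) hc2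
  have hind' : LinearIndependent ℤ M := by
    rw [Fintype.linearIndependent_iff]
    intro n hn
    have hπ0 : ∀ 𝔠, π 𝔠 ≠ 0 := fun 𝔠 => (hπ1 𝔠).ne_zero
    set U : (κ → ℕ) → A := fun e => ∏ 𝔠, π 𝔠 ^ e 𝔠 with hU
    have hU0 : ∀ e, U e ≠ 0 := fun e => Finset.prod_ne_zero_iff.2 fun 𝔠 _ => pow_ne_zero _ (hπ0 𝔠)
    have hUd : ∀ e p, Irreducible p → p ∣ U e → ∃ 𝔠, e 𝔠 ≠ 0 ∧ Associated p (π 𝔠) := by
      intro e p hp1 hp2
      obtain ⟨𝔠, _, h1⟩ := (hp1.prime.dvd_finsetProd_iff _).1 hp2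
      refine ⟨𝔠, ?_, ?_⟩
      · intro h
        rw [h, pow_zero] at h1
        exact hp1.not_isUnit (isUnit_of_dvd_one h1)
      · exact hp1.associated_of_dvd (hπ1 𝔠) (hp1.prime.dvd_of_dvd_pow h1)
    have hUs : ∀ e, Ideal.span {j (U e)} = RA.ph 𝔭 (∑ 𝔠, e 𝔠 • cc 𝔠) := by
      intro e
      rw [RA.ph_sum, hU]
      simp only
      rw [map_prod, ← Ideal.prod_span_singleton]
      refine Finset.prod_congr rfl fun 𝔠 _ => ?_
      rw [map_pow, ← Ideal.span_singleton_pow, hcc, RA.ph_pow]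
    have hUq : ∀ e p, Irreducible p → p ∣ U e → p ∣ q := by
      intro e p hp1 hp2
      obtain ⟨𝔠, _, h1⟩ := hUd e p hp1 hp2
      exact h1.dvd.trans (hπ2 𝔠)
    have hinj : ∀ 𝔠 𝔠', Associated (π 𝔠) (π 𝔠') → 𝔠 = 𝔠' := by
      intro 𝔠 𝔠' h
      apply Subtype.ext
      rw [hπ3 𝔠, hπ3 𝔠']
      exact Ideal.span_singleton_eq_span_singleton.2 h
    set e1 : κ → ℕ := fun 𝔠 => (n 𝔠).toNat with he1
    set e2 : κ → ℕ := fun 𝔠 => (- n 𝔠).toNat with he2
    have hrp : IsRelPrime (U e1) (U e2) := by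
      intro d hd1 hd2
      by_contra hd
      obtain ⟨p, hp1, hp2⟩ := WfDvdMonoid.exists_irreducible_factor hd
        (fun h => hU0 e1 (zero_dvd_iff.1 (h ▸ hd1)))
      obtain ⟨𝔠, h1, h2⟩ := hUd e1 p hp1 (hp2.trans hd1)
      obtain ⟨𝔠', h3, h4⟩ := hUd e2 p hp1 (hp2.trans hd2)
      have h5 := hinj 𝔠 𝔠' (h2.symm.trans h4)
      rw [← h5] at h3
      simp only [he1, he2] at h1 h3
      omega
    have hsum : ∑ 𝔠, e1 𝔠 • cc 𝔠 = ∑ 𝔠, e2 𝔠 • cc 𝔠 := by
      funext i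
      have h1 := congrFun hn i
      rw [Finset.sum_apply, Pi.zero_apply] at h1
      rw [Finset.sum_apply, Finset.sum_apply]
      have h2 : ((∑ 𝔠, (e1 𝔠 • cc 𝔠) i : ℕ) : ℤ) - ((∑ 𝔠, (e2 𝔠 • cc 𝔠) i : ℕ) : ℤ) = 0 := by
        push_cast
        rw [← Finset.sum_sub_distrib, ← h1]
        refine Finset.sum_congr rfl fun 𝔠 _ => ?_
        simp only [Pi.smul_apply, smul_eq_mul, he1, he2, hM]
        push_cast
        have h3 : (((n 𝔠).toNat : ℕ) : ℤ) - (((- n 𝔠).toNat : ℕ) : ℤ) = n 𝔠 :=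
          Int.toNat_sub_toNat_neg (n 𝔠)
        rw [← sub_mul]
        congr 1
      omega
    obtain ⟨hu, hv⟩ := hind (U e1) (U e2) (hU0 _) (hU0 _) hrp (hUq _) (hUq _)
      (by rw [hUs, hUs, hsum])
    have hz : ∀ e, IsUnit (U e) → ∀ 𝔠, e 𝔠 = 0 := by
      intro e he 𝔠
      by_contra h
      exact (hπ1 𝔠).not_isUnit (isUnit_of_dvd_unit ((dvd_pow_self _ h).trans
        (Finset.dvd_prod_of_mem (fun 𝔠 => π 𝔠 ^ e 𝔠) (Finset.mem_univ 𝔠))) he)
    intro 𝔠
    have h1 := hz e1 hu 𝔠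
    have h2 := hz e2 hv 𝔠
    simp only [he1, he2] at h1 h2
    omega
  have hrel : ∀ c : ι → ℤ, ∑ i, c i • g i = 0 ↔ c ∈ Submodule.span ℤ (Set.range M) := by
    intro c
    constructor
    · intro hc
      set c1 : ι → ℕ := fun i => (c i).toNat with hc1
      set c2 : ι → ℕ := fun i => (- c i).toNat with hc2
      have hcc12 : ∀ i, ((c1 i : ℕ) : ℤ) - ((c2 i : ℕ) : ℤ) = c i := fun i =>
        Int.toNat_sub_toNat_neg (c i)
      have h1 : ∑ i, c1 i • g i = ∑ i, c2 i • g i := by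
        rw [← sub_eq_zero, ← Finset.sum_sub_distrib, ← hc]
        refine Finset.sum_congr rfl fun i _ => ?_
        rw [← hcc12 i, sub_smul, natCast_zsmul, natCast_zsmul]
      rw [hcl, hcl] at h1
      obtain ⟨x, y, hx, hy, hxy⟩ := ClassGroup.mk0_eq_mk0_iff.1 (Additive.ofMul.injective h1)
      have hm : ∀ c : ι → ℕ, j q ^ (∑ i, c i) ∈ RA.ph 𝔭 c := RA.mem_ph fun i => (hpp i).2
      obtain ⟨u, v, hu, hv, hu1, hv1, huv⟩ := hfac x y (RA.ph 𝔭 c1) (RA.ph 𝔭 c2)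
        (∑ i, c1 i + ∑ i, c2 i) hx hy
        (by rw [pow_add]; exact Ideal.mul_mem_right _ _ (hm c1))
        (by rw [pow_add]; exact Ideal.mul_mem_left _ _ (hm c2)) hxy
      obtain ⟨a, ha1, ha2⟩ := hfact u hu hu1
      obtain ⟨b, hb1, hb2⟩ := hfact v hv hv1
      rw [ha1, hb1, ← RA.ph_add, ← RA.ph_add] at huv
      have h2 := inj huv
      have h3 : c = (fun i => (b i : ℤ)) - fun i => (a i : ℤ) := by
        funext i
        have h4 := congrFun h2 i
        rw [Pi.add_apply, Pi.add_apply] at h4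
        rw [Pi.sub_apply, ← hcc12 i]
        omega
      rw [h3]
      exact Submodule.sub_mem _ hb2 ha2
    · intro hc
      have h1 : Submodule.span ℤ (Set.range M) ≤ LinearMap.ker (Fintype.linearCombination ℤ g) := by
        rw [Submodule.span_le]
        rintro _ ⟨𝔠, rfl⟩
        rw [SetLike.mem_coe, LinearMap.mem_ker, Fintype.linearCombination_apply]
        exact hMrel 𝔠
      have h2 := h1 hc
      rwa [LinearMap.mem_ker, Fintype.linearCombination_apply] at h2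
  obtain ⟨h1, h2⟩ := rank_group g hgen M hind' hrel
  rw [← Nat.card_eq_fintype_card, ← Nat.card_eq_fintype_card] at h1 h2
  exact ⟨fin, h2, h1⟩

end Pool.Agent.T2H65.CP
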