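import Mathlib

/-!
# Project CP, package RG: the rank of an abelian group given by generators and independent relations

`G` is generated by `g i`, `i ∈ ι`, and the lattice of the relations is spanned (over `ℤ`) by the linearly independent
family `M`. The map `ℤ^ι → G`, `c ↦ ∑ c_i g_i`, is surjective, with the kernel `N = span M`, of rank `card κ`
(`rank_span`, `LinearIndependent.span...`, `finrank_span_eq_card`). The rank is additive: `rank G + rank N = rank ℤ^ι = card ι`
(`rank_quotient_add_rank_of_isDomain` or `Submodule.rank_quotient_add_rank` / `HasRankNullity`, and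
`LinearMap.quotKerEquivOfSurjective`, `LinearEquiv.rank_eq`).
-/

set_option autoImplicit false

open Polynomial

namespace Pool.Agent.T2H65.CP

theorem rank_group {ι κ : Type} [Fintype ι] [Fintype κ] {G : Type} [AddCommGroup G] (g : ι → G)
    (hg : AddSubgroup.closure (Set.range g) = ⊤) (M : κ → ι → ℤ) (hM : LinearIndependent ℤ M)
    (hrel : ∀ c : ι → ℤ, ∑ i, c i • g i = 0 ↔ c ∈ Submodule.span ℤ (Set.range M)) :
    Module.rank ℤ G = ((Fintype.card ι - Fintype.card κ : ℕ) : Cardinal) ∧
      Fintype.card κ ≤ Fintype.card ι := by
  classical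
  set f : (ι → ℤ) →ₗ[ℤ] G := Fintype.linearCombination ℤ g with hf
  have hsurj : Function.Surjective f := by
    rw [← LinearMap.range_eq_top, hf, Fintype.range_linearCombination]
    rw [eq_top_iff]
    intro x _
    have hx : x ∈ AddSubgroup.closure (Set.range g) := by rw [hg]; trivial
    induction hx using AddSubgroup.closure_induction with
    | mem x hx => exact Submodule.subset_span hx
    | zero => exact Submodule.zero_mem _
    | add x y _ _ hx hy => exact Submodule.add_mem _ (hx trivial) (hy trivial)
    | neg x _ hx => exact Submodule.neg_mem _ (hx trivial)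
  have hker : LinearMap.ker f = Submodule.span ℤ (Set.range M) := by
    ext c
    rw [LinearMap.mem_ker, ← hrel c, hf, Fintype.linearCombination_apply]
  have hrk : Module.rank ℤ (LinearMap.ker f) = (Fintype.card κ : Cardinal) := by
    rw [hker, rank_span hM, Cardinal.mk_range_eq _ hM.injective, Cardinal.mk_fintype]
  have h1 := rank_quotient_add_rank_of_isDomain (LinearMap.ker f)
  rw [hrk, LinearEquiv.rank_eq (f.quotKerEquivOfSurjective hsurj), rank_fun'] at h1
  have h2 : Module.rank ℤ G < Cardinal.aleph0 := by
    refine lt_of_le_of_lt (le_add_right le_rfl) (lt_of_eq_of_lt h1 (Cardinal.natCast_lt_aleph0))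
  obtain ⟨n, hn⟩ := Cardinal.lt_aleph0.1 h2
  rw [hn] at h1 ⊢
  have h3 : n + Fintype.card κ = Fintype.card ι := by exact_mod_cast h1
  constructor
  · congr 1
    omega
  · omega

end Pool.Agent.T2H65.CP
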