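import Pool.Agent.T2H65.CP.Cu
import Pool.Agent.R410.NG.Sh

/-!
# Project CP: the residue for the surfaces fibred over the line
-/

set_option autoImplicit false
set_option maxHeartbeats 1000000

open Polynomial NumberField IsDedekindDomain

namespace Pool.Agent.T2H65.CP

open Pool.Agent.R410.LW (FG)
open Pool.Agent.R410.BS (cF hom_le)
open Pool.Agent.R410.NG (Wt IsWt sT sR sT_eq sR_eq polyEquiv Asy avg all_models phA phA_apply phA_frac
  trdeg_line exists_ringk rho rho_apply exists_line tr_swap fg_line residue_one residue_small residue_add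
  residue_shift wone sum_line map_line finsum_sub)
open Pool.Agent.Y707.PR (HasResidue)

section
variable {R K k : Type} [CommRing R] [IsDomain R] [Algebra.FiniteType ℤ R] [Field K] [CharZero K]
  [Algebra R K] [IsFractionRing R K] [Field k] [NumberField k] [Algebra (𝓞 k) R]

/-- the averages of one curve divided by the norm -/
theorem avg_small' {J : Type} {w : Wt J} {n : J → ℕ} {c : ℝ} (hw : IsWt w n c) {e : ℕ}
    (he : Algebra.trdeg ℚ K ≤ e) {g : J → R[X]} (hg : ∀ j, (g j).Monic ∧ (g j).natDegree = n j)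
    (N : R) (S : Finset (HeightOneSpectrum (𝓞 k))) :
    HasResidue S (fun v => (Ideal.absNorm v.asIdeal : ℝ)⁻¹ * avg w g N e v) 1 0 := by
  classical
  have hc := hw.c0
  obtain ⟨C3, hC3, g3⟩ := hom_le (R := R) (K := K) (IsFractionRing.injective R K) he
  refine residue_small (C := C3 * c) (by positivity) fun v => ?_
  have hfin := Pool.Agent.H341R2.finite_v v
  have hqn' : ((Ideal.absNorm v.asIdeal : ℕ) : ℝ) = (Nat.card (𝓞 k ⧸ v.asIdeal) : ℝ) := rfl
  let _ : Fintype (R →+* 𝓞 k ⧸ v.asIdeal) := Fintype.ofFinite _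
  unfold avg
  rw [sR_eq, hqn']
  set q : ℝ := (Nat.card (𝓞 k ⧸ v.asIdeal) : ℝ) with hq
  have hq0 : 0 < q := by
    rw [hq]
    exact_mod_cast Nat.card_pos
  have hs : √q * √q = q := Real.mul_self_sqrt hq0.le
  have hs0 : 0 ≤ √q := Real.sqrt_nonneg _
  have hqe : 0 < q ^ e := by positivity
  have h1 : |∑ φ : R →+* 𝓞 k ⧸ v.asIdeal, if φ.comp (algebraMap (𝓞 k) R) =
      Ideal.Quotient.mk v.asIdeal ∧ φ N ≠ 0 then w (𝓞 k ⧸ v.asIdeal) (fun j => (g j).map φ) else 0| ≤
      (C3 * q ^ e) * (c * √q) := by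
    calc _ ≤ ∑ φ : R →+* 𝓞 k ⧸ v.asIdeal, |if φ.comp (algebraMap (𝓞 k) R) =
          Ideal.Quotient.mk v.asIdeal ∧ φ N ≠ 0 then w (𝓞 k ⧸ v.asIdeal) (fun j => (g j).map φ)
          else 0| := Finset.abs_sum_le_sum_abs _ _
      _ ≤ ∑ φ : R →+* 𝓞 k ⧸ v.asIdeal, c * √q := by
          refine Finset.sum_le_sum fun φ _ => ?_
          split_ifs
          · exact hw.bound _ _ fun j => ⟨(hg j).1.map φ, by rw [(hg j).1.natDegree_map, (hg j).2]⟩
          · rw [abs_zero]
            positivity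
      _ = (Nat.card (R →+* 𝓞 k ⧸ v.asIdeal) : ℝ) * (c * √q) := by
          rw [Finset.sum_const, Finset.card_univ, nsmul_eq_mul, Nat.card_eq_fintype_card]
      _ ≤ (C3 * q ^ e) * (c * √q) :=
          mul_le_mul_of_nonneg_right (g3 _) (by positivity)
  rw [abs_mul, abs_mul, abs_of_pos (inv_pos.2 hq0), abs_of_pos (inv_pos.2 hqe)]
  calc q⁻¹ * ((q ^ e)⁻¹ * _) * √q ≤ q⁻¹ * ((q ^ e)⁻¹ * ((C3 * q ^ e) * (c * √q))) * √q := by
        gcongr
    _ = (q⁻¹ * (√q * √q)) * ((q ^ e)⁻¹ * q ^ e) * (C3 * c) := by ring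
    _ = C3 * c := by rw [hs, inv_mul_cancel₀ hq0.ne', inv_mul_cancel₀ hqe.ne']; ring

end

section
variable {F : Type} [Field F]

/-- the trace on `H²` -/
noncomputable def tr3 (F : Type) [Field F] (P : F[X][X][X]) (P' : F[X][X]) : ℝ :=
  2 * (Nat.card F : ℝ) + (∑ᶠ t : F, (cnt F (P.map (mapRingHom (evalRingHom t))) - Nat.card F)) +
    (cnt F P' - Nat.card F)

theorem map_line3 {R : Type} [CommRing R] (G : R[X][X][X]) (φ : R →+* F) (t : F) :
    (G.map (mapRingHom (mapRingHom φ))).map (mapRingHom (evalRingHom t)) =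
      G.map (mapRingHom (eval₂RingHom φ t)) := by
  rw [Polynomial.map_map, mapRingHom_comp]
  congr 2
  apply Polynomial.ringHom_ext
  · intro a
    rw [RingHom.comp_apply, coe_mapRingHom, Polynomial.map_C, coe_evalRingHom, eval_C,
      coe_eval₂RingHom, eval₂_C]
  · rw [RingHom.comp_apply, coe_mapRingHom, Polynomial.map_X, coe_evalRingHom, eval_X,
      coe_eval₂RingHom, eval₂_X]

end

section
variable {M K K₁ L : Type} [Field M] [CharZero M] [Field K] [CharZero K] [Field K₁] [CharZero K₁]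
  [Field L] [CharZero L] [Algebra M K] [Algebra K K₁] [Algebra M L] {ω : K} {x₀ : L} {t : K₁}

/-- the generic fibre -/
noncomputable def gx {E L : Type} [Field E] [Field L] [Algebra E L] (x₀ : L) (p : E[X][X][X]) : L[X][X] :=
  p.map (mapRingHom (aeval x₀ : E[X] →ₐ[E] L).toRingHom)

/-- the surface -/
noncomputable def srf (a b : ℕ) (P₀ Q : M[X][X][X]) (ω : K) : K[X][X][X] :=
  lead K[X] a b + P₀.map (mapRingHom (mapRingHom (algebraMap M K))) +
    C (C (C ω)) * Q.map (mapRingHom (mapRingHom (algebraMap M K)))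

/-- the generic fibre is a member of a pencil over the field of the line -/
theorem srf_line (hω : Transcendental M ω) (htop : IntermediateField.adjoin M {ω} = ⊤)
    (ht : Transcendental M x₀) (hL : IntermediateField.adjoin M {x₀} = ⊤)
    (htt : Transcendental K t) (hK₁ : IntermediateField.adjoin K {t} = ⊤) :
    ∃ _ : Algebra L K₁, Transcendental L (algebraMap K K₁ ω) ∧
      IntermediateField.adjoin L {algebraMap K K₁ ω} = ⊤ ∧
      (∀ m : M, algebraMap L K₁ (algebraMap M L m) = algebraMap K K₁ (algebraMap M K m)) ∧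
      ∀ (a b : ℕ) (P₀ Q : M[X][X][X]), gx t (srf a b P₀ Q ω) =
        mem (cur a b (gx x₀ P₀)) (gx x₀ Q) (algebraMap K K₁ ω) := by
  let _ : Algebra M K₁ := ((algebraMap K K₁).comp (algebraMap M K)).toAlgebra
  have _ : IsScalarTower M K K₁ := IsScalarTower.of_algebraMap_eq fun m => rfl
  have hxM : Transcendental M t := htt.restrictScalars (FaithfulSMul.algebraMap_injective M K)
  obtain ⟨_, hst, hx₀⟩ := exists_line ht hL hxM
  have hxK : Transcendental K (algebraMap L K₁ x₀) := by rw [hx₀]; exact htt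
  have h1 : Transcendental L (algebraMap K K₁ ω) := tr_swap hω hxK hL
  refine ⟨inferInstance, h1, ?_, ?_, ?_⟩
  · have hωL : algebraMap K K₁ ω ∈ IntermediateField.adjoin L {algebraMap K K₁ ω} :=
      IntermediateField.subset_adjoin L _ (Set.mem_singleton _)
    have hK : ∀ z : K, algebraMap K K₁ z ∈ IntermediateField.adjoin L {algebraMap K K₁ ω} := by
      intro z
      have hz : z ∈ IntermediateField.adjoin M {ω} := by rw [htop]; trivial
      induction hz using IntermediateField.adjoin_induction with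
      | mem z hz =>
        rw [Set.mem_singleton_iff.1 hz]
        exact hωL
      | algebraMap a =>
        rw [← IsScalarTower.algebraMap_apply, IsScalarTower.algebraMap_apply M L K₁]
        exact IntermediateField.algebraMap_mem _ _
      | add u v _ _ h1 h2 => rw [map_add]; exact add_mem h1 h2
      | mul u v _ _ h1 h2 => rw [map_mul]; exact mul_mem h1 h2
      | inv u _ h1 => rw [map_inv₀]; exact inv_mem h1
    rw [eq_top_iff]
    intro z _
    have hz : z ∈ IntermediateField.adjoin K {t} := by rw [hK₁]; trivial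
    induction hz using IntermediateField.adjoin_induction with
    | mem z hz =>
      rw [Set.mem_singleton_iff.1 hz, ← hx₀]
      exact IntermediateField.algebraMap_mem _ _
    | algebraMap a => exact hK a
    | add u v _ _ h1 h2 => exact add_mem (h1 trivial) (h2 trivial)
    | mul u v _ _ h1 h2 => exact mul_mem (h1 trivial) (h2 trivial)
    | inv u _ h1 => exact inv_mem (h1 trivial)
  · intro m
    rw [← IsScalarTower.algebraMap_apply]
    rfl
  · intro a b P₀ Q
    have hcomp : (aeval t : K[X] →ₐ[K] K₁).toRingHom.comp (mapRingHom (algebraMap M K)) =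
        (algebraMap L K₁).comp (aeval x₀ : M[X] →ₐ[M] L).toRingHom := by
      apply Polynomial.ringHom_ext
      · intro z
        show aeval t ((C z).map (algebraMap M K)) = algebraMap L K₁ (aeval x₀ (C z))
        rw [Polynomial.map_C, aeval_C, aeval_C]
        exact (IsScalarTower.algebraMap_apply M K K₁ z).symm.trans
          (IsScalarTower.algebraMap_apply M L K₁ z)
      · show aeval t ((X : M[X]).map (algebraMap M K)) = algebraMap L K₁ (aeval x₀ X)
        rw [Polynomial.map_X, aeval_X, aeval_X, hx₀]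
    have e : ∀ p : M[X][X][X], gx t (p.map (mapRingHom (mapRingHom (algebraMap M K)))) =
        mm L K₁ (gx x₀ p) := by
      intro p
      unfold gx mm
      rw [coe_mapRingHom, Polynomial.map_map, Polynomial.map_map, mapRingHom_comp, mapRingHom_comp,
        hcomp]
    rw [mem_eq, ← e, ← e]
    unfold srf gx
    rw [Polynomial.map_add, Polynomial.map_add, lead_map, Polynomial.map_mul, Polynomial.map_C,
      coe_mapRingHom, Polynomial.map_C, add_assoc]
    congr 3
    show C (C (aeval t (C ω))) = _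
    rw [aeval_C]

end

section
variable {M K L : Type} [Field M] [CharZero M] [Field K] [CharZero K] [Algebra M K] {ω : K}
  [Field L] [CharZero L] [Algebra M L] {x₀ : L}

theorem tr_X (E : Type) [Field E] : Transcendental E (RatFunc.X : RatFunc E) := by
  rw [transcendental_iff_injective]
  intro p q h
  apply RatFunc.algebraMap_injective E
  rwa [RatFunc.aeval_X_left_eq_algebraMap, RatFunc.aeval_X_left_eq_algebraMap] at h

theorem charZero_ratFunc (E : Type) [Field E] [CharZero E] : CharZero (RatFunc E) :=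
  charZero_of_injective_algebraMap (algebraMap E (RatFunc E)).injective

variable {k : Type} [Field k] [NumberField k] [Algebra k M] {a b : ℕ} {P₀ Q : M[X][X][X]} {c : ℝ}

theorem gx_inj (ht : Transcendental M x₀) : Function.Injective (gx x₀ : M[X][X][X] → L[X][X]) := by
  unfold gx
  refine Polynomial.map_injective _ ?_
  rw [coe_mapRingHom]
  exact Polynomial.map_injective _ (transcendental_iff_injective.1 ht)

theorem gx_low {p : M[X][X][X]} (h : Low a b p) : Low a b (gx x₀ p) := h.map _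

/-- the sum over the points of the line -/
theorem residue_srf (hM : FG M) {d : ℕ} (hd : Algebra.trdeg ℚ M = d)
    (hω : Transcendental M ω) (htop : IntermediateField.adjoin M {ω} = ⊤)
    (ht : Transcendental M x₀) (hL : IntermediateField.adjoin M {x₀} = ⊤)
    (ha : 2 ≤ a) (hb : 2 ≤ b) (hab : a.Coprime b) (hP : Low a b P₀) (hQ : Low a b Q) (hQ0 : Q ≠ 0)
    (hw : WB a b c) (hc : 0 ≤ c) {R : Type} [CommRing R] [IsDomain R]
    [Algebra.FiniteType ℤ R] [Algebra R K] [IsFractionRing R K] [Algebra (𝓞 k) R]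
    (hk : ∀ z : 𝓞 k, algebraMap R K (algebraMap (𝓞 k) R z) = algebraMap M K (algebraMap k M z))
    {g₀ : R[X][X][X]} (hg : Low a b g₀)
    (hGm : (lead R[X] a b + g₀).map (mapRingHom (mapRingHom (algebraMap R K))) = srf a b P₀ Q ω)
    {g₁ : R[X][X]} (hg₁ : Low a b g₁) {N : R} (hN : N ≠ 0)
    (S : Finset (HeightOneSpectrum (𝓞 k))) :
    HasResidue S (fun v => ((Nat.card (𝓞 k ⧸ v.asIdeal) : ℝ) ^ (d + 1))⁻¹ *
      ∑ᶠ φ : {φ : R →+* 𝓞 k ⧸ v.asIdeal //
        φ.comp (algebraMap (𝓞 k) R) = Ideal.Quotient.mk v.asIdeal ∧ φ N ≠ 0},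
          tr3 (𝓞 k ⧸ v.asIdeal) ((lead R[X] a b + g₀).map (mapRingHom (mapRingHom φ.1)))
            ((lead R a b + g₁).map (mapRingHom φ.1))) 2
      ((2 + ((Nat.card (MaxPts (cur a b (gx x₀ P₀)) (gx x₀ Q)) : ℤ) - Nat.card (Comps (gx x₀ Q))) : ℤ) : ℝ) := by
  classical
  have htr : Algebra.trdeg ℚ K = (d + 1 : ℕ) := trdeg_line hd hω htop
  have hKF : FG K := fg_line hM htop
  have htt := tr_X K
  have hK₁ : IntermediateField.adjoin K {(RatFunc.X : RatFunc K)} = ⊤ := RatFunc.adjoin_X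
  have hcK := charZero_ratFunc K
  have hLd : Algebra.trdeg ℚ L = (d + 1 : ℕ) := trdeg_line hd ht hL
  have hLF : FG L := fg_line hM hL
  obtain ⟨iL, h1, h2, h3, h4⟩ := srf_line (L := L) (x₀ := x₀) hω htop ht hL htt hK₁
  have hft0 : Algebra.FiniteType ℤ R[X] := inferInstance
  have hft := Pool.Agent.R410.LW.ft_int _ hft0
  let _ : Algebra R[X] (RatFunc K) := (phA (M := K) R (RatFunc.X : RatFunc K)).toAlgebra
  have hfr : IsFractionRing R[X] (RatFunc K) := phA_frac R htt hK₁
  let _ : Algebra k L := ((algebraMap M L).comp (algebraMap k M)).toAlgebra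
  have hSit : Sit a b (gx x₀ P₀) (gx x₀ Q) (algebraMap K (RatFunc K) ω) :=
    { ha := ha
      hb := hb
      hab := hab
      hP := gx_low hP
      hQ := gx_low hQ
      hQ0 := fun h0 => hQ0 (gx_inj ht (by rw [h0]; unfold gx; rw [Polynomial.map_zero]))
      hw := h1
      top := h2 }
  have hGK : (lead R[X] a b + g₀).map (mapRingHom (algebraMap R[X] (RatFunc K))) =
      mem (cur a b (gx x₀ P₀)) (gx x₀ Q) (algebraMap K (RatFunc K) ω) := by
    rw [← h4, ← hGm]
    unfold gx
    rw [Polynomial.map_map, mapRingHom_comp]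
    congr 2
    refine RingHom.ext fun p => ?_
    show phA (M := K) R (RatFunc.X : RatFunc K) p = _
    rw [phA_apply]
    rfl
  have hCN : (C N : R[X]) ≠ 0 := C_ne_zero.2 hN
  have r0 := residue_curve (k := k) hLF hLd hSit hw hc R[X] (by
      intro z
      rw [Polynomial.algebraMap_apply]
      show phA (M := K) R (RatFunc.X : RatFunc K) (C (algebraMap (𝓞 k) R z)) = _
      rw [phA_apply, Polynomial.map_C, aeval_C, hk]
      exact (h3 _).symm) hg hGK hCN S
  have ha1 : 1 ≤ a := le_trans one_le_two ha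
  have hlow1 : ∀ j, ((lead R a b + g₁).coeff j).natDegree ≤ b := by
    intro j
    rw [coeff_add]
    refine (natDegree_add_le _ _).trans (max_le ?_ ?_)
    · unfold lead
      rw [coeff_sub, coeff_X_pow, coeff_C]
      refine (natDegree_sub_le _ _).trans (max_le ?_ ?_)
      · split_ifs <;> simp
      · split_ifs <;> simp
    · rw [natDegree_le_iff_coeff_eq_zero]
      intro i hi
      by_contra h1
      have h2 := hg₁ i j h1
      have h3 : a * b < a * i := Nat.mul_lt_mul_of_pos_left hi (by omega)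
      omega
  have r1 := residue_one (k := k) hKF htr hN S
  have r2 := avg_small' (k := k) (K := K) (isWt_wtb (a := a) (b := b) hc) (e := d + 1) htr.le
    (g := fam a b (lead R a b + g₁)) (fun j => fam_monic hlow1 j) N S
  have r3 := residue_shift (residue_add (residue_add (residue_add r1 r1) r0) r2)
  have e : (1 : ℝ) + 1 + (((Nat.card (MaxPts (cur a b (gx x₀ P₀)) (gx x₀ Q)) : ℤ) -
      Nat.card (Comps (gx x₀ Q)) : ℤ) : ℝ) + 0 =
      ((2 + ((Nat.card (MaxPts (cur a b (gx x₀ P₀)) (gx x₀ Q)) : ℤ) - Nat.card (Comps (gx x₀ Q))) : ℤ) : ℝ) := by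
    push_cast
    ring
  rw [e] at r3
  convert r3 using 2 with v
  have hfin := Pool.Agent.H341R2.finite_v v
  have hqn : (Ideal.absNorm v.asIdeal : ℝ) = (Nat.card (𝓞 k ⧸ v.asIdeal) : ℝ) := rfl
  let _ : Fintype (𝓞 k ⧸ v.asIdeal) := Fintype.ofFinite _
  let _ : Fintype (R →+* 𝓞 k ⧸ v.asIdeal) := Fintype.ofFinite _
  have hfX : Finite (R[X] →+* 𝓞 k ⧸ v.asIdeal) :=
    Finite.of_equiv _ (polyEquiv (A := R) (F := 𝓞 k ⧸ v.asIdeal)).symm
  let _ : Fintype (R[X] →+* 𝓞 k ⧸ v.asIdeal) := Fintype.ofFinite _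
  have e9 : sR (wtb a b c) (algebraMap (𝓞 k) R[X]) (fam a b (lead R[X] a b + g₀)) (C N) (𝓞 k ⧸ v.asIdeal)
      (Ideal.Quotient.mk v.asIdeal) = ∑ φ : R →+* 𝓞 k ⧸ v.asIdeal,
        if φ.comp (algebraMap (𝓞 k) R) = Ideal.Quotient.mk v.asIdeal ∧ φ N ≠ 0 then
        ∑ t : 𝓞 k ⧸ v.asIdeal, wtb a b c (𝓞 k ⧸ v.asIdeal)
          (fun j => (fam a b (lead R[X] a b + g₀) j).map (eval₂RingHom φ t)) else 0 := by
    rw [sR_eq]
    refine Eq.trans ?_ (sum_line (fun φ : R →+* 𝓞 k ⧸ v.asIdeal => φ.comp (algebraMap (𝓞 k) R) =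
      Ideal.Quotient.mk v.asIdeal ∧ φ N ≠ 0) (fun Φ => wtb a b c (𝓞 k ⧸ v.asIdeal)
        (fun j => (fam a b (lead R[X] a b + g₀) j).map Φ)))
    exact Finset.sum_congr rfl fun Φ _ => if_congr Iff.rfl rfl rfl
  unfold avg
  rw [e9, sR_eq, sR_eq, hqn]
  rw [finsum_sub (fun φ : R →+* 𝓞 k ⧸ v.asIdeal => φ.comp (algebraMap (𝓞 k) R) =
    Ideal.Quotient.mk v.asIdeal ∧ φ N ≠ 0)
    (fun φ => tr3 (𝓞 k ⧸ v.asIdeal) ((lead R[X] a b + g₀).map (mapRingHom (mapRingHom φ)))
            ((lead R a b + g₁).map (mapRingHom φ)))]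
  have e6 : ∀ φ : R →+* 𝓞 k ⧸ v.asIdeal, tr3 (𝓞 k ⧸ v.asIdeal)
      ((lead R[X] a b + g₀).map (mapRingHom (mapRingHom φ))) ((lead R a b + g₁).map (mapRingHom φ)) =
      2 * (Nat.card (𝓞 k ⧸ v.asIdeal) : ℝ) + (∑ t : 𝓞 k ⧸ v.asIdeal,
        wtb a b c (𝓞 k ⧸ v.asIdeal) (fun j => (fam a b (lead R[X] a b + g₀) j).map (eval₂RingHom φ t))) +
        wtb a b c (𝓞 k ⧸ v.asIdeal) (fun j => (fam a b (lead R a b + g₁) j).map φ) := by
    intro φ
    unfold tr3
    rw [finsum_eq_sum_of_fintype, wtb_map hw ha1 hg₁]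
    congr 2
    refine Finset.sum_congr rfl fun t _ => ?_
    rw [map_line3, wtb_map hw ha1 hg]
  set q : ℝ := (Nat.card (𝓞 k ⧸ v.asIdeal) : ℝ) with hq
  have hq0 : q ≠ 0 := by
    rw [hq]
    exact_mod_cast (Nat.card_pos (α := 𝓞 k ⧸ v.asIdeal)).ne'
  have e7 : ∀ φ : R →+* 𝓞 k ⧸ v.asIdeal, (if φ.comp (algebraMap (𝓞 k) R) =
      Ideal.Quotient.mk v.asIdeal ∧ φ N ≠ 0 then
        tr3 (𝓞 k ⧸ v.asIdeal) ((lead R[X] a b + g₀).map (mapRingHom (mapRingHom φ)))
            ((lead R a b + g₁).map (mapRingHom φ)) else 0) =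
      2 * q * (if φ.comp (algebraMap (𝓞 k) R) = Ideal.Quotient.mk v.asIdeal ∧ φ N ≠ 0 then
        wone (𝓞 k ⧸ v.asIdeal) (fun j : Empty => (j.elim : R[X]).map φ) else 0) +
      (if φ.comp (algebraMap (𝓞 k) R) = Ideal.Quotient.mk v.asIdeal ∧ φ N ≠ 0 then
        ∑ t : 𝓞 k ⧸ v.asIdeal, wtb a b c (𝓞 k ⧸ v.asIdeal)
          (fun j => (fam a b (lead R[X] a b + g₀) j).map (eval₂RingHom φ t)) else 0) +
      (if φ.comp (algebraMap (𝓞 k) R) = Ideal.Quotient.mk v.asIdeal ∧ φ N ≠ 0 then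
        wtb a b c (𝓞 k ⧸ v.asIdeal) (fun j => (fam a b (lead R a b + g₁) j).map φ) else 0) := by
    intro φ
    rw [e6]
    unfold wone
    split_ifs <;> ring
  rw [Finset.sum_congr rfl fun φ _ => e7 φ, Finset.sum_add_distrib, Finset.sum_add_distrib,
    ← Finset.mul_sum]
  have e8 : q * (q ^ (d + 1 + 1))⁻¹ = (q ^ (d + 1))⁻¹ := by
    rw [pow_succ q (d + 1), mul_inv, ← mul_assoc, mul_comm q, mul_assoc, mul_inv_cancel₀ hq0, mul_one]
  rw [← e8]
  field_simp
  ring

end

end Pool.Agent.T2H65.CP
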