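import Pool.Agent.T2H65.CP.Defs

/-!
# Project CP, package W: the weighted degree `a i + b j`

`sg` is the substitution `x ↦ T^a`, `y ↦ Z T^b`: the target is `E[Z][T]`, i.e. again `E[X][X]`, where now the inner
variable is `Z` and the outer variable is `T`. The monomial `x^i y^j` goes to `Z^j T^(a i + b j)`; hence for `a ≥ 1`
the coefficient of `T^n` in `sg f` is `∑_{a i + b j = n} f_{ij} Z^j` and `sg` is injective. The weighted degree is the
degree in `T` of `sg f`. All lemmas are immediate from `sg_coeff` (write `f` as a sum of monomials, or prove it by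
induction: both sides are additive in `f`).
-/

set_option autoImplicit false

open Polynomial

namespace Pool.Agent.T2H65.CP

section
variable (E : Type) [Field E] (a b : ℕ)

/-- the substitution `x ↦ T^a`, `y ↦ Z T^b` -/
noncomputable def sg : E[X][X] →+* E[X][X] :=
  eval₂RingHom (eval₂RingHom (C.comp C) (X ^ a)) (C X * X ^ b)

end

section
variable {E : Type} [Field E] {a b : ℕ}

/-- the weighted degree -/
noncomputable def wd (a b : ℕ) (f : E[X][X]) : ℕ := (sg E a b f).natDegree

theorem sg_mono (i k : ℕ) (c : E) : sg E a b (monomial k (monomial i c)) =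
    C (C c * X ^ k) * X ^ (a * i + b * k) := by
  unfold sg
  rw [coe_eval₂RingHom, eval₂_monomial, coe_eval₂RingHom, eval₂_monomial, RingHom.comp_apply, mul_pow,
    ← pow_mul, ← pow_mul, pow_add, C_mul, C_pow]
  ring

theorem sg_coeff (ha : 1 ≤ a) (f : E[X][X]) (n j : ℕ) : ((sg E a b f).coeff n).coeff j =
    if b * j ≤ n ∧ a ∣ n - b * j then (f.coeff j).coeff ((n - b * j) / a) else 0 := by
  induction f using Polynomial.induction_on' with
  | add p q hp hq =>
    rw [map_add, coeff_add, coeff_add, hp, hq, coeff_add, coeff_add]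
    split_ifs <;> simp
  | monomial k p =>
    induction p using Polynomial.induction_on' with
    | add p q hp hq =>
      rw [map_add, map_add, coeff_add, coeff_add, hp, hq, coeff_add, coeff_add]
      split_ifs <;> simp
    | monomial i c =>
      rw [sg_mono, coeff_C_mul, coeff_X_pow, coeff_monomial]
      by_cases hkj : k = j
      · subst hkj
        rw [if_pos rfl, coeff_monomial]
        by_cases hn : n = a * i + b * k
        · have h1 : n - b * k = a * i := by omega
          have h2 : b * k ≤ n := by omega
          rw [if_pos hn, mul_one, coeff_C_mul, coeff_X_pow, if_pos rfl, mul_one, h1,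
            if_pos ⟨h2, Dvd.intro _ rfl⟩, Nat.mul_div_cancel_left _ (by omega), if_pos rfl]
        · rw [if_neg hn, mul_zero, coeff_zero]
          split_ifs with h1 h2
          · exfalso
            apply hn
            obtain ⟨h3, h4⟩ := h1
            have h5 := Nat.mul_div_cancel' h4
            rw [← h2] at h5
            omega
          · rfl
          · rfl
      · rw [if_neg hkj, coeff_zero, ite_self]
        split_ifs
        · rw [mul_one, coeff_C_mul, coeff_X_pow, if_neg (fun h => hkj h.symm), mul_zero]
        · rw [mul_zero, coeff_zero]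

theorem sg_coeff' (ha : 1 ≤ a) (f : E[X][X]) (i j : ℕ) :
    ((sg E a b f).coeff (a * i + b * j)).coeff j = (f.coeff j).coeff i := by
  rw [sg_coeff ha, if_pos ⟨by omega, by rw [Nat.add_sub_cancel]; exact Dvd.intro _ rfl⟩,
    Nat.add_sub_cancel, Nat.mul_div_cancel_left _ (by omega)]

theorem sg_inj (ha : 1 ≤ a) : Function.Injective (sg E a b) := by
  intro f g h
  ext j i
  rw [← sg_coeff' (b := b) ha f, ← sg_coeff' (b := b) ha g, h]

theorem wd_le_iff (ha : 1 ≤ a) {f : E[X][X]} {N : ℕ} :
    wd a b f ≤ N ↔ ∀ i j, (f.coeff j).coeff i ≠ 0 → a * i + b * j ≤ N := by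
  unfold wd
  rw [natDegree_le_iff_coeff_eq_zero]
  constructor
  · intro h i j hij
    by_contra hc
    apply hij
    rw [← sg_coeff' (b := b) ha f, h _ (by omega), coeff_zero]
  · intro h n hn
    ext j
    rw [sg_coeff ha, coeff_zero]
    split_ifs with h1
    · by_contra hc
      have h2 := h _ _ hc
      have h3 := Nat.mul_div_cancel' h1.2
      rw [h3] at h2
      have := h1.1
      omega
    · rfl

theorem le_wd (ha : 1 ≤ a) {f : E[X][X]} {i j : ℕ} (h : (f.coeff j).coeff i ≠ 0) :
    a * i + b * j ≤ wd a b f := (wd_le_iff ha).1 le_rfl i j h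

theorem exists_wd (ha : 1 ≤ a) {f : E[X][X]} (hf : f ≠ 0) :
    ∃ i j, (f.coeff j).coeff i ≠ 0 ∧ a * i + b * j = wd a b f := by
  have h1 : sg E a b f ≠ 0 := fun h => hf (sg_inj ha (by rw [h, map_zero]))
  have h2 : (sg E a b f).leadingCoeff ≠ 0 := leadingCoeff_ne_zero.2 h1
  obtain ⟨j, hj⟩ : ∃ j, (sg E a b f).leadingCoeff.coeff j ≠ 0 := by
    by_contra h'
    push Not at h'
    exact h2 (Polynomial.ext h')
  rw [leadingCoeff, sg_coeff ha] at hj
  split_ifs at hj with h3
  · refine ⟨_, j, hj, ?_⟩
    rw [Nat.mul_div_cancel' h3.2]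
    have := h3.1
    unfold wd
    omega
  · exact absurd rfl hj

theorem wd_mul (ha : 1 ≤ a) {f g : E[X][X]} (hf : f ≠ 0) (hg : g ≠ 0) :
    wd a b (f * g) = wd a b f + wd a b g := by
  unfold wd
  rw [map_mul, natDegree_mul (fun h => hf (sg_inj ha (by rw [h, map_zero])))
    (fun h => hg (sg_inj ha (by rw [h, map_zero])))]

/-- the leading form of the equation of the curve -/
theorem sg_cab (ha : 1 ≤ a) (hb : 1 ≤ b) {g : E[X][X]} (hg : Low a b g) :
    (sg E a b (lead E a b + g)).coeff (a * b) = X ^ a - 1 := by
  have h1 : sg E a b (lead E a b) = C (X ^ a) * X ^ (a * b) - X ^ (a * b) := by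
    unfold sg lead
    rw [map_sub, map_pow, coe_eval₂RingHom, eval₂_X, eval₂_C, coe_eval₂RingHom, eval₂_pow, eval₂_X,
      mul_pow, ← pow_mul, ← pow_mul, C_pow, mul_comm b a]
  have h2 : (sg E a b g).coeff (a * b) = 0 := by
    ext j
    rw [sg_coeff ha, coeff_zero]
    split_ifs with h3
    · by_contra hc
      have h4 := hg _ _ hc
      rw [Nat.mul_div_cancel' h3.2] at h4
      have := h3.1
      omega
    · rfl
  rw [map_add, coeff_add, h2, add_zero, h1, coeff_sub, coeff_C_mul, coeff_X_pow, if_pos rfl, mul_one]

/-- the weighted degree of the equation of the curve -/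
theorem wd_cab (ha : 1 ≤ a) (hb : 1 ≤ b) {g : E[X][X]} (hg : Low a b g) : wd a b (lead E a b + g) = a * b := by
  apply le_antisymm
  · rw [wd_le_iff ha]
    intro i j hij
    rw [coeff_add, coeff_add] at hij
    by_cases h1 : (g.coeff j).coeff i = 0
    · rw [h1, add_zero] at hij
      unfold lead at hij
      rw [coeff_sub, coeff_X_pow, coeff_C, coeff_sub] at hij
      by_cases hj : j = a
      · subst hj
        rw [if_pos rfl, if_neg (by omega), coeff_zero, sub_zero, coeff_one] at hij
        have hi : i = 0 := by
          by_contra hc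
          exact hij (if_neg hc)
        subst hi
        rw [mul_comm b j]
        omega
      · rw [if_neg hj, coeff_zero, zero_sub] at hij
        by_cases hj0 : j = 0
        · subst hj0
          rw [if_pos rfl, coeff_X_pow] at hij
          have hi : i = b := by
            by_contra hc
            exact hij (by rw [if_neg hc, neg_zero])
          subst hi
          omega
        · exact absurd (by rw [if_neg hj0, coeff_zero, neg_zero]) hij
    · exact (hg i j h1).le
  · apply le_natDegree_of_ne_zero
    rw [sg_cab ha hb hg]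
    exact X_pow_sub_C_ne_zero (by omega) (1 : E)

end

end Pool.Agent.T2H65.CP
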