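import Pool.Agent.T2H65.CP.Defs
import Pool.Agent.R410.NG.Tr2

/-!
# Project CP: the weight of a curve, and the sum over a pencil
-/

set_option autoImplicit false

open Polynomial

namespace Pool.Agent.T2H65.CP

open Pool.Agent.R410.NG (Wt IsWt)

/-- the number of the zeros -/
noncomputable def cnt (F : Type) [Field F] (f : F[X][X]) : ℝ :=
  (Nat.card {z : F × F // evalEval z.1 z.2 f = 0} : ℝ)

/-- the number of the common zeros -/
noncomputable def cnt2 (F : Type) [Field F] (f g : F[X][X]) : ℝ :=
  (Nat.card {z : F × F // evalEval z.1 z.2 f = 0 ∧ evalEval z.1 z.2 g = 0} : ℝ)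

/-- the curve with the coefficients `p_j - x^(b+1)` -/
noncomputable def crv (a b : ℕ) {R : Type} [CommRing R] (p : Fin a → R[X]) : R[X][X] :=
  X ^ a + ∑ j : Fin a, C (p j - X ^ (b + 1)) * X ^ (j : ℕ)

/-- the coefficients of a curve, made monic -/
noncomputable def fam (a b : ℕ) {R : Type} [CommRing R] (g : R[X][X]) (j : Fin a) : R[X] :=
  g.coeff j + X ^ (b + 1)

open Classical in
/-- the weight: the number of the points minus `q`, cut off -/
noncomputable def wtb (a b : ℕ) (c : ℝ) : Wt (Fin a) := fun F _ p =>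
  if |cnt F (crv a b p) - Nat.card F| ≤ c * √(Nat.card F : ℝ) then cnt F (crv a b p) - Nat.card F else 0

section
variable {a b : ℕ} {R S : Type} [CommRing R] [CommRing S]

theorem crv_map (φ : R →+* S) (p : Fin a → R[X]) :
    crv a b (fun j => (p j).map φ) = (crv a b p).map (mapRingHom φ) := by
  unfold crv
  rw [Polynomial.map_add, Polynomial.map_pow, Polynomial.map_X, Polynomial.map_sum]
  congr 1
  refine Finset.sum_congr rfl fun j _ => ?_
  rw [Polynomial.map_mul, Polynomial.map_C, Polynomial.map_pow, Polynomial.map_X, coe_mapRingHom,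
    Polynomial.map_sub, Polynomial.map_pow, Polynomial.map_X]

theorem crv_fam {g : R[X][X]} (hg : g.Monic) (hd : g.natDegree = a) : crv a b (fam a b g) = g := by
  unfold crv fam
  have h1 := hg.as_sum
  rw [hd] at h1
  conv_rhs => rw [h1]
  congr 1
  rw [Finset.sum_range]
  refine Finset.sum_congr rfl fun j _ => ?_
  rw [add_sub_cancel_right]

theorem fam_monic [Nontrivial R] {g : R[X][X]} (hd : ∀ j, (g.coeff j).natDegree ≤ b) (j : Fin a) :
    (fam a b g j).Monic ∧ (fam a b g j).natDegree = b + 1 := by
  unfold fam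
  have h1 : (g.coeff j).degree < ((X : R[X]) ^ (b + 1)).degree := by
    rw [degree_X_pow]
    refine lt_of_le_of_lt degree_le_natDegree ?_
    exact_mod_cast Nat.lt_succ_of_le (hd j)
  refine ⟨(monic_X_pow (b + 1)).add_of_right h1, ?_⟩
  rw [natDegree_add_eq_right_of_degree_lt h1, natDegree_X_pow]

theorem fam_map (φ : R →+* S) (g : R[X][X]) (j : Fin a) :
    (fam a b g j).map φ = fam a b (g.map (mapRingHom φ)) j := by
  unfold fam
  rw [Polynomial.map_add, Polynomial.map_pow, Polynomial.map_X, coeff_map, coe_mapRingHom]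

end

section
variable {F F' : Type} [Field F] [Field F']

theorem evalEval_map (e : F →+* F') (x y : F) (f : F[X][X]) :
    evalEval (e x) (e y) (f.map (mapRingHom e)) = e (evalEval x y f) := by
  rw [← eval₂_evalRingHom, eval₂_map, ← eval₂_evalRingHom, hom_eval₂]
  congr 1
  refine RingHom.ext fun g => ?_
  rw [RingHom.comp_apply, RingHom.comp_apply, coe_mapRingHom, coe_evalRingHom, coe_evalRingHom,
    eval_map, eval₂_at_apply]

theorem cnt_iso (e : F ≃+* F') (f : F[X][X]) : cnt F' (f.map (mapRingHom (e : F →+* F'))) = cnt F f := by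
  unfold cnt
  congr 1
  refine (Nat.card_congr ?_).symm
  refine Equiv.subtypeEquiv (e.toEquiv.prodCongr e.toEquiv) fun z => ?_
  have h := evalEval_map (e : F →+* F') z.1 z.2 f
  show evalEval z.1 z.2 f = 0 ↔ evalEval (e z.1) (e z.2) (f.map (mapRingHom (e : F →+* F'))) = 0
  have h2 : evalEval (e z.1) (e z.2) (f.map (mapRingHom (e : F →+* F'))) = e (evalEval z.1 z.2 f) := h
  rw [h2, map_eq_zero_iff _ e.injective]

end

theorem isWt_wtb {a b : ℕ} {c : ℝ} (hc : 0 ≤ c) : IsWt (wtb a b c) (fun _ => b + 1) c where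
  c0 := hc
  iso F F' _ _ e p := by
    unfold wtb
    rw [crv_map, cnt_iso, Nat.card_congr e.toEquiv]
  bound F _ _ p _ := by
    unfold wtb
    split_ifs with h
    · exact h
    · rw [abs_zero]
      positivity

section
variable {F : Type} [Field F] [Finite F]

/-- the sum over the members of a pencil -/
theorem pencil_sum [Fintype F] (p q : F[X][X]) :
    ∑ τ : F, (cnt F (p + C (C τ) * q) - Nat.card F) = Nat.card F * cnt2 F p q - cnt F q := by
  classical
  have h1 : ∀ f : F[X][X], cnt F f = ∑ z : F × F, if evalEval z.1 z.2 f = 0 then (1 : ℝ) else 0 := by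
    intro f
    unfold cnt
    rw [Nat.card_eq_fintype_card, Fintype.card_subtype, Finset.sum_boole]
  have h2 : cnt2 F p q = ∑ z : F × F, if evalEval z.1 z.2 p = 0 ∧ evalEval z.1 z.2 q = 0 then (1 : ℝ) else 0 := by
    unfold cnt2
    rw [Nat.card_eq_fintype_card, Fintype.card_subtype, Finset.sum_boole]
  have h3 : ∀ z : F × F, (∑ τ : F, if evalEval z.1 z.2 (p + C (C τ) * q) = 0 then (1 : ℝ) else 0) =
      (Nat.card F : ℝ) * (if evalEval z.1 z.2 p = 0 ∧ evalEval z.1 z.2 q = 0 then (1 : ℝ) else 0) +
        1 - (if evalEval z.1 z.2 q = 0 then (1 : ℝ) else 0) := by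
    intro z
    have h4 : ∀ τ : F, evalEval z.1 z.2 (p + C (C τ) * q) = evalEval z.1 z.2 p + τ * evalEval z.1 z.2 q := by
      intro τ
      rw [evalEval_add, evalEval_mul, evalEval_C, eval_C]
    simp only [h4]
    by_cases hq : evalEval z.1 z.2 q = 0
    · rw [hq]
      by_cases hp : evalEval z.1 z.2 p = 0
      · rw [hp]
        simp [Nat.card_eq_fintype_card]
      · simp [hp]
    · have h5 : ∀ τ : F, (evalEval z.1 z.2 p + τ * evalEval z.1 z.2 q = 0) ↔
          τ = - evalEval z.1 z.2 p / evalEval z.1 z.2 q := by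
        intro τ
        rw [eq_div_iff hq]
        constructor
        · intro h
          linear_combination h
        · intro h
          linear_combination h
      simp only [h5]
      simp [hq]
  have h6 : ∑ τ : F, cnt F (p + C (C τ) * q) = (Nat.card F : ℝ) * cnt2 F p q + (Nat.card F : ℝ) ^ 2 -
      cnt F q := by
    simp only [h1, h2]
    rw [Finset.sum_comm]
    rw [Finset.sum_congr rfl fun z _ => h3 z, Finset.sum_sub_distrib, Finset.sum_add_distrib,
      ← Finset.mul_sum]
    congr 2
    rw [Finset.sum_const, Finset.card_univ, Fintype.card_prod, nsmul_eq_mul, mul_one,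
      Nat.card_eq_fintype_card]
    push_cast
    ring
  rw [Finset.sum_sub_distrib, h6, Finset.sum_const, Finset.card_univ, nsmul_eq_mul,
    Nat.card_eq_fintype_card]
  ring

end

end Pool.Agent.T2H65.CP
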