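import Pool.Agent.T2H65.CP.Su
import Pool.Agent.T2H65.CP.Est
import Pool.Agent.T2H65.CP.MV1
import Pool.Agent.T2H65.CP.MV2
import Pool.Agent.T2H65.CP.MV3

/-!
# Project CP: the residue for the varieties fibred over the projective space
-/

set_option autoImplicit false
set_option maxHeartbeats 1000000

open Polynomial NumberField IsDedekindDomain

namespace Pool.Agent.T2H65.CP

open Pool.Agent.R410.LW (FG)
open Pool.Agent.R410.BS (cF hom_le)
open Pool.Agent.R410.NG (Wt IsWt sT sR sT_eq sR_eq Asy avg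
  trdeg_line exists_ringk rho rho_apply fg_line residue_one residue_small residue_add
  residue_shift wone finsum_sub)
open Pool.Agent.Y707.PR (HasResidue)

section
variable {m : ℕ} {F : Type} [Field F]

/-- the number of the points of the cone over the affine part -/
noncomputable def npt (F : Type) [Field F] (G : (MvPolynomial (Fin m) F)[X][X]) : ℕ :=
  Nat.card {z : (Fin m → F) × (F × F) // z.1 ≠ 0 ∧
    evalEval z.2.1 z.2.2 (G.map (mapRingHom (MvPolynomial.eval z.1))) = 0}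

open Classical in
theorem npt_eq [Fintype F] (G : (MvPolynomial (Fin m) F)[X][X]) : (npt F G : ℝ) =
    ∑ t : Fin m → F, if t ≠ 0 then cnt F (G.map (mapRingHom (MvPolynomial.eval t))) else 0 := by
  unfold npt
  have e1 : {z : (Fin m → F) × (F × F) // z.1 ≠ 0 ∧
      evalEval z.2.1 z.2.2 (G.map (mapRingHom (MvPolynomial.eval z.1))) = 0} ≃
      Σ t : Fin m → F, {z : F × F // t ≠ 0 ∧
        evalEval z.1 z.2 (G.map (mapRingHom (MvPolynomial.eval t))) = 0} :=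
    { toFun := fun z => ⟨z.1.1, z.1.2, z.2⟩
      invFun := fun z => ⟨(z.1, z.2.1), z.2.2⟩
      left_inv := fun z => rfl
      right_inv := fun z => rfl }
  rw [Nat.card_congr e1, Nat.card_sigma]
  push_cast
  refine Finset.sum_congr rfl fun t _ => ?_
  by_cases h : t ≠ 0
  · rw [if_pos h]
    unfold cnt
    congr 1
    refine Nat.card_congr (Equiv.subtypeEquivRight fun z => ?_)
    simp [h]
  · rw [if_neg h]
    have : IsEmpty {z : F × F // t ≠ 0 ∧
        evalEval z.1 z.2 (G.map (mapRingHom (MvPolynomial.eval t))) = 0} := ⟨fun z => h z.2.1⟩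
    rw [Nat.card_of_isEmpty, Nat.cast_zero]

theorem map_line_mv {R : Type} [CommRing R] (G : (MvPolynomial (Fin m) R)[X][X]) (φ : R →+* F)
    (t : Fin m → F) : (G.map (mapRingHom (MvPolynomial.map φ))).map (mapRingHom (MvPolynomial.eval t)) =
      G.map (mapRingHom (MvPolynomial.eval₂Hom φ t)) := by
  rw [Polynomial.map_map, mapRingHom_comp]
  congr 2
  refine RingHom.ext fun p => ?_
  rw [RingHom.comp_apply, MvPolynomial.eval_map]
  rfl

end

section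
variable {m : ℕ} {M K K₁ L : Type} [Field M] [Field K] [Field K₁] [Field L] [Algebra M K]
  [Algebra (MvPolynomial (Fin m) M) L] [IsFractionRing (MvPolynomial (Fin m) M) L]
  [Algebra (MvPolynomial (Fin m) K) K₁] [IsFractionRing (MvPolynomial (Fin m) K) K₁] {ω : K}

/-- the generic fibre -/
noncomputable def gm (L : Type) {A : Type} [CommRing A] [Field L] [Algebra A L] (p : A[X][X]) : L[X][X] :=
  p.map (mapRingHom (algebraMap A L))

/-- the variety -/
noncomputable def srm (a b : ℕ) (P₀ Q : (MvPolynomial (Fin m) M)[X][X]) (ω : K) :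
    (MvPolynomial (Fin m) K)[X][X] :=
  lead (MvPolynomial (Fin m) K) a b + P₀.map (mapRingHom (MvPolynomial.map (algebraMap M K))) +
    C (C (MvPolynomial.C ω)) * Q.map (mapRingHom (MvPolynomial.map (algebraMap M K)))

omit [IsFractionRing (MvPolynomial (Fin m) M) L] [IsFractionRing (MvPolynomial (Fin m) K) K₁] in
theorem gm_srm [Algebra L K₁] (h : ∀ p : MvPolynomial (Fin m) M,
      algebraMap L K₁ (algebraMap (MvPolynomial (Fin m) M) L p) =
        algebraMap (MvPolynomial (Fin m) K) K₁ (MvPolynomial.map (algebraMap M K) p))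
    (a b : ℕ) (P₀ Q : (MvPolynomial (Fin m) M)[X][X]) : gm K₁ (srm a b P₀ Q ω) =
      mem (cur a b (gm L P₀)) (gm L Q) (algebraMap (MvPolynomial (Fin m) K) K₁ (MvPolynomial.C ω)) := by
  have hcomp : (algebraMap (MvPolynomial (Fin m) K) K₁).comp (MvPolynomial.map (algebraMap M K)) =
      (algebraMap L K₁).comp (algebraMap (MvPolynomial (Fin m) M) L) :=
    RingHom.ext fun p => (h p).symm
  have e : ∀ p : (MvPolynomial (Fin m) M)[X][X],
      gm K₁ (p.map (mapRingHom (MvPolynomial.map (algebraMap M K)))) = mm L K₁ (gm L p) := by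
    intro p
    unfold gm mm
    rw [coe_mapRingHom, Polynomial.map_map, Polynomial.map_map, mapRingHom_comp, mapRingHom_comp, hcomp]
  rw [mem_eq, ← e, ← e]
  unfold srm gm
  rw [Polynomial.map_add, Polynomial.map_add, lead_map, Polynomial.map_mul, Polynomial.map_C,
    coe_mapRingHom, Polynomial.map_C, add_assoc]

theorem gm_inj {A : Type} [CommRing A] [IsDomain A] [Algebra A L] [IsFractionRing A L] :
    Function.Injective (gm L : A[X][X] → L[X][X]) := by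
  unfold gm
  refine Polynomial.map_injective _ ?_
  rw [coe_mapRingHom]
  exact Polynomial.map_injective _ (IsFractionRing.injective A L)

end

section
variable {s : ℕ} {M K L K₁ : Type} [Field M] [CharZero M] [Field K] [CharZero K] [Algebra M K] {ω : K}
  [Field L] [CharZero L] [Field K₁] [CharZero K₁]
  [Algebra (MvPolynomial (Fin (s + 2)) M) L] [IsFractionRing (MvPolynomial (Fin (s + 2)) M) L]
  [Algebra (MvPolynomial (Fin (s + 2)) K) K₁] [IsFractionRing (MvPolynomial (Fin (s + 2)) K) K₁]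
  {k : Type} [Field k] [NumberField k] [Algebra k M] {a b : ℕ}
  {P₀ Q : (MvPolynomial (Fin (s + 2)) M)[X][X]} {c : ℝ}

/-- the sum over the points of the cone -/
theorem residue_srm (hM : FG M) {d : ℕ} (hd : Algebra.trdeg ℚ M = d)
    (hω : Transcendental M ω) (htop : IntermediateField.adjoin M {ω} = ⊤)
    (ha : 2 ≤ a) (hb : 2 ≤ b) (hab : a.Coprime b) (hP : Low a b P₀) (hQ : Low a b Q) (hQ0 : Q ≠ 0)
    (hw : WB a b c) (hc : 0 ≤ c) (K₁ : Type) [Field K₁] [CharZero K₁]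
    [Algebra (MvPolynomial (Fin (s + 2)) K) K₁] [IsFractionRing (MvPolynomial (Fin (s + 2)) K) K₁]
    {R : Type} [CommRing R] [IsDomain R]
    [Algebra.FiniteType ℤ R] [Algebra R K] [IsFractionRing R K] [Algebra (𝓞 k) R]
    (hk : ∀ z : 𝓞 k, algebraMap R K (algebraMap (𝓞 k) R z) = algebraMap M K (algebraMap k M z))
    {g₀ : (MvPolynomial (Fin (s + 2)) R)[X][X]} (hg : Low a b g₀)
    (hGm : (lead (MvPolynomial (Fin (s + 2)) R) a b + g₀).map
      (mapRingHom (MvPolynomial.map (algebraMap R K))) = srm a b P₀ Q ω)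
    {N : R} (hN : N ≠ 0) (S : Finset (HeightOneSpectrum (𝓞 k)))
    (β : ∀ v : HeightOneSpectrum (𝓞 k), (R →+* 𝓞 k ⧸ v.asIdeal) → ℝ) {B : ℝ} (hB : 0 ≤ B)
    (hβ : ∀ (v : HeightOneSpectrum (𝓞 k)) (φ : R →+* 𝓞 k ⧸ v.asIdeal),
      φ.comp (algebraMap (𝓞 k) R) = Ideal.Quotient.mk v.asIdeal → φ N ≠ 0 →
      |β v φ - ((Nat.card (𝓞 k ⧸ v.asIdeal) : ℝ) ^ s)⁻¹ *
        (((npt (𝓞 k ⧸ v.asIdeal) ((lead (MvPolynomial (Fin (s + 2)) R) a b + g₀).map
          (mapRingHom (MvPolynomial.map φ))) : ℝ) + (Nat.card (𝓞 k ⧸ v.asIdeal) : ℝ) ^ (s + 2) - 1) /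
          ((Nat.card (𝓞 k ⧸ v.asIdeal) : ℝ) - 1) - (Nat.card (𝓞 k ⧸ v.asIdeal) : ℝ) ^ (s + 2))| ≤
        B * √(Nat.card (𝓞 k ⧸ v.asIdeal) : ℝ)) :
    HasResidue S (fun v => ((Nat.card (𝓞 k ⧸ v.asIdeal) : ℝ) ^ (d + 1))⁻¹ *
      ∑ᶠ φ : {φ : R →+* 𝓞 k ⧸ v.asIdeal //
        φ.comp (algebraMap (𝓞 k) R) = Ideal.Quotient.mk v.asIdeal ∧ φ N ≠ 0}, β v φ.1) 2
      ((2 + ((Nat.card (MaxPts (cur a b (gm L P₀)) (gm L Q)) : ℤ) - Nat.card (Comps (gm L Q))) : ℤ) : ℝ) := by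
  classical
  have htr : Algebra.trdeg ℚ K = (d + 1 : ℕ) := trdeg_line hd hω htop
  have hKF : FG K := fg_line hM htop
  have hLd : Algebra.trdeg ℚ L = (d + (s + 2) : ℕ) := trdeg_mv (m := s + 2) (M := M) (L := L) hd
  have hLF : FG L := fg_mv (m := s + 2) (M := M) (L := L) hM
  obtain ⟨iL, h3, h1, h2⟩ := line_mv (m := s + 2) (L := L) (K₁ := K₁) hω htop
  have h4 := gm_srm (L := L) (K₁ := K₁) (ω := ω) h3
  have hft0 : Algebra.FiniteType ℤ (MvPolynomial (Fin (s + 2)) R) :=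
    Algebra.FiniteType.trans (S := R) inferInstance inferInstance
  have hft := Pool.Agent.R410.LW.ft_int _ hft0
  let _ : Algebra (MvPolynomial (Fin (s + 2)) R) K₁ :=
    ((algebraMap (MvPolynomial (Fin (s + 2)) K) K₁).comp (MvPolynomial.map (algebraMap R K))).toAlgebra
  have hfr : IsFractionRing (MvPolynomial (Fin (s + 2)) R) K₁ := frac_mv
  let _ : Algebra k L := ((algebraMap (MvPolynomial (Fin (s + 2)) M) L).comp
    (MvPolynomial.C.comp (algebraMap k M))).toAlgebra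
  have hSit : Sit a b (gm L P₀) (gm L Q) (algebraMap (MvPolynomial (Fin (s + 2)) K) K₁ (MvPolynomial.C ω)) :=
    { ha := ha
      hb := hb
      hab := hab
      hP := hP.map _
      hQ := hQ.map _
      hQ0 := fun h0 => hQ0 (gm_inj (L := L) (by rw [h0]; unfold gm; rw [Polynomial.map_zero]))
      hw := h1
      top := h2 }
  have hGK : (lead (MvPolynomial (Fin (s + 2)) R) a b + g₀).map
      (mapRingHom (algebraMap (MvPolynomial (Fin (s + 2)) R) K₁)) =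
      mem (cur a b (gm L P₀)) (gm L Q) (algebraMap (MvPolynomial (Fin (s + 2)) K) K₁ (MvPolynomial.C ω)) := by
    rw [← h4, ← hGm]
    unfold gm
    rw [Polynomial.map_map, mapRingHom_comp]
    rfl
  have hCN : (MvPolynomial.C N : MvPolynomial (Fin (s + 2)) R) ≠ 0 := by
    rw [Ne, MvPolynomial.C_eq_zero]
    exact hN
  have r0 := residue_curve (k := k) hLF hLd hSit hw hc (MvPolynomial (Fin (s + 2)) R) (by
      intro z
      show algebraMap (MvPolynomial (Fin (s + 2)) K) K₁ (MvPolynomial.map (algebraMap R K)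
        (algebraMap (𝓞 k) (MvPolynomial (Fin (s + 2)) R) z)) = algebraMap L K₁
        (algebraMap (MvPolynomial (Fin (s + 2)) M) L (MvPolynomial.C (algebraMap k M z)))
      rw [h3, MvPolynomial.map_C, MvPolynomial.algebraMap_apply, MvPolynomial.map_C, hk]) hg hGK hCN S
  have ha1 : 1 ≤ a := le_trans one_le_two ha
  have r1 := residue_one (k := k) hKF htr hN S
  -- the error
  obtain ⟨C3, hC3, g3⟩ := hom_le (R := R) (K := K) (IsFractionRing.injective R K) htr.le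
  set mn : ∀ v : HeightOneSpectrum (𝓞 k), (R →+* 𝓞 k ⧸ v.asIdeal) → ℝ := fun v φ =>
    2 * (Nat.card (𝓞 k ⧸ v.asIdeal) : ℝ) + ((Nat.card (𝓞 k ⧸ v.asIdeal) : ℝ) ^ (s + 1))⁻¹ *
      ∑ᶠ t : Fin (s + 2) → 𝓞 k ⧸ v.asIdeal, wtb a b c (𝓞 k ⧸ v.asIdeal)
        (fun j => (fam a b (lead (MvPolynomial (Fin (s + 2)) R) a b + g₀) j).map
          (MvPolynomial.eval₂Hom φ t)) with hmn
  have herr : ∀ (v : HeightOneSpectrum (𝓞 k)) (φ : R →+* 𝓞 k ⧸ v.asIdeal),
      φ.comp (algebraMap (𝓞 k) R) = Ideal.Quotient.mk v.asIdeal → φ N ≠ 0 →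
      |β v φ - mn v φ| ≤ (B + (4 + 3 * c)) * √(Nat.card (𝓞 k ⧸ v.asIdeal) : ℝ) := by
    intro v φ hφ' hφ
    have hfin := Pool.Agent.H341R2.finite_v v
    let _ : Fintype (𝓞 k ⧸ v.asIdeal) := Fintype.ofFinite _
    have hn := npt_eq ((lead (MvPolynomial (Fin (s + 2)) R) a b + g₀).map
          (mapRingHom (MvPolynomial.map φ)))
    have e1 : ∀ t : Fin (s + 2) → 𝓞 k ⧸ v.asIdeal, wtb a b c (𝓞 k ⧸ v.asIdeal)
        (fun j => (fam a b (lead (MvPolynomial (Fin (s + 2)) R) a b + g₀) j).map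
          (MvPolynomial.eval₂Hom φ t)) = cnt (𝓞 k ⧸ v.asIdeal)
          (((lead (MvPolynomial (Fin (s + 2)) R) a b + g₀).map
          (mapRingHom (MvPolynomial.map φ))).map (mapRingHom (MvPolynomial.eval t))) -
          Nat.card (𝓞 k ⧸ v.asIdeal) := by
      intro t
      rw [wtb_map hw ha1 hg, map_line_mv]
    have e2 := est (s := s) (F := 𝓞 k ⧸ v.asIdeal) (N := fun t => cnt (𝓞 k ⧸ v.asIdeal)
          (((lead (MvPolynomial (Fin (s + 2)) R) a b + g₀).map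
          (mapRingHom (MvPolynomial.map φ))).map (mapRingHom (MvPolynomial.eval t)))) hc (by
        intro t
        rw [map_line_mv, Polynomial.map_add, lead_map]
        exact hw _ _ (hg.map _))
    have e3 := hβ v φ hφ' hφ
    rw [hn] at e3
    rw [hmn]
    simp only
    rw [finsum_eq_sum_of_fintype, Finset.sum_congr rfl fun t _ => e1 t]
    refine (abs_sub_le _ _ _).trans ((add_le_add e3 e2).trans (le_of_eq ?_))
    ring
  have r2 : HasResidue S (fun v => (Ideal.absNorm v.asIdeal : ℝ)⁻¹ *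
      (((Nat.card (𝓞 k ⧸ v.asIdeal) : ℝ) ^ (d + 1))⁻¹ * ∑ᶠ φ : {φ : R →+* 𝓞 k ⧸ v.asIdeal //
        φ.comp (algebraMap (𝓞 k) R) = Ideal.Quotient.mk v.asIdeal ∧ φ N ≠ 0},
          (β v φ.1 - mn v φ.1))) 1 0 := by
    refine residue_small (C := C3 * (B + (4 + 3 * c))) (by positivity) fun v => ?_
    have hfin := Pool.Agent.H341R2.finite_v v
    have hqn' : ((Ideal.absNorm v.asIdeal : ℕ) : ℝ) = (Nat.card (𝓞 k ⧸ v.asIdeal) : ℝ) := rfl
    let _ : Fintype (R →+* 𝓞 k ⧸ v.asIdeal) := Fintype.ofFinite _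
    rw [hqn', finsum_sub (fun φ : R →+* 𝓞 k ⧸ v.asIdeal => φ.comp (algebraMap (𝓞 k) R) =
      Ideal.Quotient.mk v.asIdeal ∧ φ N ≠ 0) (fun φ => β v φ - mn v φ)]
    set q : ℝ := (Nat.card (𝓞 k ⧸ v.asIdeal) : ℝ) with hq
    have hq0 : 0 < q := by
      rw [hq]
      exact_mod_cast Nat.card_pos
    have hs : √q * √q = q := Real.mul_self_sqrt hq0.le
    have hs0 : 0 ≤ √q := Real.sqrt_nonneg _
    have hqe : 0 < q ^ (d + 1) := by positivity
    have hb0 : 0 ≤ (B + (4 + 3 * c)) * √q := by positivity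
    have h1 : |∑ φ : R →+* 𝓞 k ⧸ v.asIdeal, if φ.comp (algebraMap (𝓞 k) R) =
        Ideal.Quotient.mk v.asIdeal ∧ φ N ≠ 0 then β v φ - mn v φ else 0| ≤
        (C3 * q ^ (d + 1)) * ((B + (4 + 3 * c)) * √q) := by
      calc _ ≤ ∑ φ : R →+* 𝓞 k ⧸ v.asIdeal, |if φ.comp (algebraMap (𝓞 k) R) =
            Ideal.Quotient.mk v.asIdeal ∧ φ N ≠ 0 then β v φ - mn v φ else 0| :=
            Finset.abs_sum_le_sum_abs _ _
        _ ≤ ∑ φ : R →+* 𝓞 k ⧸ v.asIdeal, (B + (4 + 3 * c)) * √q := by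
            refine Finset.sum_le_sum fun φ _ => ?_
            split_ifs with h
            · exact herr v φ h.1 h.2
            · rw [abs_zero]
              exact hb0
        _ = (Nat.card (R →+* 𝓞 k ⧸ v.asIdeal) : ℝ) * ((B + (4 + 3 * c)) * √q) := by
            rw [Finset.sum_const, Finset.card_univ, nsmul_eq_mul, Nat.card_eq_fintype_card]
        _ ≤ (C3 * q ^ (d + 1)) * ((B + (4 + 3 * c)) * √q) :=
            mul_le_mul_of_nonneg_right (g3 _) hb0
    rw [abs_mul, abs_mul, abs_of_pos (inv_pos.2 hq0), abs_of_pos (inv_pos.2 hqe)]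
    calc q⁻¹ * ((q ^ (d + 1))⁻¹ * _) * √q ≤
        q⁻¹ * ((q ^ (d + 1))⁻¹ * ((C3 * q ^ (d + 1)) * ((B + (4 + 3 * c)) * √q))) * √q := by
          gcongr
      _ = (q⁻¹ * (√q * √q)) * ((q ^ (d + 1))⁻¹ * q ^ (d + 1)) * (C3 * (B + (4 + 3 * c))) := by ring
      _ = C3 * (B + (4 + 3 * c)) := by
          rw [hs, inv_mul_cancel₀ hq0.ne', inv_mul_cancel₀ hqe.ne']; ring
  have r3 := residue_shift (residue_add (residue_add (residue_add r1 r1) r0) r2)
  have e : (1 : ℝ) + 1 + (((Nat.card (MaxPts (cur a b (gm L P₀)) (gm L Q)) : ℤ) -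
      Nat.card (Comps (gm L Q)) : ℤ) : ℝ) + 0 =
      ((2 + ((Nat.card (MaxPts (cur a b (gm L P₀)) (gm L Q)) : ℤ) - Nat.card (Comps (gm L Q))) : ℤ) : ℝ) := by
    push_cast
    ring
  rw [e] at r3
  convert r3 using 2 with v
  have hfin := Pool.Agent.H341R2.finite_v v
  have hqn : (Ideal.absNorm v.asIdeal : ℝ) = (Nat.card (𝓞 k ⧸ v.asIdeal) : ℝ) := rfl
  let _ : Fintype (𝓞 k ⧸ v.asIdeal) := Fintype.ofFinite _
  let _ : Fintype (R →+* 𝓞 k ⧸ v.asIdeal) := Fintype.ofFinite _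
  have hfX : Finite (MvPolynomial (Fin (s + 2)) R →+* 𝓞 k ⧸ v.asIdeal) := finite_mv
  let _ : Fintype (MvPolynomial (Fin (s + 2)) R →+* 𝓞 k ⧸ v.asIdeal) := Fintype.ofFinite _
  have e9 : sR (wtb a b c) (algebraMap (𝓞 k) (MvPolynomial (Fin (s + 2)) R))
      (fam a b (lead (MvPolynomial (Fin (s + 2)) R) a b + g₀)) (MvPolynomial.C N) (𝓞 k ⧸ v.asIdeal)
      (Ideal.Quotient.mk v.asIdeal) = ∑ φ : R →+* 𝓞 k ⧸ v.asIdeal,
        if φ.comp (algebraMap (𝓞 k) R) = Ideal.Quotient.mk v.asIdeal ∧ φ N ≠ 0 then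
        ∑ t : Fin (s + 2) → 𝓞 k ⧸ v.asIdeal, wtb a b c (𝓞 k ⧸ v.asIdeal)
          (fun j => (fam a b (lead (MvPolynomial (Fin (s + 2)) R) a b + g₀) j).map
            (MvPolynomial.eval₂Hom φ t)) else 0 := by
    rw [sR_eq]
    refine Eq.trans ?_ (sum_mv (fun φ : R →+* 𝓞 k ⧸ v.asIdeal => φ.comp (algebraMap (𝓞 k) R) =
      Ideal.Quotient.mk v.asIdeal ∧ φ N ≠ 0) (fun Φ => wtb a b c (𝓞 k ⧸ v.asIdeal)
        (fun j => (fam a b (lead (MvPolynomial (Fin (s + 2)) R) a b + g₀) j).map Φ)))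
    exact Finset.sum_congr rfl fun Φ _ => if_congr Iff.rfl rfl rfl
  unfold avg
  rw [e9, sR_eq, hqn]
  rw [finsum_sub (fun φ : R →+* 𝓞 k ⧸ v.asIdeal => φ.comp (algebraMap (𝓞 k) R) =
    Ideal.Quotient.mk v.asIdeal ∧ φ N ≠ 0) (fun φ => β v φ),
    finsum_sub (fun φ : R →+* 𝓞 k ⧸ v.asIdeal => φ.comp (algebraMap (𝓞 k) R) =
    Ideal.Quotient.mk v.asIdeal ∧ φ N ≠ 0) (fun φ => β v φ - mn v φ)]
  have e6 : ∀ φ : R →+* 𝓞 k ⧸ v.asIdeal, β v φ =
      2 * (Nat.card (𝓞 k ⧸ v.asIdeal) : ℝ) + ((Nat.card (𝓞 k ⧸ v.asIdeal) : ℝ) ^ (s + 1))⁻¹ *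
      (∑ t : Fin (s + 2) → 𝓞 k ⧸ v.asIdeal, wtb a b c (𝓞 k ⧸ v.asIdeal)
        (fun j => (fam a b (lead (MvPolynomial (Fin (s + 2)) R) a b + g₀) j).map
          (MvPolynomial.eval₂Hom φ t))) + (β v φ - mn v φ) := by
    intro φ
    rw [hmn]
    simp only
    rw [finsum_eq_sum_of_fintype]
    ring
  set q : ℝ := (Nat.card (𝓞 k ⧸ v.asIdeal) : ℝ) with hq
  have hq0 : q ≠ 0 := by
    rw [hq]
    exact_mod_cast (Nat.card_pos (α := 𝓞 k ⧸ v.asIdeal)).ne'
  have e7 : ∀ φ : R →+* 𝓞 k ⧸ v.asIdeal, (if φ.comp (algebraMap (𝓞 k) R) =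
      Ideal.Quotient.mk v.asIdeal ∧ φ N ≠ 0 then β v φ else 0) =
      2 * q * (if φ.comp (algebraMap (𝓞 k) R) = Ideal.Quotient.mk v.asIdeal ∧ φ N ≠ 0 then
        wone (𝓞 k ⧸ v.asIdeal) (fun j : Empty => (j.elim : R[X]).map φ) else 0) +
      (q ^ (s + 1))⁻¹ * (if φ.comp (algebraMap (𝓞 k) R) = Ideal.Quotient.mk v.asIdeal ∧ φ N ≠ 0 then
        ∑ t : Fin (s + 2) → 𝓞 k ⧸ v.asIdeal, wtb a b c (𝓞 k ⧸ v.asIdeal)
          (fun j => (fam a b (lead (MvPolynomial (Fin (s + 2)) R) a b + g₀) j).map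
            (MvPolynomial.eval₂Hom φ t)) else 0) +
      (if φ.comp (algebraMap (𝓞 k) R) = Ideal.Quotient.mk v.asIdeal ∧ φ N ≠ 0 then
        (β v φ - mn v φ) else 0) := by
    intro φ
    by_cases h : φ.comp (algebraMap (𝓞 k) R) = Ideal.Quotient.mk v.asIdeal ∧ φ N ≠ 0
    · rw [if_pos h, if_pos h, if_pos h, if_pos h]
      unfold wone
      have h6 := e6 φ
      linear_combination h6
    · rw [if_neg h, if_neg h, if_neg h, if_neg h]
      ring
  rw [Finset.sum_congr rfl fun φ _ => e7 φ, Finset.sum_add_distrib, Finset.sum_add_distrib,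
    ← Finset.mul_sum, ← Finset.mul_sum]
  have e8 : q * (q ^ (d + (s + 2) + 1))⁻¹ = (q ^ (d + 1))⁻¹ * (q ^ (s + 1))⁻¹ := by
    rw [show d + (s + 2) + 1 = (d + 1) + (s + 1) + 1 by ring, pow_succ q ((d + 1) + (s + 1)), pow_add q (d + 1) (s + 1),
      mul_inv, mul_inv, mul_comm ((q ^ (d + 1))⁻¹ * (q ^ (s + 1))⁻¹) q⁻¹, ← mul_assoc,
      mul_inv_cancel₀ hq0, one_mul]
  have e10 : q * q⁻¹ = 1 := mul_inv_cancel₀ hq0
  generalize (∑ φ : R →+* 𝓞 k ⧸ v.asIdeal, if φ.comp (algebraMap (𝓞 k) R) =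
    Ideal.Quotient.mk v.asIdeal ∧ φ N ≠ 0 then
        wone (𝓞 k ⧸ v.asIdeal) (fun j : Empty => (j.elim : R[X]).map φ) else 0) = s1
  generalize (∑ φ : R →+* 𝓞 k ⧸ v.asIdeal, if φ.comp (algebraMap (𝓞 k) R) =
    Ideal.Quotient.mk v.asIdeal ∧ φ N ≠ 0 then
        ∑ t : Fin (s + 2) → 𝓞 k ⧸ v.asIdeal, wtb a b c (𝓞 k ⧸ v.asIdeal)
          (fun j => (fam a b (lead (MvPolynomial (Fin (s + 2)) R) a b + g₀) j).map
            (MvPolynomial.eval₂Hom φ t)) else 0) = s2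
  generalize (∑ φ : R →+* 𝓞 k ⧸ v.asIdeal, if φ.comp (algebraMap (𝓞 k) R) =
    Ideal.Quotient.mk v.asIdeal ∧ φ N ≠ 0 then (β v φ - mn v φ) else 0) = s3
  linear_combination (-s2) * e8 - ((q ^ (d + 1))⁻¹ * s3) * e10

end

end Pool.Agent.T2H65.CP
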